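import Pool.Agent.Lib.MP_3240be_co.C4.Final

/-!
# MP_3240be_co: all 2-connected graphs
-/

set_option autoImplicit false

namespace MP3240C

open Finset MP3240T MP3240W MP3240WC
open MP3240N (NoCut)
open Pool.Agent.Lib.MP_3240be_co.H36.Chrom (ArrowsT iso_of_le)

theorem staysConnected_of_noCut {n : ℕ} {H : SimpleGraph (Fin n)} (h : NoCut H) (a : Fin n) :
    StaysConnected H a a := by
  have h2 := h a
  unfold StaysConnected
  have e : ({x | x ≠ a ∧ x ≠ a} : Set (Fin n)) = {x | x ≠ a} := by
    ext x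
    simp
  rwa [e]

/-- **Every 2-connected graph is separated from every larger connected graph containing it.** -/
theorem two_connected {n n' : ℕ} (H : SimpleGraph (Fin n)) (H' : SimpleGraph (Fin n'))
    (h3 : 3 ≤ n) (hcut : NoCut H) (hconn : H'.Connected) (hyes : Emb H H') (hno : ¬ Emb H' H) :
    ∃ (m : ℕ) (F : SimpleGraph (Fin m)), Arr F H ∧ ¬ Arr F H' := by
  by_cases h4 : H.Colorable 3
  · by_cases h2 : H.Colorable 2
    · obtain ⟨C⟩ := h2
      have hiso : IsEmpty (H ≃g H') := by
        refine ⟨fun e => hno ⟨e.symm, e.symm.injective, fun i j hij => ?_⟩⟩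
        exact e.symm.map_rel_iff.2 hij
      obtain ⟨m, F, hF1, hF2⟩ := two_connected_bipartite H H' h3
        (fun x => decide (C x = 0)) (fun x y hxy => by
          have h5 := C.valid hxy
          intro h6
          apply h5
          have h7 : ∀ a b : Fin 2, decide (a = 0) = decide (b = 0) → a = b := by decide
          exact h7 _ _ h6) (staysConnected_of_noCut hcut) hconn hyes hiso
      exact ⟨m, F, (arr_iff F H).2 hF1, fun h => hF2 ((arr_iff F H').1 h)⟩
    · exact MP3240M.crm_main n n' H H' h3 hcut h4 h2 hconn hyes hno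
  · exact crc_main n n' H H' h3 hcut h4 hconn hyes hno

/-- The same in the language of `ArrowsT`. -/
theorem two_connected_T {n n' : ℕ} (H : SimpleGraph (Fin n)) (H' : SimpleGraph (Fin n'))
    (h3 : 3 ≤ n) (hcut : NoCut H) (hconn : H'.Connected)
    (hyes : ∃ f : Fin n → Fin n', Function.Injective f ∧ ∀ x y, H.Adj x y → H'.Adj (f x) (f y))
    (hiso : IsEmpty (H ≃g H')) :
    ∃ (m : ℕ) (F : SimpleGraph (Fin m)), ArrowsT F H ∧ ¬ ArrowsT F H' := by
  by_cases hno : ∃ f : Fin n' → Fin n, Function.Injective f ∧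
      ∀ x y, H'.Adj x y → H.Adj (f x) (f y)
  · obtain ⟨e⟩ := iso_of_le H H' hyes hno
    exact (hiso.false e).elim
  · obtain ⟨m, F, hF1, hF2⟩ := two_connected H H' h3 hcut hconn hyes hno
    exact ⟨m, F, (arr_iff F H).1 hF1, fun h => hF2 ((arr_iff F H').2 h)⟩

end MP3240C
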