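import Pool.Agent.Lib.MP_3240be_co.C4.Defs
import Pool.Agent.Lib.MP_3240be_co.H43.Defs2

/-!
# Board c4_modules, row BLC: no blue copy of `H` in the host of Theorem C4

The blue edges lie in worlds (the hubs and lows of one index and one kind) and in gadgets; a copy
of the 2-connected graph `H` lies in one of them by row PC2; a world has too few hubs, a gadget is
excluded by row GAC.
-/

set_option autoImplicit false

namespace MP3240C

open Finset MP3240T MP3240W
open MP3240N (Sig SP)
open Pool.Agent.Lib.MP_3240be_co.H36 (LocCol Blow)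
open Pool.Agent.Lib.MP_3240be_co.H36.Chrom (Sparse Leaf)

namespace Blc

variable {n h N q L : ℕ} {I M C : Type}

/-- The world of a vertex. -/
def lab : VC n h q L I M C → Option (Option I × Fin q)
  | .u _ => none
  | .c i w _ => some (i, w)
  | .l i w _ => some (i, w)
  | .z _ _ _ => none
  | .g _ _ _ _ => none

/-- The vertex belongs to a gadget of `m`. -/
def gad (kd : Fin N → Fin q) (δ : M → SP n N q L → I) (m : M) : VC n h q L I M C → Prop
  | .l i w t => ∃ s ps, VC.l i w t = lowC (h := h) (C := C) kd δ m s ps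
  | .z m' _ _ => m' = m
  | .g m' _ _ _ => m' = m
  | _ => False

/-- A blue edge lies in a world or in a gadget. -/
theorem cover (H : SimpleGraph (Fin n)) (x y : Fin n) (W : SimpleGraph (Fin q))
    (T : Bool × Fin q → SimpleGraph (Fin L)) (kd : Fin N → Fin q) (δ : M → SP n N q L → I)
    (X : Cx q C) (a b : VC n h q L I M C) (hr : relC H x y W T kd δ X a b) (hn : ¬ redC W X a b) :
    (∃ i, lab a = some i ∧ lab b = some i) ∨ ∃ m, gad kd δ m a ∧ gad kd δ m b := by
  rcases a with l | ⟨i, w, l⟩ | ⟨i, w, t⟩ | ⟨m, ps, v⟩ | ⟨m, ps, σ, k⟩ <;>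
    rcases b with l' | ⟨i', w', l'⟩ | ⟨i', w', t'⟩ | ⟨m', ps', v'⟩ | ⟨m', ps', σ', k'⟩ <;>
    first
      | exact False.elim hr
      | exact False.elim (hn trivial)
      | skip
  · rcases hr with hr | hr
    · exact Or.inl ⟨(i, w), rfl, by rw [hr.1, hr.2]; rfl⟩
    · exact False.elim (hn hr)
  · rcases hr with hr | ⟨h1, h2, _⟩ | ⟨m, ps, s, s', h1, h2, _⟩
    · exact False.elim (hn hr)
    · exact Or.inl ⟨(i, w), rfl, by rw [h1, h2]; rfl⟩
    · exact Or.inr ⟨m, ⟨s, ps, h1⟩, ⟨s', ps, h2⟩⟩
  · obtain ⟨s, h1, _⟩ := hr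
    exact Or.inr ⟨m, rfl, ⟨s, ps, h1⟩⟩
  · rcases hr with ⟨_, s, h1, _⟩ | h1
    · exact Or.inr ⟨m, rfl, ⟨s, ps, h1⟩⟩
    · exact False.elim (hn h1)
  · obtain ⟨h1, _⟩ := hr
    exact Or.inr ⟨m, rfl, h1.symm⟩

/-- A blue edge inside a world: a hub and a low, or two lows that are adjacent in `T`. -/
theorem inside (H : SimpleGraph (Fin n)) (x y : Fin n) (W : SimpleGraph (Fin q))
    (T : Bool × Fin q → SimpleGraph (Fin L)) (kd : Fin N → Fin q) (δ : M → SP n N q L → I)
    (hδ : ∀ m, Function.Injective (δ m)) (X : Cx q C)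
    (i0 : Option I) (w0 : Fin q) (a b : VC n h q L I M C) (hr : relC H x y W T kd δ X a b) (hn : ¬ redC W X a b)
    (ha : lab a = some (i0, w0)) (hb : lab b = some (i0, w0)) :
    (∃ k t, a = .c i0 w0 k ∧ b = .l i0 w0 t) ∨
      ∃ t t', a = .l i0 w0 t ∧ b = .l i0 w0 t' ∧ (T (i0.isNone, w0)).Adj t t' := by
  rcases a with l | ⟨i, w, l⟩ | ⟨i, w, t⟩ | ⟨m, ps, v⟩ | ⟨m, ps, σ, k⟩ <;>
    rcases b with l' | ⟨i', w', l'⟩ | ⟨i', w', t'⟩ | ⟨m', ps', v'⟩ | ⟨m', ps', σ', k'⟩ <;>
    first
      | exact False.elim hr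
      | exact False.elim (hn trivial)
      | skip
  · simp only [lab, Option.some.injEq, Prod.mk.injEq] at ha hb
    obtain ⟨rfl, rfl⟩ := ha
    obtain ⟨rfl, rfl⟩ := hb
    exact Or.inl ⟨l, t', rfl, rfl⟩
  · simp only [lab, Option.some.injEq, Prod.mk.injEq] at ha hb
    obtain ⟨rfl, rfl⟩ := ha
    obtain ⟨h3, h4⟩ := hb
    subst h3
    subst h4
    rcases hr with hr | ⟨_, _, h3⟩ | ⟨m, ps, s, s', h1, h2, h3⟩
    · exact False.elim (hn hr)
    · exact Or.inr ⟨t, t', rfl, rfl, h3⟩
    · exfalso
      simp only [lowC, VC.l.injEq] at h1 h2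
      have h5 : δ m (s, ps) = δ m (s', ps) := Option.some_injective _ (h1.1.symm.trans h2.1)
      have h6 : s = s' := congrArg Prod.fst (hδ m h5)
      rw [h6] at h3
      exact H.loopless.irrefl _ h3.2.2.2.2.2
  · simp [lab] at ha
  · simp [lab] at ha
  · simp [lab] at ha

/-- The world of a slot. -/
def dk (kd : Fin N → Fin q) (δ : M → SP n N q L → I) (m : M) (t : SP n N q L) : I × Fin q :=
  (δ m t, kd t.1.2.2.1)

theorem dk_inj (kd : Fin N → Fin q) (δ : M → SP n N q L → I)
    (hδ : ∀ m, Function.Injective (δ m)) (m : M) : Function.Injective (dk kd δ m) := by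
  intro t t' htt
  exact hδ m (congrArg Prod.fst htt)

theorem dk_sparse (kd : Fin N → Fin q) (δ : M → SP n N q L → I)
    (hδ : ∀ m, Function.Injective (δ m)) (g : ℕ) (hs : Sparse g δ) : Sparse g (dk kd δ) := by
  intro S h1 h2
  obtain ⟨m, hm, m', hm', hne, hl, hl'⟩ := hs S h1 h2
  refine ⟨m, hm, m', hm', hne, ?_, ?_⟩
  · intro a ha b hb hne1 hne2 t t' s s' e1 e2
    have h3 := hl a ha b hb hne1 hne2 t t' s s' (congrArg Prod.fst e1) (congrArg Prod.fst e2)
    rw [hδ m h3]
  · intro a ha b hb hne1 hne2 t t' s s' e1 e2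
    have h3 := hl' a ha b hb hne1 hne2 t t' s s' (congrArg Prod.fst e1) (congrArg Prod.fst e2)
    rw [hδ m' h3]

end Blc

open Blc in
theorem blc_proof (h1 : Pc2Statement) (h2 : GacStatement) : BlcStatement := by
  classical
  intro n h N q L p H x y W T kd I M C δ X hSig hn hxy htc hcon hcx hX hT hδ hsp hE
  obtain ⟨f, hf, hadj⟩ := hE
  have hblue : ∀ a b : VC n h q L I M C, (cls (FC H x y W T kd δ X) (cC W X) false).Adj a b →
      a ≠ b ∧ (relC H x y W T kd δ X a b ∨ relC H x y W T kd δ X b a) ∧ ¬ redC W X a b ∧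
        ¬ redC W X b a := by
    intro a b hab
    have e1 := (SimpleGraph.fromRel_adj _ _ _).1 hab.1
    have e2 : ¬ (redC W X a b ∨ redC W X b a) := by
      have e3 := hab.2.1
      unfold cC at e3
      exact of_decide_eq_false e3
    exact ⟨e1.1, e1.2, fun e => e2 (Or.inl e), fun e => e2 (Or.inr e)⟩
  have hno : ∀ u : Fin n, ∃ v, H.Adj u v := by
    intro u
    have : Nontrivial (Fin n) := Fin.nontrivial_iff_two_le.2 hn
    exact hcon.preconnected.exists_adj_of_nontrivial u
  have hmain := h1 n H (VC n h q L I M C) (I × Fin q) (Option I × Fin q) M (SP n N q L)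
    (dk kd δ) (fun p => (some p.1, p.2)) f
    (fun j => {a | lab a = some j}) (fun m => {a | gad kd δ m a})
    (fun m t => lowC kd δ m t.1 t.2) (by omega) htc hno hf
    (by
      rintro ⟨i, w⟩ ⟨i', w'⟩ e
      simp only [Prod.mk.injEq, Option.some.injEq] at e
      rw [e.1, e.2])
    (dk_inj kd δ hδ) (dk_sparse kd δ hδ _ hsp) ?_ ?_ ?_ ?_
  · rcases hmain with ⟨⟨i0, w0⟩, hi⟩ | ⟨m, hm⟩
    · -- a world has too few hubs
      obtain ⟨col, hcol1, hcol2⟩ := hT (i0.isNone, w0)
        (univ.filter (fun t : Fin L => ∃ v, f v = .l i0 w0 t)) (by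
          have hsub : (univ.filter (fun t : Fin L => ∃ v, f v = .l i0 w0 t)).card ≤
              (univ : Finset (Fin n)).card := by
            have hch : ∀ t : Fin L, ∃ v : Fin n, (∃ v, f v = .l i0 w0 t) → f v = .l i0 w0 t := by
              intro t
              by_cases ht : ∃ v, f v = .l i0 w0 t
              · obtain ⟨v, hv⟩ := ht
                exact ⟨v, fun _ => hv⟩
              · exact ⟨x, fun h => absurd h ht⟩
            choose ch hch using hch
            refine Finset.card_le_card_of_injOn ch (fun _ _ => by simp) ?_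
            intro t ht t' ht' htt
            have e1 := hch t (by simpa using ht)
            have e2 := hch t' (by simpa using ht')
            rw [htt, e2] at e1
            simp only [VC.l.injEq, true_and] at e1
            exact e1.symm
          simpa using hsub)
      have hr0 : ∀ t, col t < p + 1 := hcol1
      let κ : Fin n → Option (Fin (p + 1)) := fun v => match f v with
        | .l _ _ t => some ⟨col t, hr0 t⟩
        | _ => none
      have hκl : ∀ v i w t, f v = .l i w t → κ v = some ⟨col t, hr0 t⟩ := by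
        intro v i w t e
        simp only [κ, e]
      have hκc : ∀ v i w k, f v = .c i w k → κ v = none := by
        intro v i w k e
        simp only [κ, e]
      have hstep : ∀ i j, relC H x y W T kd δ X (f i) (f j) → ¬ redC W X (f i) (f j) →
          κ i ≠ κ j := by
        intro i j e1 e2
        rcases inside H x y W T kd δ hδ X i0 w0 _ _ e1 e2 (hi i) (hi j) with
          ⟨k, t, e3, e4⟩ | ⟨t, t', e3, e4, e5⟩
        · rw [hκc i _ _ _ e3, hκl j _ _ _ e4]
          simp
        · rw [hκl i _ _ _ e3, hκl j _ _ _ e4]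
          intro e6
          simp only [Option.some.injEq, Fin.mk.injEq] at e6
          exact hcol2 t (by simpa using ⟨i, e3⟩) t' (by simpa using ⟨j, e4⟩) e5 e6
      have hprop : ∀ i j, H.Adj i j → κ i ≠ κ j := by
        intro i j hij
        obtain ⟨_, e1, e2, e3⟩ := hblue _ _ (hadj i j hij)
        rcases e1 with e1 | e1
        · exact hstep i j e1 e2
        · exact (hstep j i e1 e3).symm
      have hlt := hSig κ hprop
      have hh : ∀ v, κ v = none → ∃ k, f v = VC.c i0 w0 k := by
        intro v hv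
        have hlab : lab (f v) = some (i0, w0) := hi v
        rcases hfv : f v with l | ⟨i, w, l⟩ | ⟨i, w, t⟩ | ⟨m, ps, v'⟩ | ⟨m, ps, σ, k⟩
        · rw [hfv] at hlab
          simp [lab] at hlab
        · rw [hfv] at hlab
          simp only [lab, Option.some.injEq, Prod.mk.injEq] at hlab
          exact ⟨l, by rw [hlab.1, hlab.2]⟩
        · rw [hκl v _ _ _ hfv] at hv
          simp at hv
        · rw [hfv] at hlab
          simp [lab] at hlab
        · rw [hfv] at hlab
          simp [lab] at hlab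
      have hcard : (univ.filter (fun v => κ v = none)).card ≤ (univ : Finset (Fin h)).card := by
        by_contra hlt'
        push Not at hlt'
        have hpos : 0 < h := by
          rcases Nat.eq_zero_or_pos h with h0 | h0
          · subst h0
            obtain ⟨v, hv⟩ := Finset.card_pos.1 (lt_of_le_of_lt (Nat.zero_le _) hlt')
            obtain ⟨l, -⟩ := hh v (Finset.mem_filter.1 hv).2
            exact l.elim0
          · exact h0
        have hch : ∀ v : Fin n, ∃ k : Fin h, κ v = none → f v = VC.c i0 w0 k := by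
          intro v
          by_cases hv : κ v = none
          · obtain ⟨k, hk⟩ := hh v hv
            exact ⟨k, fun _ => hk⟩
          · exact ⟨⟨0, hpos⟩, fun h => absurd h hv⟩
        choose c hc using hch
        obtain ⟨v, hv, w, hw, hvw, hcvw⟩ := Finset.exists_ne_map_eq_of_card_lt_of_maps_to
          (f := c) hlt' (fun _ _ => Finset.mem_univ _)
        apply hvw
        apply hf
        rw [hc v (Finset.mem_filter.1 hv).2, hc w (Finset.mem_filter.1 hw).2, hcvw]
      rw [Finset.card_univ, Fintype.card_fin] at hcard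
      omega
    · apply h2 n h N q L p H x y W T kd I M C δ X hn hxy htc hcon hcx hX hδ hsp f m hf hadj
      intro i
      have h4 : gad kd δ m (f i) := hm i
      rcases hfi : f i with l | ⟨i, w, l⟩ | ⟨i, w, t⟩ | ⟨m', ps, v⟩ | ⟨m', ps, σ, k⟩
      · rw [hfi] at h4
        exact False.elim h4
      · rw [hfi] at h4
        exact False.elim h4
      · rw [hfi] at h4
        obtain ⟨s, ps, e⟩ := h4
        exact Or.inr (Or.inl ⟨s, ps, e⟩)
      · rw [hfi] at h4
        have h5 : m' = m := h4
        exact Or.inl ⟨ps, v, by rw [h5]⟩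
      · rw [hfi] at h4
        have h5 : m' = m := h4
        exact Or.inr (Or.inr ⟨ps, σ, k, by rw [h5]⟩)
  · intro u v huv
    obtain ⟨-, e1, e2, e3⟩ := hblue _ _ (hadj u v huv)
    rcases e1 with e1 | e1
    · exact cover H x y W T kd δ X _ _ e1 e2
    · rcases cover H x y W T kd δ X _ _ e1 e3 with ⟨j, g1, g2⟩ | ⟨m, g1, g2⟩
      · exact Or.inl ⟨j, g2, g1⟩
      · exact Or.inr ⟨m, g2, g1⟩
  · intro j j' a ha ha'
    exact Option.some_injective _ (ha.symm.trans ha')
  · intro m m' a hmm ha ha'
    have h4 : gad kd δ m a := ha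
    have h6 : gad kd δ m' a := ha'
    revert h4 h6
    rcases a with l | ⟨i, w, l⟩ | ⟨i, w, t⟩ | ⟨m0, ps, v⟩ | ⟨m0, ps, σ, k⟩ <;> intro h4 h6
    · exact False.elim h4
    · exact False.elim h4
    · obtain ⟨s, ps, e1⟩ := h4
      obtain ⟨s', ps', e2⟩ := h6
      refine ⟨(s, ps), (s', ps'), e1, ?_⟩
      simp only [lowC, VC.l.injEq] at e1 e2
      simp only [dk, Prod.mk.injEq]
      exact ⟨Option.some_injective _ (e1.1.symm.trans e2.1), e1.2.1.symm.trans e2.2.1⟩
    · have h5 : m0 = m := h4
      have h7 : m0 = m' := h6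
      exact absurd (h5.symm.trans h7) hmm
    · have h5 : m0 = m := h4
      have h7 : m0 = m' := h6
      exact absurd (h5.symm.trans h7) hmm
  · rintro ⟨i0, w0⟩ m a ha hm
    have h4 : gad kd δ m a := hm
    have h6 : lab a = some (i0, w0) := ha
    revert h4 h6
    rcases a with l | ⟨i, w, l⟩ | ⟨i, w, t⟩ | ⟨m0, ps, v⟩ | ⟨m0, ps, σ, k⟩ <;> intro h4 h6
    · exact False.elim h4
    · exact False.elim h4
    · obtain ⟨s, ps, e1⟩ := h4
      refine ⟨(s, ps), e1, ?_⟩
      simp only [lab, Option.some.injEq, Prod.mk.injEq] at h6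
      simp only [lowC, VC.l.injEq] at e1
      simp only [dk, Prod.mk.injEq]
      exact ⟨h6.1.symm.trans e1.1, h6.2.symm.trans e1.2.1⟩
    · simp [lab] at h6
    · simp [lab] at h6

end MP3240C
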