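import Pool.Agent.Lib.MP_3240be_co.C4.Defs
import Pool.Agent.Lib.MP_3240be_co.M64.Gcl

/-!
# MP_3240be_co, Theorem C4, row CLC: the closure lemma, from the general closure lemma of M64
-/

set_option autoImplicit false

namespace MP3240C

open Finset MP3240T MP3240W

/-- A local colouring of a complex is a local colouring of an attachment. -/
theorem attCol_of_cxB {C : Type} {R : C → C → Prop} {A : C → Prop} {n p : ℕ}
    (h : CxB R A n p) : MP3240M.AttCol (p + 1) n R A := by
  intro P hP
  obtain ⟨κ, h1, h2⟩ := h P hP
  refine ⟨fun a => (finSuccEquiv p).symm (κ a), (finSuccEquiv p).symm none, ?_, ?_⟩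
  · intro a ha b hb hab hk
    exact h1 a ha b hb hab ((finSuccEquiv p).symm.injective hk)
  · intro a ha hA hk
    exact h2 a ha hA ((finSuccEquiv p).symm.injective hk)

/-- The gadget with complexes is a gadget with attachments. -/
theorem cxFree_of_attFree {n p : ℕ} {H : SimpleGraph (Fin n)} {x y : Fin n}
    (h : MP3240M.AttFree H (p + 1) x y) : CxFree H p x y := by
  intro N C R A _ hC F hF hadj
  refine h N C (fun _ => R) (fun _ => A) (fun _ => attCol_of_cxB hC) F hF ?_
  intro i j hij
  have h1 := hadj i j hij
  revert h1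
  generalize F i = a
  generalize F j = b
  intro h1
  rcases a with (u | t) | c <;> rcases b with (u' | t') | c'
  · exact h1
  · exact h1
  · exact h1
  · exact h1
  · exact h1
  · exact ⟨h1.2, h1.1⟩
  · exact h1
  · exact ⟨h1.2, h1.1⟩
  · exact h1

/-- Row CLC. -/
theorem clc_proof : ClcStatement := by
  intro n p H hp htc hcon hc
  obtain ⟨x, y, hxy, h⟩ := MP3240M.genclo_main n (p + 1) H (by omega) htc hcon hc
  exact ⟨x, y, hxy, cxFree_of_attFree h⟩

end MP3240C
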