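import Pool.Agent.Lib.MP_3240be_co.C4.Frc

/-!
# MP_3240be_co, board c4_modules, row CPF (helper27): the windows of every complex are forced
-/

set_option autoImplicit false

namespace MP3240C

open Finset MP3240T MP3240W
open MP3240N (Sig BigC CopyB Homog SP plc QN NoCut)
open MP3240M (MData twAdj)
open Pool.Agent.Lib.MP_3240be_co.H36 (LocCol Blow)

/-- Two vertices of a complex of different windows. -/
theorem cpf_adj_ww {n h N q L : ℕ} {I M : Type} {p LR LQ : ℕ} (H : SimpleGraph (Fin n))
    (x y : Fin n) (W : SimpleGraph (Fin q)) (T : Bool × Fin q → SimpleGraph (Fin L))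
    (kd : Fin N → Fin q) (δ : M → SP n N q L → I) (TR : Option (Fin p) → SimpleGraph (Fin LR))
    (TQ : Fin q → SimpleGraph (Fin LQ)) (m : M) (ps : Fin q → Fin L) (σ : Ty n)
    (a b : CV p q LR LQ) (hne : a ≠ b) (hab : cxRel W TR TQ a b) :
    (FC (h := h) H x y W T kd δ (cx W TR TQ)).Adj (.g m ps σ a) (.g m ps σ b) := by
  refine fc_adj_gg H x y W T kd δ (cx W TR TQ) m ps σ a b ?_
  show (SimpleGraph.fromRel (cxRel W TR TQ)).Adj a b
  rw [SimpleGraph.fromRel_adj]
  exact ⟨hne, Or.inl hab⟩

/-- **Row CPF.** -/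
theorem cpf_proof (hF : FrcStatement) (hL : LnkStatement) : CpfStatement := by
  classical
  intro n h N q L p b₀ b₁ LR LQ sp H D x y W T K' kd I M δ TR TQ B B₁ c hp hb₀ hb₁ hsp hc hno
    hTR hTQ hB hB₁ Cs hHst i K b hfine m ps σ
  set x0 : Fin b₀ := ⟨0, hb₀⟩ with hx0
  set y0 : Fin b₁ := ⟨0, hb₁⟩ with hy0
  -- the windows
  obtain ⟨e, he⟩ := hTR
    (fun j t => (fun a s => c (win m ps σ j t) (.g m ps σ (.inr (a, s))),
      fun ν => c (win m ps σ j t) (lowC kd δ m (slt σ ν) ps)))
    (fun j t j' t' => c (win m ps σ j t) (win m ps σ j' t'))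
  have heQ : ∀ j t t' a s, c (win m ps σ j (e j t)) (.g m ps σ (.inr (a, s))) =
      c (win m ps σ j (e j t')) (.g m ps σ (.inr (a, s))) := by
    intro j t t' a s
    have h1 := congrArg Prod.fst ((he j).2.2.1 t t')
    exact congrFun (congrFun h1 a) s
  have heS : ∀ j t t' ν, c (win m ps σ j (e j t)) (lowC kd δ m (slt σ ν) ps) =
      c (win m ps σ j (e j t')) (lowC kd δ m (slt σ ν) ps) := by
    intro j t t' ν
    have h1 := congrArg Prod.snd ((he j).2.2.1 t t')
    exact congrFun h1 ν
  -- the special worlds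
  obtain ⟨f, hf⟩ := hTQ
    (fun a s => c (win m ps σ none (e none x0)) (.g m ps σ (.inr (a, s))))
    (fun a s a' s' => c (.g m ps σ (.inr (a, s))) (.g m ps σ (.inr (a', s'))))
  have hKi : Function.Injective K := by
    intro j j' hj
    by_contra hne
    exact (hfine.adj j j' hne).ne hj
  set F : Fin (p + 1) → Fin b₁ → VC n h q L I M (CV p q LR LQ) :=
    fun j t => .g m ps σ (.inr (K j, f (K j) t)) with hFdef
  -- the special vertices
  set S : Fin sp → VC n h q L I M (CV p q LR LQ) := fun k =>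
    if hk : (k : ℕ) < (p + 1) * b₁ then
      F (finProdFinEquiv.symm ⟨k, hk⟩).1 (finProdFinEquiv.symm ⟨k, hk⟩).2
    else F 0 y0 with hS
  have hSF : ∀ j t, ∃ k, S k = F j t := by
    intro j t
    refine ⟨⟨(finProdFinEquiv (j, t) : Fin ((p + 1) * b₁)), lt_of_lt_of_le
      (finProdFinEquiv (j, t)).2 hsp⟩, ?_⟩
    simp only [hS]
    rw [dif_pos (finProdFinEquiv (j, t)).2]
    have h1 : finProdFinEquiv.symm (finProdFinEquiv (j, t)) = (j, t) :=
      Equiv.symm_apply_apply _ _
    show F (finProdFinEquiv.symm (finProdFinEquiv (j, t))).1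
      (finProdFinEquiv.symm (finProdFinEquiv (j, t))).2 = F j t
    rw [h1]
  obtain ⟨Z⟩ := hHst i S
  obtain ⟨b', g1, g2, -, g4⟩ := hF n h N q L (p + 1) b₀ sp H D x y W T K' kd I M
    (CV p q LR LQ) δ (cx W TR TQ) B c (by omega) hc hno Cs i S Z K (fun _ => true) hfine.adj
  have hbb : b' = b := by
    by_contra hne
    have h1 : b = !b' := by
      revert hne
      cases b' <;> cases b <;> simp
    have h2 := hfine.one 0
    have h3 := (g2 0).2
    rw [h1] at h2
    have h4 : ((Cs.s none (K 0)).2 (!b') : ℕ) = p + 1 := h3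
    omega
  subst hbb
  -- the generic lows
  have hpart : ∃ phi : Fin n → Fin b₀, Function.Injective phi := by
    obtain ⟨Ph, hPh, -⟩ := (Z.cop true (K 0)).2.2 (!b')
    have h3 : ((Cs.s none (K 0)).2 (!b') : ℕ) = p + 1 := (g2 0).2
    have h4 : 0 < ((Cs.s none (K 0)).2 (!b') : ℕ) := by omega
    exact ⟨Ph ⟨0, h4⟩, hPh _⟩
  obtain ⟨phi, hphi⟩ := hpart
  -- blow-ups in the windows and in the special worlds
  have hρ : ∀ j : Option (Fin p), ∃ ρ : Bool → ℕ, p + 2 ≤ ρ true + ρ false ∧ ∀ β,
      Blow B (fun t t' => c (win m ps σ j (e j t)) (win m ps σ j (e j t'))) n (ρ β) β := by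
    intro j
    obtain ⟨A, A', hA, hA1, hA2⟩ := hB
      (fun t t' => c (win m ps σ j (e j t)) (win m ps σ j (e j t'))) (fun _ _ => hc _ _)
    exact ⟨fun β => if β then A else A', by simpa using hA, fun β => by
      cases β
      · simpa using hA2
      · simpa using hA1⟩
  choose ρ hρ1 hρ2 using hρ
  have hρF : ∀ j : Fin (p + 1), ∃ ρ : Bool → ℕ, p + 1 ≤ ρ true + ρ false ∧ ∀ β,
      Blow B₁ (fun t t' => c (F j t) (F j t')) n (ρ β) β := by
    intro j
    obtain ⟨A, A', hA, hA1, hA2⟩ := hB₁ (fun t t' => c (F j t) (F j t')) (fun _ _ => hc _ _)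
    exact ⟨fun β => if β then A else A', by simpa using hA, fun β => by
      cases β
      · simpa using hA2
      · simpa using hA1⟩
  choose ρF hρF1 hρF2 using hρF
  obtain ⟨k1, k2⟩ := hL n p h b₀ b₁ H D B B₁ _ (FC (h := h) H x y W T kd δ (cx W TR TQ)) c b'
    (fun j t => win m ps σ j (e j t))
    (fun j j' => c (win m ps σ j (e j x0)) (win m ps σ j' (e j' x0))) ρ F
    (fun j j' => c (F j y0) (F j' y0)) ρF (fun j => c (win m ps σ none (e none x0)) (F j y0))
    (fun j u => .l none (K j) (Z.e true (K j) (phi u))) hp hc hno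
    (by
      intro j t t' htt
      simp only [win, VC.g.injEq, Sum.inl.injEq, Prod.mk.injEq, true_and] at htt
      exact (he j).1 htt)
    (by
      intro j j' t t' hjj
      refine cpf_adj_ww H x y W T kd δ TR TQ m ps σ _ _ ?_ (Or.inl hjj)
      intro h0
      simp only [Sum.inl.injEq, Prod.mk.injEq] at h0
      exact hjj h0.1)
    (by
      intro j j' t t' hjj
      exact (he j).2.2.2 j' hjj t x0 t' x0)
    (by
      intro j t t' htt
      have h1 := (he j).2.1 t t' htt
      refine cpf_adj_ww H x y W T kd δ TR TQ m ps σ _ _ ?_ (Or.inr h1)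
      intro h0
      simp only [Sum.inl.injEq, Prod.mk.injEq] at h0
      exact h1.ne h0.2)
    hρ2 hρ1
    (by
      intro j t t' htt
      simp only [hFdef, VC.g.injEq, Sum.inr.injEq, Prod.mk.injEq, true_and] at htt
      exact (hf (K j)).1 htt)
    (by
      intro j j' t t' hjj
      refine cpf_adj_ww H x y W T kd δ TR TQ m ps σ _ _ ?_ (Or.inl (hfine.adj j j' hjj))
      intro h0
      simp only [Sum.inr.injEq, Prod.mk.injEq] at h0
      exact hjj (hKi h0.1))
    (by
      intro j j' t t' hjj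
      exact (hf (K j)).2.2.2 (K j') (fun h0 => hjj (hKi h0)) t y0 t' y0)
    (by
      intro j t t' htt
      have h1 := (hf (K j)).2.1 t t' htt
      refine cpf_adj_ww H x y W T kd δ TR TQ m ps σ _ _ ?_ (Or.inr ⟨rfl, h1⟩)
      intro h0
      simp only [Sum.inr.injEq, Prod.mk.injEq] at h0
      exact h1.ne h0.2)
    hρF2 hρF1
    (by
      intro j t t'
      exact cpf_adj_ww H x y W T kd δ TR TQ m ps σ _ _ (by simp) rfl)
    (by
      intro j t t'
      show c (win m ps σ none (e none t)) (.g m ps σ (.inr (K j, f (K j) t'))) =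
        c (win m ps σ none (e none x0)) (.g m ps σ (.inr (K j, f (K j) y0)))
      rw [heQ none t x0]
      exact (hf (K j)).2.2.1 t' y0)
    (by
      intro j u u' huu
      injection huu with _ _ h3
      exact hphi ((Z.cop true (K j)).1.1 h3))
    (by
      intro j j' u u' hjj
      exact ⟨fc_adj_ll H x y W T kd δ _ _ _ _ _ _ _ (Or.inl (hfine.adj j j' hjj)),
        g1 j j' hjj _ _⟩)
    (by
      intro j j' t u hjj
      have hadj : ∀ a, (FC (h := h) H x y W T kd δ (cx W TR TQ)).Adj (F j t)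
          (.l none (K j') (Z.e true (K j') a)) := fun a =>
        fc_adj_gk H x y W T kd δ (cx W TR TQ) m ps σ _ none (K j') (K j) _ rfl
          (hfine.adj j j' hjj)
      refine ⟨hadj _, ?_⟩
      obtain ⟨k, hk⟩ := hSF j t
      by_contra hne
      refine g4 (F j t) j' (by simp [hFdef]) (by simp [hFdef]) hadj ?_
      intro a
      have h1 : c (F j t) (.l none (K j') (Z.e true (K j') a)) =
          c (F j t) (.l none (K j') (Z.e true (K j') (phi u))) := by
        have h2 := Z.spe true (K j') k a (phi u)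
        rw [hk] at h2
        exact h2
      show c (F j t) (.l none (K j') (Z.e true (K j') a)) = !b'
      rw [h1]
      revert hne
      cases c (F j t) (.l none (K j') (Z.e true (K j') (phi u))) <;> cases b' <;> simp)
  refine ⟨e, ⟨fun j => (he j).1, fun j t t' htt => (he j).2.1 t t' htt, ?_, ?_, ?_⟩⟩
  · intro j
    have h1 := hρ2 j b'
    rw [k2 j] at h1
    exact h1
  · intro j j' hjj t t'
    rw [← k1 j j' hjj]
    exact (he j).2.2.2 j' hjj t x0 t' x0
  · intro j ν t t'
    exact heS j t t' ν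

end MP3240C
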