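import Pool.Agent.Lib.MP_3240be_co.C4.Defs
import Pool.Agent.Lib.MP_3240be_co.N49.Crn

/-!
# MP_3240be_co, Theorem C4, row CRC (the final form)
-/

set_option autoImplicit false

namespace MP3240C

open Finset MP3240T MP3240W
open MP3240N (Sig NoCut)
open MP3240M (MData)

theorem crc_proof (h : MncStatement) (hC : ClcStatement) (hT : TwoStatement) : CrcStatement := by
  classical
  intro n n' H H' h3 hcut hc3 hH' hemb hnemb
  have hconn := MP3240N.connected_of_noCut h3 hcut
  have htwo := hT n H h3 hconn hcut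
  -- the chromatic number
  have hk : ∃ k : ℕ, H.Colorable k :=
    ⟨n, ⟨SimpleGraph.Coloring.mk (fun x => x) (fun hij => hij.ne)⟩⟩
  have hk1 := Nat.find_spec hk
  have hk2 : 4 ≤ Nat.find hk := by
    by_contra hcon
    push Not at hcon
    exact hc3 (hk1.mono (by omega))
  obtain ⟨p, hp⟩ : ∃ p, Nat.find hk = p + 2 := ⟨Nat.find hk - 2, by omega⟩
  rw [hp] at hk1
  have hp2 : 2 ≤ p := by omega
  have hnc : ¬ H.Colorable (p + 1) := fun hcol => by
    have := Nat.find_min' hk hcol
    omega
  -- a smallest colour class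
  have hex : ∃ m : ℕ, ∃ (κ : Fin n → Fin (p + 2)) (a : Fin (p + 2)),
      (∀ i j, H.Adj i j → κ i ≠ κ j) ∧ (univ.filter (fun x => κ x = a)).card = m := by
    obtain ⟨C⟩ := hk1
    exact ⟨_, C, 0, fun i j hij => C.valid hij, rfl⟩
  obtain ⟨κ, a, hκ, hm⟩ := Nat.find_spec hex
  have hmin : ∀ κ' : Fin n → Fin (p + 2), (∀ i j, H.Adj i j → κ' i ≠ κ' j) → ∀ a',
      (univ.filter (fun x => κ x = a)).card ≤ (univ.filter (fun x => κ' x = a')).card := by
    intro κ' h' a'
    rw [hm]
    exact Nat.find_min' hex ⟨κ', a', h', rfl⟩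
  -- it is not empty
  have hne : ∃ α, κ α = a := by
    by_contra hcon
    push Not at hcon
    have h4 : ∀ x, ∃ y : Fin (p + 1), a.succAbove y = κ x :=
      fun x => Fin.exists_succAbove_eq (hcon x)
    choose y hy using h4
    apply hnc
    refine ⟨SimpleGraph.Coloring.mk y ?_⟩
    intro i j hij heq
    apply hκ i j hij
    rw [← hy i, ← hy j, heq]
  obtain ⟨α, hα⟩ := hne
  subst hα
  obtain ⟨x, y, hxy, hfree⟩ := hC n p H (by omega) htwo hconn hnc
  have hpos : 0 < (univ.filter (fun x => κ x = κ α)).card := card_pos.mpr ⟨α, by simp⟩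
  obtain ⟨g, hg⟩ : ∃ g, (univ.filter (fun x => κ x = κ α)).card = g + 1 :=
    ⟨(univ.filter (fun x => κ x = κ α)).card - 1, by omega⟩
  set τ : Fin (p + 1 + 1) ≃ Option (Fin (p + 1)) := finSuccEquiv' (κ α) with hτ
  have hτα : τ (κ α) = none := by rw [hτ]; exact finSuccEquiv'_at _
  have hcl : ∀ x, τ (κ x) = none ↔ κ x = κ α := by
    intro x
    rw [← hτα]
    exact τ.apply_eq_iff_eq
  have D : MData H (p + 1) g :=
    { κ := fun x => τ (κ x)
      prop := fun i j hij heq => hκ i j hij (τ.injective heq)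
      cardA := by
        rw [← hg]
        congr 1
        ext x
        simp only [mem_filter, mem_univ, true_and]
        exact hcl x }
  have hsig : Sig H (p + 1) g := by
    intro κ' hκ'
    have h4 := hmin (fun x => τ.symm (κ' x)) (fun i j hij heq => hκ' i j hij
      (τ.symm.injective heq)) (κ α)
    have h5 : (univ.filter (fun x => τ.symm (κ' x) = κ α))
        = univ.filter (fun x => κ' x = none) := by
      ext x
      simp only [mem_filter, mem_univ, true_and]
      rw [← hτα]
      exact τ.symm_apply_eq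
    rw [h5, hg] at h4
    omega
  exact h n n' p g H H' x y D hp2 hxy hfree hsig hconn htwo hH' hemb hnemb

end MP3240C
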