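import Pool.Agent.Lib.MP_3240be_co.C4.Defs

/-!
# MP_3240be_co, Theorem C4, row CRI: minimal bad sets lie in one blob
-/

set_option autoImplicit false

namespace MP3240C

open Finset MP3240T MP3240W MP3240W.Bvh
open MP3240M (twAdj)

namespace Cri

/-- Two different colours can be mapped to two given different colours. -/
theorem perm_two {k : ℕ} {a b c d : Fin k} (hab : a ≠ b) (hcd : c ≠ d) :
    ∃ π : Equiv.Perm (Fin k), π a = c ∧ π b = d := by
  have h1 : Equiv.swap a c b ≠ c := by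
    intro h
    have h2 : Equiv.swap a c a = c := Equiv.swap_apply_left _ _
    exact hab ((Equiv.swap a c).injective (h2.trans h.symm))
  refine ⟨(Equiv.swap a c).trans (Equiv.swap (Equiv.swap a c b) d), ?_, ?_⟩
  · rw [Equiv.trans_apply, Equiv.swap_apply_left]
    exact Equiv.swap_apply_of_ne_of_ne h1.symm hcd
  · rw [Equiv.trans_apply, Equiv.swap_apply_left]

/-- A bad set with the least number of vertices has no isolated vertex. -/
theorem MinBad.nbr {n r : ℕ} {H : SimpleGraph (Fin n)} {S : Finset (Fin n)} (hS : MinBad H r S)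
    {u : Fin n} (hu : u ∈ S) : ∃ v ∈ S, H.Adj u v := by
  classical
  by_contra hcon
  push Not at hcon
  have h1 : ¬ BadS H r (S.erase u) := by
    intro h
    have h2 := hS.2 _ h
    have h3 := card_erase_lt_of_mem hu
    omega
  unfold BadS at h1
  push Not at h1
  obtain ⟨κ, hκ⟩ := h1
  refine hS.1 ⟨κ, ?_⟩
  intro a ha b hb hab
  have hau : a ≠ u := by
    rintro rfl
    exact hcon b hb hab
  have hbu : b ≠ u := by
    rintro rfl
    exact hcon a ha hab.symm
  exact hκ a (mem_erase.2 ⟨hau, ha⟩) b (mem_erase.2 ⟨hbu, hb⟩) hab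

variable {n p N : ℕ} {H : SimpleGraph (Fin n)} {x y : Fin n} {C : Type}
  {R : C → C → Prop} {A : C → Prop} {F : Fin n → GC n N C}

/-- The position of the image of `u` in the blobs of `v v'`. -/
def pos (x y : Fin n) (F : Fin n → GC n N C) (v : Fin n) (u : Fin n) : Fin n :=
  match F u with
  | .inl (.inr t) => t.2.2.2
  | .inl (.inl w) => if w = v then x else y
  | .inr _ => x

theorem pos_slot {v u : Fin n} {t : Slot n N} (h : F u = .inl (.inr t)) :
    pos x y F v u = t.2.2.2 := by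
  simp only [pos, h]

theorem pos_one {v u : Fin n} (h : F u = .inl (.inl v)) : pos x y F v u = x := by
  simp only [pos, h, if_true]

theorem pos_two {v v' u : Fin n} (hv : v' ≠ v) (h : F u = .inl (.inl v')) :
    pos x y F v u = y := by
  simp only [pos, h]
  rw [if_neg hv]

/-- The image of `u` lies in the blobs of `v v'` with `φ ν = a`, or is a root of them. -/
def InCl {Φ : Type} (H : SimpleGraph (Fin n)) (F : Fin n → GC n N C) (φ : Fin N → Φ)
    (v v' : Fin n) (a : Φ) (u : Fin n) : Prop :=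
  (∃ t, F u = .inl (.inr t) ∧ t.1 = v ∧ t.2.1 = v' ∧ φ t.2.2.1 = a) ∨
    ((F u = .inl (.inl v) ∨ F u = .inl (.inl v')) ∧ H.Adj v v')

open Classical in
/-- The positions of the elements of `F(S)` in these blobs. -/
noncomputable def PP {Φ : Type} (H : SimpleGraph (Fin n)) (x y : Fin n) (F : Fin n → GC n N C)
    (S : Finset (Fin n)) (φ : Fin N → Φ) (v v' : Fin n) (a : Φ) : Finset (Fin n) :=
  (S.filter (InCl H F φ v v' a)).image (pos x y F v)

open Classical in
/-- The free vertices in `F(S)`. -/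
noncomputable def VV (F : Fin n → GC n N C) (S : Finset (Fin n)) : Finset (Fin n) :=
  univ.filter (fun v => ∃ u ∈ S, F u = .inl (.inl v))

theorem mem_PP {Φ : Type} {S : Finset (Fin n)} {φ : Fin N → Φ} {v v' : Fin n} {a : Φ}
    {u w : Fin n} (hu : u ∈ S) (h : InCl H F φ v v' a u) (hw : pos x y F v u = w) :
    w ∈ PP H x y F S φ v v' a := by
  classical
  exact mem_image.2 ⟨u, mem_filter.2 ⟨hu, h⟩, hw⟩

/-- The colouring. -/
theorem col {Φ : Type} (hxy : H.Adj x y) (hC : CxB R A n p)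
    (hadj : ∀ i j, H.Adj i j → cg H x y R A (F i) (F j)) (S : Finset (Fin n)) (φ : Fin N → Φ)
    (a₀ : Φ) (hφ : (∀ ν, φ ν = a₀) ∨ ∀ u ∈ S, ∀ c, F u ≠ .inr c)
    (hP : ∀ v v' a, ¬ BadS H (p + 1) (PP H x y F S φ v v' a))
    (hV : ¬ BadS H (p + 1) (VV F S)) : ¬ BadS H (p + 1) S := by
  classical
  unfold BadS at hP hV
  push Not at hP hV
  choose κP hκP using hP
  obtain ⟨κz, hκz⟩ := hV
  have hπ : ∀ v v' a, ∃ π : Equiv.Perm (Fin (p + 1)), H.Adj v v' →
      (v ∈ VV F S → π (κP v v' a x) = κz v) ∧ (v' ∈ VV F S → π (κP v v' a y) = κz v') := by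
    intro v v' a
    by_cases hvv : H.Adj v v'
    · by_cases hv : v ∈ VV F S
      · by_cases hv' : v' ∈ VV F S
        · obtain ⟨u, hu, hFu⟩ := (mem_filter.1 hv).2
          obtain ⟨u', hu', hFu'⟩ := (mem_filter.1 hv').2
          have h1 := hκP v v' a x (mem_PP hu (Or.inr ⟨Or.inl hFu, hvv⟩) (pos_one hFu)) y
            (mem_PP hu' (Or.inr ⟨Or.inr hFu', hvv⟩) (pos_two hvv.ne' hFu')) hxy
          have h2 := hκz v hv v' hv' hvv
          obtain ⟨π, h3, h4⟩ := perm_two h1 h2
          exact ⟨π, fun _ => ⟨fun _ => h3, fun _ => h4⟩⟩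
        · exact ⟨Equiv.swap (κP v v' a x) (κz v), fun _ => ⟨fun _ => Equiv.swap_apply_left _ _,
            fun h => absurd h hv'⟩⟩
      · exact ⟨Equiv.swap (κP v v' a y) (κz v'), fun _ => ⟨fun h => absurd h hv,
          fun _ => Equiv.swap_apply_left _ _⟩⟩
    · exact ⟨Equiv.refl _, fun h => absurd h hvv⟩
  choose π hπ using hπ
  -- the complexes
  obtain ⟨κC, hκC1, hκC2⟩ := hC (S.biUnion (fun u => Sum.elim (fun _ => ∅) (fun d => {d.2}) (F u)))
    (by
      refine card_biUnion_le.trans ?_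
      refine (sum_le_card_nsmul _ _ 1 ?_).trans ?_
      · intro u _
        rcases F u with s | d
        · simp
        · simp
      · have h1 := card_le_univ S
        rw [Fintype.card_fin] at h1
        simpa using h1)
  have hmem : ∀ u ∈ S, ∀ d, F u = .inr d →
      d.2 ∈ S.biUnion (fun u => Sum.elim (fun _ => ∅) (fun d => {d.2}) (F u)) := by
    intro u hu d hd
    refine mem_biUnion.2 ⟨u, hu, ?_⟩
    rw [hd]
    simp
  set f : GC n N C → Fin (p + 1) := fun s => match s with
    | .inl (.inl v) => κz v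
    | .inl (.inr t) => π t.1 t.2.1 (φ t.2.2.1) (κP t.1 t.2.1 (φ t.2.2.1) t.2.2.2)
    | .inr d => (finSuccEquiv' (π d.1.1 d.1.2.1 a₀ (κP d.1.1 d.1.2.1 a₀ d.1.2.2))).symm (κC d.2)
    with hf
  -- a free vertex and a slot
  have zs : ∀ a ∈ S, ∀ b ∈ S, ∀ v t, F a = .inl (.inl v) → F b = .inl (.inr t) →
      zAdj H x y v t → f (F a) ≠ f (F b) := by
    intro a ha b hb v t hFa hFb hz
    rw [hFa, hFb]
    simp only [hf]
    have hbP : t.2.2.2 ∈ PP H x y F S φ t.1 t.2.1 (φ t.2.2.1) :=
      mem_PP hb (Or.inl ⟨t, hFb, rfl, rfl, rfl⟩) (pos_slot hFb)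
    rcases hz.2.2 with ⟨h1, h2⟩ | ⟨h1, h2⟩
    · subst h1
      have hv : t.1 ∈ VV F S := mem_filter.2 ⟨mem_univ _, a, ha, hFa⟩
      rw [← (hπ t.1 t.2.1 (φ t.2.2.1) hz.1).1 hv]
      intro h
      exact hκP t.1 t.2.1 (φ t.2.2.1) x (mem_PP ha (Or.inr ⟨Or.inl hFa, hz.1⟩) (pos_one hFa)) _
        hbP h2 ((π _ _ _).injective h)
    · subst h1
      have hv : t.2.1 ∈ VV F S := mem_filter.2 ⟨mem_univ _, a, ha, hFa⟩
      rw [← (hπ t.1 t.2.1 (φ t.2.2.1) hz.1).2 hv]
      intro h
      exact hκP t.1 t.2.1 (φ t.2.2.1) y (mem_PP ha (Or.inr ⟨Or.inr hFa, hz.1⟩)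
        (pos_two hz.1.ne' hFa)) _ hbP h2 ((π _ _ _).injective h)
  -- a slot and a vertex of a complex
  have sc : ∀ a ∈ S, ∀ b ∈ S, ∀ t d, F a = .inl (.inr t) → F b = .inr d →
      twAdj H x y d.1 t ∧ A d.2 → f (F a) ≠ f (F b) := by
    intro a ha b hb t d hFa hFb hz
    rcases hφ with hφ | hφ
    · rw [hFa, hFb]
      simp only [hf]
      obtain ⟨⟨e1, e2, e3, -⟩, hA⟩ := hz
      rw [hφ, e1, e2, e3]
      intro h
      have h1 := hκC2 _ (hmem b hb d hFb) hA
      apply h1
      have h2 : (finSuccEquiv' (π d.1.1 d.1.2.1 a₀ (κP d.1.1 d.1.2.1 a₀ d.1.2.2))).symm none =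
        π d.1.1 d.1.2.1 a₀ (κP d.1.1 d.1.2.1 a₀ d.1.2.2) := finSuccEquiv'_symm_none _
      exact ((finSuccEquiv' _).symm.injective (h2.trans h)).symm
    · exact absurd hFb (hφ b hb d)
  intro hbad
  refine hbad ⟨fun u => f (F u), ?_⟩
  intro a ha b hb hab
  have e := hadj a b hab
  show f (F a) ≠ f (F b)
  rcases hFa : F a with (v | t) | d <;> rcases hFb : F b with (v' | t') | d'
  · rw [hFa, hFb] at e
    exact (e : False).elim
  · rw [← hFa, ← hFb]
    rw [hFa, hFb] at e
    exact zs a ha b hb v t' hFa hFb e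
  · rw [hFa, hFb] at e
    exact (e : False).elim
  · rw [← hFa, ← hFb]
    rw [hFa, hFb] at e
    exact (zs b hb a ha v' t hFb hFa e).symm
  · rw [hFa, hFb] at e
    have e' : blobAdj H x y t t' := e
    obtain ⟨e1, e2, e3, -, -, e4⟩ := e'
    have h1 : t.2.2.2 ∈ PP H x y F S φ t.1 t.2.1 (φ t.2.2.1) :=
      mem_PP ha (Or.inl ⟨t, hFa, rfl, rfl, rfl⟩) (pos_slot hFa)
    have h2 : t'.2.2.2 ∈ PP H x y F S φ t.1 t.2.1 (φ t.2.2.1) :=
      mem_PP hb (Or.inl ⟨t', hFb, e1.symm, e2.symm, by rw [e3]⟩) (pos_slot hFb)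
    simp only [hf]
    rw [← e1, ← e2, ← e3]
    intro h
    exact hκP _ _ _ _ h1 _ h2 e4 ((π _ _ _).injective h)
  · rw [← hFa, ← hFb]
    rw [hFa, hFb] at e
    exact sc a ha b hb t d' hFa hFb e
  · rw [hFa, hFb] at e
    exact (e : False).elim
  · rw [← hFa, ← hFb]
    rw [hFa, hFb] at e
    exact (sc b hb a ha t' d hFb hFa e).symm
  · rw [hFa, hFb] at e
    have e' : d.1 = d'.1 ∧ R d.2 d'.2 := e
    simp only [hf]
    rw [← e'.1]
    intro h
    exact hκC1 _ (hmem a ha d hFa) _ (hmem b hb d' hFb) e'.2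
      ((finSuccEquiv' _).symm.injective h)

end Cri

open Cri in
/-- Row CRI. -/
theorem cri_proof : CriStatement := by
  classical
  intro n p N H x y C R A F hp hxy _ hC hF hadj S hS
  -- the set of the free vertices is not bad
  have hV : ¬ BadS H (p + 1) (VV F S) := by
    intro hbad
    have h1 := hS.2 _ hbad
    have h2 : (VV F S).card ≤ (S.filter (fun u => ∃ v, F u = .inl (.inl v))).card := by
      have h3 : VV F S ⊆ (S.filter (fun u => ∃ v, F u = .inl (.inl v))).image
          (fun u => Sum.elim (Sum.elim id (fun _ => x)) (fun _ => x) (F u)) := by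
        intro v hv
        obtain ⟨u, hu, hFu⟩ := (mem_filter.1 hv).2
        refine mem_image.2 ⟨u, mem_filter.2 ⟨hu, v, hFu⟩, ?_⟩
        rw [hFu]
        rfl
      exact (card_le_card h3).trans card_image_le
    have h3 : S.filter (fun u => ∃ v, F u = .inl (.inl v)) = S :=
      eq_of_subset_of_card_le (filter_subset _ _) (h1.trans h2)
    refine hS.1 ⟨fun _ => 0, ?_⟩
    intro a ha b hb hab
    exfalso
    rw [← h3] at ha hb
    obtain ⟨v, hv⟩ := (mem_filter.1 ha).2
    obtain ⟨w, hw⟩ := (mem_filter.1 hb).2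
    have e := hadj a b hab
    rw [hv, hw] at e
    exact e
  -- a bad set of positions contains everything
  have big : ∀ (Φ : Type) (φ : Fin N → Φ) (v v' : Fin n) (a : Φ),
      BadS H (p + 1) (PP H x y F S φ v v' a) → ∀ u ∈ S, InCl H F φ v v' a u := by
    intro Φ φ v v' a hbad u hu
    have h1 := hS.2 _ hbad
    have h2 : (PP H x y F S φ v v' a).card ≤ (S.filter (InCl H F φ v v' a)).card := card_image_le
    have h3 : S.filter (InCl H F φ v v' a) = S :=
      eq_of_subset_of_card_le (filter_subset _ _) (h1.trans h2)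
    rw [← h3] at hu
    exact (mem_filter.1 hu).2
  -- no vertex of a complex
  have hno : ∀ u ∈ S, ∀ c, F u ≠ .inr c := by
    by_contra hcon
    push Not at hcon
    obtain ⟨u, hu, c, hc⟩ := hcon
    refine col (φ := fun _ : Fin N => ()) hxy hC hadj S () (Or.inl (fun _ => rfl)) ?_ hV hS.1
    intro v v' a hbad
    rcases big Unit _ v v' a hbad u hu with ⟨t, ht, -⟩ | ⟨h | h, -⟩
    · rw [hc] at ht
      cases ht
    · rw [hc] at h
      cases h
    · rw [hc] at h
      cases h
  -- one blob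
  obtain ⟨v, v', ν, hbad⟩ : ∃ v v' ν, BadS H (p + 1) (PP H x y F S (id : Fin N → Fin N) v v' ν) := by
    by_contra hcon
    push Not at hcon
    have hN : Nonempty (Fin N) := by
      -- otherwise there are no slots
      by_contra hN
      refine hS.1 ⟨fun _ => 0, ?_⟩
      intro a ha b hb hab
      exfalso
      have e := hadj a b hab
      rcases hFa : F a with (v | t) | d
      · rcases hFb : F b with (v' | t') | d'
        · rw [hFa, hFb] at e
          exact e
        · exact hN ⟨t'.2.2.1⟩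
        · exact hno b hb d' hFb
      · exact hN ⟨t.2.2.1⟩
      · exact hno a ha d hFa
    obtain ⟨ν₀⟩ := hN
    exact col (φ := (id : Fin N → Fin N)) hxy hC hadj S ν₀ (Or.inr hno) hcon hV hS.1
  refine ⟨(v, v', ν), ?_⟩
  intro u hu
  rcases big (Fin N) id v v' ν hbad u hu with ⟨t, ht, h1, h2, h3⟩ | h
  · refine Or.inl ⟨t, ht, ?_, ?_⟩
    · simp only [tri, h1, h2]
      rw [show t.2.2.1 = ν from h3]
    · obtain ⟨w, hw, huw⟩ := MinBad.nbr hS hu
      have e := hadj u w huw
      rw [ht] at e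
      rcases hFw : F w with (w' | t') | d
      · rw [hFw] at e
        exact (e : zAdj H x y w' t).2.1
      · rw [hFw] at e
        exact (e : blobAdj H x y t t').2.2.2.1
      · exact absurd hFw (hno w hw d)
  · exact Or.inr h

end MP3240C
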