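import Pool.Agent.Lib.MP_3240be_co.C4.Defs

/-!
# Row CTC: the edges inside a minimal bad set are 2-connected
-/

set_option autoImplicit false

namespace MP3240C

open Finset MP3240T MP3240W

theorem ctc_half {n p : ℕ} {H : SimpleGraph (Fin n)} {S : Finset (Fin n)}
    {J K K' : Finset (Sym2 (Fin n))} (hS : MinBad H (p + 1) S)
    (hJ : ∀ a b, s(a, b) ∈ J ↔ H.Adj a b ∧ a ∈ S ∧ b ∈ S) (hK' : K'.Nonempty)
    (h1 : ∀ e ∈ K, e ∈ J) (h2 : ∀ e ∈ K', e ∈ J)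
    (hc : ∀ u v, u ≠ v → Shares K K' u → ¬ Shares K K' v) :
    ∃ κ : Fin n → Fin (p + 1), ∀ a b, s(a, b) ∈ K → κ a ≠ κ b := by
  classical
  set T : Finset (Fin n) := S.filter (fun v => ∃ e ∈ K, v ∈ e) with hT
  have hlt : T.card < S.card := by
    refine Finset.card_lt_card ⟨Finset.filter_subset _ _, ?_⟩
    intro hST
    obtain ⟨e, he⟩ := hK'
    induction e using Sym2.ind with
    | _ a b =>
      have hab := (hJ a b).mp (h2 _ he)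
      have ha := hST hab.2.1
      have hb := hST hab.2.2
      rw [hT, Finset.mem_filter] at ha hb
      exact hc a b hab.1.ne ⟨ha.2, ⟨_, he, Sym2.mem_mk_left a b⟩⟩
        ⟨hb.2, ⟨_, he, Sym2.mem_mk_right a b⟩⟩
  have hnb : ¬ BadS H (p + 1) T := fun h => absurd (hS.2 T h) (by omega)
  unfold BadS at hnb
  push Not at hnb
  obtain ⟨κ, hκ⟩ := hnb
  refine ⟨κ, fun a b hab => ?_⟩
  have h3 := (hJ a b).mp (h1 _ hab)
  refine hκ a ?_ b ?_ h3.1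
  · rw [hT, Finset.mem_filter]
    exact ⟨h3.2.1, _, hab, Sym2.mem_mk_left a b⟩
  · rw [hT, Finset.mem_filter]
    exact ⟨h3.2.2, _, hab, Sym2.mem_mk_right a b⟩

theorem ctc_proof : CtcStatement := by
  intro n p H S J _ hS hJ J₁ J₂ h1 h2 _ hu
  classical
  by_contra hcon
  push Not at hcon
  have hc : ∀ u v, u ≠ v → Shares J₁ J₂ u → ¬ Shares J₁ J₂ v := hcon
  have hc' : ∀ u v, u ≠ v → Shares J₂ J₁ u → ¬ Shares J₂ J₁ v :=
    fun u v huv hu' hv' => hc u v huv ⟨hu'.2, hu'.1⟩ ⟨hv'.2, hv'.1⟩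
  obtain ⟨κ₁, hκ₁⟩ := ctc_half hS hJ h2 (fun e he => (hu e).mpr (Or.inl he))
    (fun e he => (hu e).mpr (Or.inr he)) hc
  obtain ⟨κ₂, hκ₂⟩ := ctc_half hS hJ h1 (fun e he => (hu e).mpr (Or.inr he))
    (fun e he => (hu e).mpr (Or.inl he)) hc'
  obtain ⟨σ, hσ⟩ : ∃ σ : Equiv.Perm (Fin (p + 1)), ∀ v, Shares J₁ J₂ v → σ (κ₂ v) = κ₁ v := by
    by_cases h : ∃ u, Shares J₁ J₂ u
    · obtain ⟨u, hu'⟩ := h
      refine ⟨Equiv.swap (κ₂ u) (κ₁ u), fun v hv => ?_⟩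
      have : v = u := by
        by_contra hne
        exact hc v u hne hv hu'
      rw [this, Equiv.swap_apply_left]
    · exact ⟨Equiv.refl _, fun v hv => absurd ⟨v, hv⟩ h⟩
  refine hS.1 ⟨fun v => if ∃ e ∈ J₁, v ∈ e then κ₁ v else σ (κ₂ v), fun a ha b hb hab => ?_⟩
  have h3 : s(a, b) ∈ J := (hJ a b).mpr ⟨hab, ha, hb⟩
  have h4 : ∀ v, (∃ e ∈ J₂, v ∈ e) →
      (if ∃ e ∈ J₁, v ∈ e then κ₁ v else σ (κ₂ v)) = σ (κ₂ v) := by
    intro v hv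
    by_cases h : ∃ e ∈ J₁, v ∈ e
    · rw [if_pos h, hσ v ⟨h, hv⟩]
    · rw [if_neg h]
  rcases (hu _).mp h3 with h | h
  · show (if ∃ e ∈ J₁, a ∈ e then κ₁ a else σ (κ₂ a)) ≠
      (if ∃ e ∈ J₁, b ∈ e then κ₁ b else σ (κ₂ b))
    rw [if_pos ⟨_, h, Sym2.mem_mk_left a b⟩, if_pos ⟨_, h, Sym2.mem_mk_right a b⟩]
    exact hκ₁ a b h
  · show (if ∃ e ∈ J₁, a ∈ e then κ₁ a else σ (κ₂ a)) ≠
      (if ∃ e ∈ J₁, b ∈ e then κ₁ b else σ (κ₂ b))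
    rw [h4 a ⟨_, h, Sym2.mem_mk_left a b⟩, h4 b ⟨_, h, Sym2.mem_mk_right a b⟩]
    exact fun h5 => hκ₂ a b h (σ.injective h5)

end MP3240C
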