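import Pool.Agent.Lib.MP_3240be_co.C4.Defs

/-!
# MP_3240be_co, Theorem C4: row CXG (the complex which is used is good)
-/

set_option autoImplicit false

namespace MP3240C

open Finset MP3240T MP3240W
open Pool.Agent.Lib.MP_3240be_co.H36 (LocCol Blow)

/-- Proper colourings of a family of locally colourable graphs, restricted to a small set. -/
theorem Cxg.col {A V : Type} {g p : ℕ} (G : A → SimpleGraph V) (h : ∀ a, LocCol (G a) g p)
    {C : Type} (ι : A × V → C) (hι : Function.Injective ι) (Y : Finset C) (hY : Y.card ≤ g) :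
    ∃ f : A → V → ℕ, (∀ a v, f a v < p) ∧
      ∀ a v w, ι (a, v) ∈ Y → ι (a, w) ∈ Y → (G a).Adj v w → f a v ≠ f a w := by
  classical
  have hinj : ∀ a : A, Function.Injective (fun v => ι (a, v)) := by
    intro a v w hvw
    exact (Prod.mk.inj (hι hvw)).2
  have h1 : ∀ a, ∃ f : V → ℕ, (∀ v, f v < p) ∧ ∀ v ∈ Y.preimage (fun v => ι (a, v))
      ((hinj a).injOn), ∀ w ∈ Y.preimage (fun v => ι (a, v)) ((hinj a).injOn),
        (G a).Adj v w → f v ≠ f w := by
    intro a
    refine h a _ (le_trans ?_ hY)
    exact Finset.card_le_card_of_injOn (fun v => ι (a, v))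
      (fun v hv => by
        have h2 : v ∈ Y.preimage (fun v => ι (a, v)) ((hinj a).injOn) := Finset.mem_coe.mp hv
        exact Finset.mem_coe.mpr ((Finset.mem_preimage (f := fun v => ι (a, v))).mp h2))
      ((hinj a).injOn)
  choose f hf1 hf2 using h1
  exact ⟨f, hf1, fun a v w hv hw =>
    hf2 a v ((Finset.mem_preimage (f := fun v => ι (a, v))).mpr hv) w
      ((Finset.mem_preimage (f := fun v => ι (a, v))).mpr hw)⟩

/-- Row CXG. -/
theorem cxg_proof : CxgStatement := by
  intro n p q LR LQ W TR TQ hR hQ
  classical
  refine ⟨?_, ?_, ?_, ?_, ?_, ?_⟩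
  · -- sym
    rintro (s | s) (s' | s') h
    · exact h.symm
    · exact h.elim
    · exact h.elim
    · exact Ne.symm h
  · -- an
    rintro (s | s) h
    · rfl
    · exact h.elim
  · -- kk
    rintro (s | s) (s' | s') i j hi hj hG hr
    · cases hi
    · cases hi
    · cases hj
    · have hi' : s.1 = i := Option.some.inj hi
      have hj' : s'.1 = j := Option.some.inj hj
      have hne : s.1 ≠ s'.1 := hr
      subst hi' hj'
      rcases (SimpleGraph.fromRel_adj _ _ _).mp hG with ⟨-, h | h⟩
      · rcases h with h | h
        · exact h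
        · exact absurd h.1 hne
      · rcases h with h | h
        · exact h.symm
        · exact absurd h.1.symm hne
  · -- kn
    rintro (s | s) (s' | s') i hi hj hG hr
    · cases hi
    · cases hi
    · exact hr
    · cases hj
  · -- rc
    intro Y hY
    obtain ⟨f, hf1, hf2⟩ := Cxg.col TR hR
      (fun s => (Sum.inl s : CV p q LR LQ)) Sum.inl_injective Y hY
    refine ⟨fun a => Sum.elim (fun s => (⟨f s.1 s.2, hf1 _ _⟩ : Fin (p + 1))) (fun _ => 0) a, ?_⟩
    rintro (s | s) ha (s' | s') hb hka hkb hG hr
    · have hs : s.1 = s'.1 := hr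
      obtain ⟨j, v⟩ := s
      obtain ⟨j', w⟩ := s'
      simp only at hs
      subst hs
      intro he
      have he' : f j v = f j w := congrArg Fin.val he
      rcases (SimpleGraph.fromRel_adj _ _ _).mp hG with ⟨-, h | h⟩
      · rcases h with h | h
        · exact h rfl
        · exact hf2 j v w ha hb h he'
      · rcases h with h | h
        · exact h rfl
        · exact hf2 j w v hb ha h he'.symm
    · cases hkb
    · cases hka
    · cases hka
  · -- bc
    intro Y hY
    obtain ⟨f, hf1, hf2⟩ := Cxg.col TQ hQ
      (fun s => (Sum.inr s : CV p q LR LQ)) Sum.inr_injective Y hY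
    refine ⟨fun a => Sum.elim (fun s => s.1)
      (fun s => some (⟨f s.1 s.2, hf1 _ _⟩ : Fin p)) a, ?_, ?_⟩
    · rintro (s | s) ha (s' | s') hb ⟨hG, hr⟩
      · exact hr
      · rcases (SimpleGraph.fromRel_adj _ _ _).mp hG with ⟨-, h | h⟩
        · have h' : s.1 = none := h
          simp [h']
        · exact h.elim
      · rcases (SimpleGraph.fromRel_adj _ _ _).mp hG with ⟨-, h | h⟩
        · exact h.elim
        · have h' : s'.1 = none := h
          simp [h']
      · have hs : s.1 = s'.1 := not_not.mp hr
        obtain ⟨j, v⟩ := s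
        obtain ⟨j', w⟩ := s'
        simp only at hs
        subst hs
        intro he
        have he' : f j v = f j w := congrArg Fin.val (Option.some.inj he)
        rcases (SimpleGraph.fromRel_adj _ _ _).mp hG with ⟨-, h | h⟩
        · rcases h with h | h
          · exact W.irrefl h
          · exact hf2 j v w ha hb h.2 he'
        · rcases h with h | h
          · exact W.irrefl h
          · exact hf2 j w v hb ha h.2 he'.symm
    · rintro (s | s) ha hatt
      · exact hatt
      · exact hatt.elim

end MP3240C
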