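import Pool.Agent.Lib.MP_3240be_co.M3.Defs

/-!
# MP_3240be_co: all 2-connected graphs of chromatic number at least 4 (Theorem C4)

Definitions and statements of the rows (board c4_modules, chair helper14).  Paper: finding 4625.
The host is the host of Theorem N (N49/Defs.lean) together with a complex for every gadget
`(m, ps)` and every slot type `σ`.

Notation: `p + 2 = χ(H)`, `p ≥ 2`, `r = p + 1`; `h + 1` is the least size of a colour class.
-/

set_option autoImplicit false

namespace MP3240C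

open Finset MP3240T MP3240W
open MP3240N (Sig BigC CopyB Homog SP plc QN NoCut)
open MP3240M (MData twAdj)
open Pool.Agent.Lib.MP_3240be_co.H36 (LocCol Blow)
open Pool.Agent.Lib.MP_3240be_co.H36.Chrom (Sparse)

/-- The type of a slot: the edge `v v'` and the inner vertex. -/
abbrev Ty (n : ℕ) : Type := Fin n × Fin n × Fin n

/-! ## The closure lemma (part (A) of the paper) -/

/-- Every set of at most `n` vertices has a proper colouring with the colours `none`, `some i`,
`i : Fin p`, in which the attached vertices do not have the colour `none`. -/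
def CxB {C : Type} (R : C → C → Prop) (A : C → Prop) (n p : ℕ) : Prop :=
  ∀ Y : Finset C, Y.card ≤ n → ∃ κ : C → Option (Fin p),
    (∀ a ∈ Y, ∀ b ∈ Y, R a b → κ a ≠ κ b) ∧ ∀ a ∈ Y, A a → κ a ≠ none

/-- The vertices of a gadget with complexes: free vertices, slots, complexes of all types. -/
abbrev GC (n N : ℕ) (C : Type) : Type := (Fin n ⊕ Slot n N) ⊕ (Ty n × C)

/-- The gadget with complexes (without the edges between free vertices). -/
def cg {n N : ℕ} {C : Type} (H : SimpleGraph (Fin n)) (x y : Fin n) (R : C → C → Prop)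
    (A : C → Prop) : GC n N C → GC n N C → Prop
  | .inl s, .inl s' => Bvh.gg H x y s s'
  | .inl (.inr t), .inr c => twAdj H x y c.1 t ∧ A c.2
  | .inr c, .inl (.inr t) => twAdj H x y c.1 t ∧ A c.2
  | .inr c, .inr c' => c.1 = c'.1 ∧ R c.2 c'.2
  | _, _ => False

/-- No gadget with complexes for the edge `x y` contains `H`. -/
def CxFree {n : ℕ} (H : SimpleGraph (Fin n)) (p : ℕ) (x y : Fin n) : Prop :=
  ∀ (N : ℕ) (C : Type) (R : C → C → Prop) (A : C → Prop), (∀ a b, R a b → R b a) →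
    CxB R A n p → ∀ F : Fin n → GC n N C, Function.Injective F →
    (∀ i j, H.Adj i j → cg H x y R A (F i) (F j)) → False

/-- `H[S]` has no proper colouring with `r` colours. -/
def BadS {n : ℕ} (H : SimpleGraph (Fin n)) (r : ℕ) (S : Finset (Fin n)) : Prop :=
  ¬ ∃ κ : Fin n → Fin r, ∀ a ∈ S, ∀ b ∈ S, H.Adj a b → κ a ≠ κ b

/-- A bad set with the least number of vertices. -/
def MinBad {n : ℕ} (H : SimpleGraph (Fin n)) (r : ℕ) (S : Finset (Fin n)) : Prop :=
  BadS H r S ∧ ∀ S', BadS H r S' → S.card ≤ S'.card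

/-- Row CRI: the image of a minimal bad set lies in one blob and its roots.  Proof: for
`φ : Fin N → Φ` (first `Φ = Unit`, then `φ = id`) let `P v v' a` be the set of the positions of the
elements of `F(S)` in the blobs `(v, v', ν)`, `φ ν = a` (`x` if `z v` is in `F(S)`, `y` if `z v'`
is).  If no `P v v' a` is bad and the set `V` of the `v` with `z v` in `F(S)` is not bad, colour
`z v` by a proper colouring of `H[V]`, the slots by proper colourings of the `H[P v v' a]`,
permuted such that they agree at `x`, `y`; all slots of one type in `φ ν = a` have the same colour;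
colour the complexes by `CxB` (`none` = the colour of the slots): `S` is not bad.  A bad `V`
means that `S` consists of free vertices.  A bad `P v v' a` has at least `S.card` elements, so all
of `F(S)` is in these blobs and roots, in particular no vertex is in a complex. -/
def CriStatement : Prop :=
  ∀ (n p N : ℕ) (H : SimpleGraph (Fin n)) (x y : Fin n) (C : Type) (R : C → C → Prop)
    (A : C → Prop) (F : Fin n → GC n N C), 1 ≤ p → H.Adj x y → (∀ a b, R a b → R b a) →
    CxB R A n p → Function.Injective F → (∀ i j, H.Adj i j → cg H x y R A (F i) (F j)) →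
    ∀ S, MinBad H (p + 1) S → ∃ β : Fin n × Fin n × Fin N, ∀ u ∈ S,
      (∃ t, F u = .inl (.inr t) ∧ Bvh.tri t = β ∧ inner x y t) ∨
        ((F u = .inl (.inl β.1) ∨ F u = .inl (.inl β.2.1)) ∧ H.Adj β.1 β.2.1)

/-- Row CTC: the edges inside a minimal bad set are a 2-connected set of edges.  Proof: if `J`,
`J'` share at most one vertex, both miss a vertex of `S` (every vertex of `S` is on an edge inside
`S`), so both are properly colourable; permute the colours such that they agree at the common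
vertex. -/
def CtcStatement : Prop :=
  ∀ (n p : ℕ) (H : SimpleGraph (Fin n)) (S : Finset (Fin n)) (J : Finset (Sym2 (Fin n))),
    1 ≤ p → MinBad H (p + 1) S → (∀ a b, s(a, b) ∈ J ↔ H.Adj a b ∧ a ∈ S ∧ b ∈ S) → TwoC J

/-- Row CLC: the closure lemma.  Proof: port of M64/Trb.lean and M64/Clo.lean; instead of edges of
triangles: edges inside minimal bad sets; CRI, CTC. -/
def ClcStatement : Prop :=
  ∀ (n p : ℕ) (H : SimpleGraph (Fin n)), 1 ≤ p → TwoC (ed H) → H.Connected →
    ¬ H.Colorable (p + 1) → ∃ x y, H.Adj x y ∧ CxFree H p x y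

/-! ## Complexes -/

/-- A complex: its graph, the red edges of the good colouring, the attached vertices (joined to the
slots), the vertices of kind `w` (joined to all lows of the kinds adjacent to `w`). -/
structure Cx (q : ℕ) (C : Type) where
  G : SimpleGraph C
  red : C → C → Prop
  att : C → Prop
  kd : C → Option (Fin q)

/-- The properties of complexes used for the good colouring. -/
structure CxGood {q : ℕ} {C : Type} (X : Cx q C) (W : SimpleGraph (Fin q)) (n p : ℕ) : Prop where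
  sym : ∀ a b, X.red a b → X.red b a
  an : ∀ a, X.att a → X.kd a = none
  kk : ∀ a b i j, X.kd a = some i → X.kd b = some j → X.G.Adj a b → X.red a b → W.Adj i j
  kn : ∀ a b i, X.kd a = some i → X.kd b = none → X.G.Adj a b → ¬ X.red a b
  rc : ∀ Y : Finset C, Y.card ≤ n → ∃ κ : C → Fin (p + 1), ∀ a ∈ Y, ∀ b ∈ Y, X.kd a = none →
    X.kd b = none → X.G.Adj a b → X.red a b → κ a ≠ κ b
  bc : CxB (fun a b => X.G.Adj a b ∧ ¬ X.red a b) X.att n p

/-- The vertices of the complexes which are used: the windows `j : Option (Fin p)` (`none` = the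
window `*` of the paper) and the special worlds `a : Fin q`. -/
abbrev CV (p q LR LQ : ℕ) : Type := (Option (Fin p) × Fin LR) ⊕ (Fin q × Fin LQ)

/-- The edges of the complex, in one direction. -/
def cxRel {p q LR LQ : ℕ} (W : SimpleGraph (Fin q)) (TR : Option (Fin p) → SimpleGraph (Fin LR))
    (TQ : Fin q → SimpleGraph (Fin LQ)) : CV p q LR LQ → CV p q LR LQ → Prop
  | .inl s, .inl s' => s.1 ≠ s'.1 ∨ (TR s.1).Adj s.2 s'.2
  | .inl s, .inr _ => s.1 = none
  | .inr s, .inr s' => W.Adj s.1 s'.1 ∨ (s.1 = s'.1 ∧ (TQ s.1).Adj s.2 s'.2)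
  | _, _ => False

/-- The complex. -/
def cx {p q LR LQ : ℕ} (W : SimpleGraph (Fin q)) (TR : Option (Fin p) → SimpleGraph (Fin LR))
    (TQ : Fin q → SimpleGraph (Fin LQ)) : Cx q (CV p q LR LQ) where
  G := SimpleGraph.fromRel (cxRel W TR TQ)
  red := fun a b => match a, b with
    | .inl s, .inl s' => s.1 = s'.1
    | .inr s, .inr s' => s.1 ≠ s'.1
    | _, _ => False
  att := fun a => match a with
    | .inl s => s.1 ≠ none
    | .inr _ => False
  kd := fun a => match a with
    | .inl _ => none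
    | .inr s => some s.1

/-- Row CXG. -/
def CxgStatement : Prop :=
  ∀ (n p q LR LQ : ℕ) (W : SimpleGraph (Fin q)) (TR : Option (Fin p) → SimpleGraph (Fin LR))
    (TQ : Fin q → SimpleGraph (Fin LQ)), (∀ j, LocCol (TR j) n (p + 1)) →
    (∀ a, LocCol (TQ a) n p) → CxGood (cx W TR TQ) W n p

/-- Homogeneous copies of `B` in the `T a`. -/
def HomC {b L : ℕ} (B : SimpleGraph (Fin b)) (Γ K : Type) (T : Γ → SimpleGraph (Fin L)) : Prop :=
  ∀ (ψ : Γ → Fin L → K) (χ : Γ → Fin L → Γ → Fin L → Bool), ∃ e : Γ → Fin b → Fin L, ∀ a,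
    Function.Injective (e a) ∧ (∀ x y, B.Adj x y → (T a).Adj (e a x) (e a y)) ∧
    (∀ x y, ψ a (e a x) = ψ a (e a y)) ∧
    ∀ a', a ≠ a' → ∀ x y x' y', χ a (e a x) a' (e a' x') = χ a (e a y) a' (e a' y')

/-- Row HMC.  Proof: GRP (`grp_proof` of N49/Grp.lean) with `Q = K₀ = Unit`. -/
def HmcStatement : Prop :=
  ∀ (b g p : ℕ) (B : SimpleGraph (Fin b)), 2 ≤ p → LocCol B (2 * g ^ 2) p →
    ∀ (Γ K : Type) [Finite Γ] [Finite K] [Nonempty K], ∃ (L : ℕ) (T : Γ → SimpleGraph (Fin L)),
      (∀ a, LocCol (T a) g p) ∧ HomC B Γ K T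

/-! ## Rows without the host -/

/-- Row KWM (`KewStatement` of N49 for `MData`).  Proof: copy N49/Kew.lean. -/
def KwmStatement : Prop :=
  ∀ (n r h b₀ : ℕ) (H : SimpleGraph (Fin n)) (_ : MData H r h) (B : SimpleGraph (Fin b₀))
    (V : Type) (G : SimpleGraph V) (c : V → V → Bool) (E : Fin r → Fin b₀ → V)
    (η : Fin r → Fin r → Bool) (ρ : Fin r → Bool → ℕ), 2 ≤ r → (∀ x y, c x y = c y x) →
    (∀ b, ¬ Emb H (cls G c b)) →
    (∀ j, Function.Injective (E j)) → (∀ j j' x y, j ≠ j' → G.Adj (E j x) (E j' y)) →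
    (∀ j j' x y, j ≠ j' → c (E j x) (E j' y) = η j j') →
    (∀ j x y, B.Adj x y → G.Adj (E j x) (E j y)) →
    (∀ j b, Blow B (fun x y => c (E j x) (E j y)) n (ρ j b) b) →
    (∀ j, r + 1 ≤ ρ j true + ρ j false) →
    ∃ b, (∀ j j', j ≠ j' → η j j' = b) ∧ ∀ j, ρ j b = 1 ∧ ρ j (!b) = r

/-- Row LNK ((F1) and (F2) of the paper).  Windows `E`, copies `F` in the special worlds of the
kinds `K j`, generic lows `P` of the kinds `K j` (main colour `b`).  Proof: KWM for the windows
(`Option (Fin p)` has `p + 1` elements): the cross colour is a constant `b'`, `ρ j b' = 1`,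
`ρ j (!b') = p + 1`.  Suppose `b' = b`.  (i) `ρF j b ≤ 1`: two parts in `F j` and the `P j'`,
`j' ≠ j`, are `p + 2` parts in colour `b`; so `p ≤ ρF j (!b)`.  (ii) `ηF j j' = b`, otherwise
`2 p ≥ p + 2` parts in colour `!b`.  (iii) `ζ j = b`, otherwise `p + 1 + p` parts.  (iv) `n`
vertices of `E none` and of every `F j` are `p + 2` parts in colour `b`. -/
def LnkStatement : Prop :=
  ∀ (n p h b₀ b₁ : ℕ) (H : SimpleGraph (Fin n)) (_ : MData H (p + 1) h)
    (B : SimpleGraph (Fin b₀)) (B₁ : SimpleGraph (Fin b₁)) (V : Type) (G : SimpleGraph V)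
    (c : V → V → Bool) (b : Bool) (E : Option (Fin p) → Fin b₀ → V)
    (η : Option (Fin p) → Option (Fin p) → Bool) (ρ : Option (Fin p) → Bool → ℕ)
    (F : Fin (p + 1) → Fin b₁ → V) (ηF : Fin (p + 1) → Fin (p + 1) → Bool)
    (ρF : Fin (p + 1) → Bool → ℕ) (ζ : Fin (p + 1) → Bool) (P : Fin (p + 1) → Fin n → V),
    2 ≤ p → (∀ x y, c x y = c y x) → (∀ b, ¬ Emb H (cls G c b)) →
    (∀ j, Function.Injective (E j)) → (∀ j j' x y, j ≠ j' → G.Adj (E j x) (E j' y)) →
    (∀ j j' x y, j ≠ j' → c (E j x) (E j' y) = η j j') →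
    (∀ j x y, B.Adj x y → G.Adj (E j x) (E j y)) →
    (∀ j b, Blow B (fun x y => c (E j x) (E j y)) n (ρ j b) b) →
    (∀ j, p + 2 ≤ ρ j true + ρ j false) →
    (∀ j, Function.Injective (F j)) → (∀ j j' x y, j ≠ j' → G.Adj (F j x) (F j' y)) →
    (∀ j j' x y, j ≠ j' → c (F j x) (F j' y) = ηF j j') →
    (∀ j x y, B₁.Adj x y → G.Adj (F j x) (F j y)) →
    (∀ j b, Blow B₁ (fun x y => c (F j x) (F j y)) n (ρF j b) b) →
    (∀ j, p + 1 ≤ ρF j true + ρF j false) →
    (∀ j x y, G.Adj (E none x) (F j y)) → (∀ j x y, c (E none x) (F j y) = ζ j) →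
    (∀ j, Function.Injective (P j)) →
    (∀ j j' x y, j ≠ j' → G.Adj (P j x) (P j' y) ∧ c (P j x) (P j' y) = b) →
    (∀ j j' x y, j ≠ j' → G.Adj (F j x) (P j' y) ∧ c (F j x) (P j' y) = b) →
    (∀ j j', j ≠ j' → η j j' = !b) ∧ ∀ j, ρ j b = p + 1

/-- A Ramsey number: `g` colours the points, `f j` colours the points of the copy number `j`,
`η j j'` the pairs between the copies `j` and `j'`. -/
def RamR (n N r : ℕ) (K₁ K : Type) : Prop :=
  ∀ (g : Fin N → K₁) (f : Fin r → Fin N → K) (η : Fin r → Fin r → Fin N → Fin N → Bool),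
    ∃ (e : Fin r → Fin n → Fin N) (k₁ : K₁) (k : Fin r → K) (β : Fin r → Fin r → Bool),
      (∀ j, Function.Injective (e j)) ∧ (∀ j a, g (e j a) = k₁) ∧ (∀ j a, f j (e j a) = k j) ∧
        ∀ j j', j ≠ j' → ∀ a a', η j j' (e j a) (e j' a') = β j j'

/-- Row RAR.  Proof: pigeon hole for `g`, for `f 0`, `f 1`, ..., then the bipartite Ramsey theorem
for all pairs `j`, `j'` (one after the other; `η j j'` and `η j' j` are different colourings). -/
def RarStatement : Prop :=
  ∀ (n r : ℕ) (K₁ K : Type) [Finite K₁] [Finite K], ∃ N, 1 ≤ N ∧ RamR n N r K₁ K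

/-! ## The host -/

/-- The vertices of the host: `u`, `c`, `l`, `z` as in N49; `g m ps σ a` = the vertex `a` of the
complex of type `σ` of the gadget `(m, ps)`. -/
inductive VC (n h q L : ℕ) (I M C : Type) : Type
  | u : Fin h → VC n h q L I M C
  | c : Option I → Fin q → Fin h → VC n h q L I M C
  | l : Option I → Fin q → Fin L → VC n h q L I M C
  | z : M → (Fin q → Fin L) → Fin n → VC n h q L I M C
  | g : M → (Fin q → Fin L) → Ty n → C → VC n h q L I M C

/-- The low in a slot of the gadget `(m, ps)`. -/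
def lowC {n h N q L : ℕ} {I M C : Type} (kd : Fin N → Fin q) (δ : M → SP n N q L → I) (m : M)
    (t : Slot n N) (ps : Fin q → Fin L) : VC n h q L I M C :=
  .l (some (δ m (t, ps))) (kd t.2.2.1) (ps (kd t.2.2.1))

/-- The edges of the host, in one direction. `T (true, w)`: the pool. -/
def relC {n h N q L : ℕ} {I M C : Type} (H : SimpleGraph (Fin n)) (x y : Fin n)
    (W : SimpleGraph (Fin q)) (T : Bool × Fin q → SimpleGraph (Fin L)) (kd : Fin N → Fin q)
    (δ : M → SP n N q L → I) (X : Cx q C) :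
    VC n h q L I M C → VC n h q L I M C → Prop
  | .u _, .l _ _ _ => True
  | .c i w _, .l i' w' _ => (i = i' ∧ w = w') ∨ W.Adj w w'
  | .l i w t, .l i' w' t' => W.Adj w w' ∨ (i = i' ∧ w = w' ∧ (T (i.isNone, w)).Adj t t') ∨
      ∃ m ps s s', VC.l i w t = lowC (h := h) (C := C) kd δ m s ps ∧
        VC.l i' w' t' = lowC (h := h) (C := C) kd δ m s' ps ∧ blobAdj H x y s s'
  | .z m ps v, .l i w t => ∃ s, VC.l i w t = lowC (h := h) (C := C) kd δ m s ps ∧ zAdj H x y v s
  | .z m ps v, .z m' ps' v' => m = m' ∧ ps = ps' ∧ H.Adj v v'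
  | .g m ps σ a, .l i w t =>
      (X.att a ∧ ∃ s, VC.l i w t = lowC (h := h) (C := C) kd δ m s ps ∧ twAdj H x y σ s) ∨
      ∃ w', X.kd a = some w' ∧ W.Adj w' w
  | .g m ps σ a, .g m' ps' σ' a' => m = m' ∧ ps = ps' ∧ σ = σ' ∧ X.G.Adj a a'
  | _, _ => False

/-- The host. -/
def FC {n h N q L : ℕ} {I M C : Type} (H : SimpleGraph (Fin n)) (x y : Fin n)
    (W : SimpleGraph (Fin q)) (T : Bool × Fin q → SimpleGraph (Fin L)) (kd : Fin N → Fin q)
    (δ : M → SP n N q L → I) (X : Cx q C) : SimpleGraph (VC n h q L I M C) :=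
  SimpleGraph.fromRel (relC H x y W T kd δ X)

/-- The red edges of the good colouring, in one direction. -/
def redC {n h q L : ℕ} {I M C : Type} (W : SimpleGraph (Fin q)) (X : Cx q C) :
    VC n h q L I M C → VC n h q L I M C → Prop
  | .u _, .l _ _ _ => True
  | .c _ w _, .l _ w' _ => W.Adj w w'
  | .l _ w _, .l _ w' _ => W.Adj w w'
  | .z _ _ _, .z _ _ _ => True
  | .g _ _ _ a, .l _ w _ => ∃ w', X.kd a = some w' ∧ W.Adj w' w
  | .g _ _ _ a, .g _ _ _ a' => X.red a a'
  | _, _ => False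

/-- The good colouring (`true` = red). -/
noncomputable def cC {n h q L : ℕ} {I M C : Type} (W : SimpleGraph (Fin q)) (X : Cx q C)
    (a b : VC n h q L I M C) : Bool := by
  classical exact decide (redC W X a b ∨ redC W X b a)

/-! ## The good colouring -/

/-- Row RDC: the red copies of `H` are the sets `z m ps`.  Proof: as N49/Rdn.lean; a copy with a
vertex `g _ _ _ a`, `kd a = none`, consists of such vertices of one complex (`rc`, `Sig`); in all
other copies without `z` colour `g _ _ _ a`, `kd a = some w`, by the colour of `w`. -/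
def RdcStatement : Prop :=
  ∀ (n h N q L p : ℕ) (H : SimpleGraph (Fin n)) (x y : Fin n) (W : SimpleGraph (Fin q))
    (T : Bool × Fin q → SimpleGraph (Fin L)) (kd : Fin N → Fin q) (I M C : Type)
    (δ : M → SP n N q L → I) (X : Cx q C), Sig H (p + 1) h → H.Connected →
    LocCol W n (p + 1) → CxGood X W n p →
    ∀ f : Fin n → VC n h q L I M C, Function.Injective f →
      (∀ i j, H.Adj i j → (cls (FC H x y W T kd δ X) (cC W X) true).Adj (f i) (f j)) →
      ∃ m ps, ∀ i, ∃ v, f i = .z m ps v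

/-- Row GAC: no blue copy of `H` in the gadgets of one hyperedge.  Proof: as N49/Gan.lean (M3/Gam),
from `CxFree` instead of `Bvh.core` / `TwinFree`. -/
def GacStatement : Prop :=
  ∀ (n h N q L p : ℕ) (H : SimpleGraph (Fin n)) (x y : Fin n) (W : SimpleGraph (Fin q))
    (T : Bool × Fin q → SimpleGraph (Fin L)) (kd : Fin N → Fin q) (I M C : Type)
    (δ : M → SP n N q L → I) (X : Cx q C), 2 ≤ n → H.Adj x y → TwoC (ed H) →
    H.Connected → CxFree H p x y → CxGood X W n p → (∀ m, Function.Injective (δ m)) →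
    Sparse (n * n) δ →
    ∀ (f : Fin n → VC n h q L I M C) (m : M), Function.Injective f →
      (∀ i j, H.Adj i j → (cls (FC H x y W T kd δ X) (cC W X) false).Adj (f i) (f j)) →
      ¬ ∀ i, (∃ ps v, f i = .z m ps v) ∨ (∃ t ps, f i = lowC kd δ m t ps) ∨
        ∃ ps σ a, f i = .g m ps σ a

/-- Row BLC: no blue copy of `H`.  Proof: as N49/Bln.lean (M3/Blm; the complexes belong to the
gadgets). -/
def BlcStatement : Prop :=
  ∀ (n h N q L p : ℕ) (H : SimpleGraph (Fin n)) (x y : Fin n) (W : SimpleGraph (Fin q))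
    (T : Bool × Fin q → SimpleGraph (Fin L)) (kd : Fin N → Fin q) (I M C : Type)
    (δ : M → SP n N q L → I) (X : Cx q C), Sig H (p + 1) h → 2 ≤ n → H.Adj x y →
    TwoC (ed H) → H.Connected → CxFree H p x y → CxGood X W n p →
    (∀ a, LocCol (T a) n (p + 1)) → (∀ m, Function.Injective (δ m)) → Sparse (n * n) δ →
    ¬ Emb H (cls (FC (h := h) H x y W T kd δ X) (cC W X) false)

/-- Row NFC: the host is not Ramsey for `H'`.  Proof: as N49/Nfn.lean. -/
def NfcStatement : Prop :=
  ∀ (n n' h N q L p : ℕ) (H : SimpleGraph (Fin n)) (H' : SimpleGraph (Fin n')) (x y : Fin n)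
    (W : SimpleGraph (Fin q)) (T : Bool × Fin q → SimpleGraph (Fin L)) (kd : Fin N → Fin q)
    (I M C : Type) (δ : M → SP n N q L → I) (X : Cx q C), Sig H (p + 1) h → 2 ≤ n →
    H.Adj x y → TwoC (ed H) → H.Connected → CxFree H p x y → LocCol W n (p + 1) →
    CxGood X W n p → (∀ a, LocCol (T a) n (p + 1)) → (∀ m, Function.Injective (δ m)) →
    Sparse (n * n) δ → H'.Connected → Emb H H' → ¬ Emb H' H →
    ¬ Arr (FC (h := h) H x y W T kd δ X) H'

/-! ## Colourings of the host without monochromatic `H` -/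

/-- The colours of the vertices of the worlds in the homogenisation: colours to the hubs `u`, to
the private hubs of the worlds `(some i, w)`, `(none, w)`, and to the special vertices. -/
abbrev KC (h q sp : ℕ) : Type := Fin h ⊕ (Bool × Fin q × Fin h) ⊕ Fin sp → Bool

/-- The copies of `B` in the world `(i, w)` of class `s`. -/
def CopC {n h q L b₀ r : ℕ} {I M C : Type} (B : SimpleGraph (Fin b₀))
    (T : Bool × Fin q → SimpleGraph (Fin L)) (c : VC n h q L I M C → VC n h q L I M C → Bool)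
    (i : Option I) (w : Fin q) (s : QN r h) (e : Fin b₀ → Fin L) : Prop :=
  CopyB B (T (i.isNone, w)) e ∧ (∀ x k, c (.u k) (.l i w (e x)) = s.1 k) ∧
    ∀ b, Blow B (fun x y => c (.l i w (e x)) (.l i w (e y))) n (s.2 b) b

/-- Classes chosen for all worlds, and a position in each class. -/
structure Classes {n h q L b₀ : ℕ} {I M C : Type} (r : ℕ) (B : SimpleGraph (Fin b₀))
    (T : Bool × Fin q → SimpleGraph (Fin L)) (K' : Bool × Fin q → Type)
    (c : VC n h q L I M C → VC n h q L I M C → Bool) where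
  s : Option I → Fin q → QN r h
  two : ∀ i w, r + 1 ≤ ((s i w).2 true : ℕ) + (s i w).2 false
  big : ∀ i w, BigC (CopC B T c i w (s i w)) (K' (i.isNone, w))
  ps : Option I → Fin q → Fin L
  hps : ∀ i w k, c (.u k) (.l i w (ps i w)) = (s i w).1 k

/-- Row CLA: classes exist.  Proof: copy N49/Cla.lean. -/
def ClaStatement : Prop :=
  ∀ (n h N q L r b₀ sp : ℕ) (H : SimpleGraph (Fin n)) (_ : MData H r h) (x y : Fin n)
    (W : SimpleGraph (Fin q)) (T : Bool × Fin q → SimpleGraph (Fin L))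
    (K' : Bool × Fin q → Type) (kd : Fin N → Fin q) (I M C : Type) (δ : M → SP n N q L → I)
    (X : Cx q C) (B : SimpleGraph (Fin b₀)) (c : VC n h q L I M C → VC n h q L I M C → Bool),
    1 ≤ r → 1 ≤ b₀ → Homog B (Bool × Fin q) (QN r h) (Fin h → Bool) (KC h q sp) T K' →
    (∀ c : Fin b₀ → Fin b₀ → Bool, (∀ x y, c x y = c y x) →
      ∃ A A', r + 1 ≤ A + A' ∧ Blow B c n A true ∧ Blow B c n A' false) →
    (∀ x y, c x y = c y x) → (∀ b, ¬ Emb H (cls (FC H x y W T kd δ X) c b)) →
    Nonempty (Classes r B T K' c)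

/-- Homogeneous copies in all worlds of the index `i` and of the pool; `S` = special vertices. -/
structure Hst {n h q L b₀ : ℕ} {I M C : Type} {r : ℕ} {B : SimpleGraph (Fin b₀)}
    {T : Bool × Fin q → SimpleGraph (Fin L)} {K' : Bool × Fin q → Type}
    {c : VC n h q L I M C → VC n h q L I M C → Bool} (Cs : Classes r B T K' c) (i : I)
    {sp : ℕ} (S : Fin sp → VC n h q L I M C) where
  e : Bool → Fin q → Fin b₀ → Fin L
  cop : ∀ lv w, CopC B T c (plc i lv) w (Cs.s (plc i lv) w) (e lv w)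
  hub : ∀ lv w lv' w' k x y, c (.c (plc i lv') w' k) (.l (plc i lv) w (e lv w x)) =
    c (.c (plc i lv') w' k) (.l (plc i lv) w (e lv w y))
  spe : ∀ lv w k x y, c (S k) (.l (plc i lv) w (e lv w x)) = c (S k) (.l (plc i lv) w (e lv w y))
  crs : ∀ lv w lv' w', w ≠ w' → ∀ x y x' y',
    c (.l (plc i lv) w (e lv w x)) (.l (plc i lv') w' (e lv' w' x')) =
      c (.l (plc i lv) w (e lv w y)) (.l (plc i lv') w' (e lv' w' y'))

/-- Row HST.  Proof: copy N49/Hst.lean. -/
def HstStatement : Prop :=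
  ∀ (n h q L r b₀ sp : ℕ) (T : Bool × Fin q → SimpleGraph (Fin L)) (K' : Bool × Fin q → Type)
    (I M C : Type) (B : SimpleGraph (Fin b₀))
    (c : VC n h q L I M C → VC n h q L I M C → Bool),
    Homog B (Bool × Fin q) (QN r h) (Fin h → Bool) (KC h q sp) T K' →
    ∀ (Cs : Classes r B T K' c) (i : I) (S : Fin sp → VC n h q L I M C), Nonempty (Hst Cs i S)

/-- Row FRC: KEY for the worlds `(plc i (ℓ j), K j)`.  Proof: as N49/Frc.lean, from the
`KeyStatement` of M3/Defs.lean. -/
def FrcStatement : Prop :=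
  ∀ (n h N q L r b₀ sp : ℕ) (H : SimpleGraph (Fin n)) (_ : MData H r h) (x y : Fin n)
    (W : SimpleGraph (Fin q)) (T : Bool × Fin q → SimpleGraph (Fin L))
    (K' : Bool × Fin q → Type) (kd : Fin N → Fin q) (I M C : Type) (δ : M → SP n N q L → I)
    (X : Cx q C) (B : SimpleGraph (Fin b₀)) (c : VC n h q L I M C → VC n h q L I M C → Bool),
    2 ≤ r → (∀ x y, c x y = c y x) → (∀ b, ¬ Emb H (cls (FC H x y W T kd δ X) c b)) →
    ∀ (Cs : Classes r B T K' c) (i : I) (S : Fin sp → VC n h q L I M C) (Z : Hst Cs i S)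
      (K : Fin r → Fin q) (ℓ : Fin r → Bool), (∀ j j', j ≠ j' → W.Adj (K j) (K j')) →
      ∃ b, (∀ j j', j ≠ j' → ∀ a a', c (.l (plc i (ℓ j)) (K j) (Z.e (ℓ j) (K j) a))
          (.l (plc i (ℓ j')) (K j') (Z.e (ℓ j') (K j') a')) = b) ∧
        (∀ j, ((Cs.s (plc i (ℓ j)) (K j)).2 b : ℕ) = 1 ∧
          ((Cs.s (plc i (ℓ j)) (K j)).2 (!b) : ℕ) = r) ∧
        (∀ k j j', (Cs.s (plc i (ℓ j)) (K j)).1 k = !b →
          (Cs.s (plc i (ℓ j')) (K j')).1 k = !b → j = j') ∧
        ∀ s j, (∀ k, s ≠ .u k) → (∀ i' w k, s ≠ .c i' w k) →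
          (∀ a, (FC H x y W T kd δ X).Adj s (.l (plc i (ℓ j)) (K j) (Z.e (ℓ j) (K j) a))) →
          ¬ ∀ a, c s (.l (plc i (ℓ j)) (K j) (Z.e (ℓ j) (K j) a)) = !b

/-- The kinds `K j` are pairwise adjacent and forced with colour `b` at the index `i` and in the
pool. -/
structure Fine {n h q L b₀ : ℕ} {I M C : Type} {r : ℕ} {B : SimpleGraph (Fin b₀)}
    {T : Bool × Fin q → SimpleGraph (Fin L)} {K' : Bool × Fin q → Type}
    {c : VC n h q L I M C → VC n h q L I M C → Bool} (W : SimpleGraph (Fin q))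
    (Cs : Classes r B T K' c) (i : I) (K : Fin r → Fin q) (b : Bool) : Prop where
  adj : ∀ j j', j ≠ j' → W.Adj (K j) (K j')
  ui : ∀ j k, (Cs.s (some i) (K j)).1 k = b
  up : ∀ j k, (Cs.s none (K j)).1 k = b
  one : ∀ j, ((Cs.s none (K j)).2 b : ℕ) = 1

/-- Row FINE ((T2)): if the classes of the kinds `K j` agree, then `K` is fine.  Proof: as
N49/Fine.lean. -/
def FineStatement : Prop :=
  ∀ (n h N q L r b₀ sp : ℕ) (H : SimpleGraph (Fin n)) (_ : MData H r h) (x y : Fin n)
    (W : SimpleGraph (Fin q)) (T : Bool × Fin q → SimpleGraph (Fin L))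
    (K' : Bool × Fin q → Type) (kd : Fin N → Fin q) (I M C : Type) (δ : M → SP n N q L → I)
    (X : Cx q C) (B : SimpleGraph (Fin b₀)) (c : VC n h q L I M C → VC n h q L I M C → Bool),
    2 ≤ r → (∀ x y, c x y = c y x) → (∀ b, ¬ Emb H (cls (FC H x y W T kd δ X) c b)) →
    ∀ (Cs : Classes r B T K' c) (i : I) (S : Fin sp → VC n h q L I M C) (_ : Hst Cs i S)
      (K : Fin r → Fin q), (∀ j j', j ≠ j' → W.Adj (K j) (K j')) →
      (∀ j j', (Cs.s (some i) (K j)).1 = (Cs.s (some i) (K j')).1) →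
      (∀ j j', (Cs.s none (K j)).1 = (Cs.s none (K j')).1) → ∃ b, Fine W Cs i K b

/-- Row RU1 (RULE 1).  `v` is a low (not of the pool), `A` consists of lows of kind `K j₀` (not of
the pool), which have colour `b` to `v` and to all `u`; `v` is joined to all lows of the kinds
`K j`, `j ≠ j₀`.  Proof: as N49/Rul.lean, from EM1 (`Em1Statement` of M3/Defs.lean). -/
def Ru1Statement : Prop :=
  ∀ (n h N q L r b₀ sp : ℕ) (H : SimpleGraph (Fin n)) (_ : MData H r h) (x y : Fin n)
    (W : SimpleGraph (Fin q)) (T : Bool × Fin q → SimpleGraph (Fin L))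
    (K' : Bool × Fin q → Type) (kd : Fin N → Fin q) (I M C : Type) (δ : M → SP n N q L → I)
    (X : Cx q C) (B : SimpleGraph (Fin b₀)) (c : VC n h q L I M C → VC n h q L I M C → Bool),
    2 ≤ r → n + 1 ≤ sp → (∀ x y, c x y = c y x) →
    (∀ b, ¬ Emb H (cls (FC H x y W T kd δ X) c b)) →
    ∀ (Cs : Classes r B T K' c), (∀ (i : I) (S : Fin sp → VC n h q L I M C),
        Nonempty (Hst Cs i S)) →
      ∀ (i : I) (K : Fin r → Fin q) (b : Bool), Fine W Cs i K b →
      ∀ (i' : I) (w : Fin q) (t : Fin L) (j₀ : Fin r) (A : Finset (VC n h q L I M C)),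
        (∀ j, j ≠ j₀ → W.Adj w (K j)) → (∀ a ∈ A, ∃ i'' t', a = .l (some i'') (K j₀) t') →
        (∀ a ∈ A, ∀ k, c (.u k) a = b) →
        (∀ a ∈ A, (FC H x y W T kd δ X).Adj (.l (some i') w t) a ∧
          c (.l (some i') w t) a = b) → n ≤ A.card → False

/-- The vertex `t` of the window `j` of the complex of type `σ` of the gadget `(m, ps)`. -/
def win {n h q L p LR LQ : ℕ} {I M : Type} (m : M) (ps : Fin q → Fin L) (σ : Ty n)
    (j : Option (Fin p)) (t : Fin LR) : VC n h q L I M (CV p q LR LQ) :=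
  .g m ps σ (.inl (j, t))

/-- The slot number `ν` of type `σ`. -/
def slt {n N : ℕ} (σ : Ty n) (ν : Fin N) : Slot n N := (σ.1, σ.2.1, ν, σ.2.2)

/-- The windows `E` of a complex are forced with the main colour `b`: homogeneous towards the slots
of their type, colour `!b` between different windows, blow-ups with `p + 1` parts of colour `b`. -/
structure Forced {n h N q L p b₀ LR LQ : ℕ} {I M : Type} (B : SimpleGraph (Fin b₀))
    (TR : Option (Fin p) → SimpleGraph (Fin LR)) (kd : Fin N → Fin q) (δ : M → SP n N q L → I)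
    (c : VC n h q L I M (CV p q LR LQ) → VC n h q L I M (CV p q LR LQ) → Bool) (b : Bool)
    (m : M) (ps : Fin q → Fin L) (σ : Ty n) (E : Option (Fin p) → Fin b₀ → Fin LR) : Prop where
  inj : ∀ j, Function.Injective (E j)
  hom : ∀ j x y, B.Adj x y → (TR j).Adj (E j x) (E j y)
  blo : ∀ j, Blow B (fun x y => c (win m ps σ j (E j x)) (win m ps σ j (E j y))) n (p + 1) b
  crs : ∀ j j', j ≠ j' → ∀ x y, c (win m ps σ j (E j x)) (win m ps σ j' (E j' y)) = !b
  slo : ∀ j ν x y, c (win m ps σ j (E j x)) (lowC kd δ m (slt σ ν) ps) =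
    c (win m ps σ j (E j y)) (lowC kd δ m (slt σ ν) ps)

/-- Row CPF: the windows are forced.  Proof: homogeneous copies `E` in the windows (`HomC` for `TR`,
`ψ` = colours to all vertices of the special worlds and to the slots), then homogeneous copies `F`
in the special worlds (`ψ` = colour to the copy `E none`), then FRC (levels constant `true`, the
special vertices are the vertices of the `F (K j)`, at most `(p + 1) * b₁`): the copies in the pool
worlds of the kinds `K j` have colour `b` to each other (`one`) and to the `F (K j')`, `j' ≠ j`;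
`P j` = `n` vertices of a blow-up; LNK. -/
def CpfStatement : Prop :=
  ∀ (n h N q L p b₀ b₁ LR LQ sp : ℕ) (H : SimpleGraph (Fin n)) (_ : MData H (p + 1) h)
    (x y : Fin n) (W : SimpleGraph (Fin q)) (T : Bool × Fin q → SimpleGraph (Fin L))
    (K' : Bool × Fin q → Type) (kd : Fin N → Fin q) (I M : Type) (δ : M → SP n N q L → I)
    (TR : Option (Fin p) → SimpleGraph (Fin LR)) (TQ : Fin q → SimpleGraph (Fin LQ))
    (B : SimpleGraph (Fin b₀)) (B₁ : SimpleGraph (Fin b₁))
    (c : VC n h q L I M (CV p q LR LQ) → VC n h q L I M (CV p q LR LQ) → Bool),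
    2 ≤ p → 1 ≤ b₀ → 1 ≤ b₁ → (p + 1) * b₁ ≤ sp → (∀ x y, c x y = c y x) →
    (∀ b, ¬ Emb H (cls (FC H x y W T kd δ (cx W TR TQ)) c b)) →
    HomC B (Option (Fin p)) ((Fin q → Fin LQ → Bool) × (Fin N → Bool)) TR →
    HomC B₁ (Fin q) Bool TQ →
    (∀ c : Fin b₀ → Fin b₀ → Bool, (∀ x y, c x y = c y x) →
      ∃ A A', p + 2 ≤ A + A' ∧ Blow B c n A true ∧ Blow B c n A' false) →
    (∀ c : Fin b₁ → Fin b₁ → Bool, (∀ x y, c x y = c y x) →
      ∃ A A', p + 1 ≤ A + A' ∧ Blow B₁ c n A true ∧ Blow B₁ c n A' false) →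
    ∀ (Cs : Classes (p + 1) B T K' c), (∀ (i : I) (S : Fin sp → VC n h q L I M
        (CV p q LR LQ)), Nonempty (Hst Cs i S)) →
      ∀ (i : I) (K : Fin (p + 1) → Fin q) (b : Bool), Fine W Cs i K b →
      ∀ (m : M) (ps : Fin q → Fin L) (σ : Ty n), ∃ E, Forced B TR kd δ c b m ps σ E

/-- Row RU2 (RULE 2).  `n` slots of type `σ` of every kind `K j` (their numbers are `ν j a`), all
of colour `b` to the hubs `u` and to the free vertex `z m ps v`, of constant colours `θ i j` to the
attached windows, and with constant colours `β j j'` between each other.  Proof: JOI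
(`JoiStatement` of M3/Defs.lean): `θ i j = !b` (the parts of the blow-up in the window `some i`
and `n ≥ h + 1` slots); `β j j' = b`, otherwise the windows `some i`, the slots of kind `K j` and
those of kind `K j'` are `p + 2` parts of colour `!b`; finally the slots of all kinds and
`z m ps v`, `u`. -/
def Ru2Statement : Prop :=
  ∀ (n h N q L p b₀ LR LQ : ℕ) (H : SimpleGraph (Fin n)) (_ : MData H (p + 1) h)
    (x y : Fin n) (W : SimpleGraph (Fin q)) (T : Bool × Fin q → SimpleGraph (Fin L))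
    (kd : Fin N → Fin q) (I M : Type) (δ : M → SP n N q L → I)
    (TR : Option (Fin p) → SimpleGraph (Fin LR)) (TQ : Fin q → SimpleGraph (Fin LQ))
    (B : SimpleGraph (Fin b₀))
    (c : VC n h q L I M (CV p q LR LQ) → VC n h q L I M (CV p q LR LQ) → Bool),
    1 ≤ p → (∀ m, Function.Injective (δ m)) → (∀ x y, c x y = c y x) →
    (∀ b, ¬ Emb H (cls (FC H x y W T kd δ (cx W TR TQ)) c b)) →
    ∀ (b : Bool) (m : M) (ps : Fin q → Fin L) (σ : Ty n)
      (E : Option (Fin p) → Fin b₀ → Fin LR), Forced B TR kd δ c b m ps σ E →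
      ∀ (K : Fin (p + 1) → Fin q) (v : Fin n) (ν : Fin (p + 1) → Fin n → Fin N)
        (θ : Fin p → Fin (p + 1) → Bool) (β : Fin (p + 1) → Fin (p + 1) → Bool),
        (∀ j j', j ≠ j' → W.Adj (K j) (K j')) → (∀ j, Function.Injective (ν j)) →
        (∀ j a, kd (ν j a) = K j) →
        (∀ j a, zAdj H x y v (slt σ (ν j a) : Slot n N)) →
        (∀ j a k, c (.u k) (lowC kd δ m (slt σ (ν j a)) ps) = b) →
        (∀ j a, c (.z m ps v) (lowC kd δ m (slt σ (ν j a)) ps) = b) →
        (∀ i j a t, c (win m ps σ (some i) (E (some i) t)) (lowC kd δ m (slt σ (ν j a)) ps) =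
          θ i j) →
        (∀ j j', j ≠ j' → ∀ a a', c (lowC kd δ m (slt σ (ν j a)) ps)
          (lowC kd δ m (slt σ (ν j' a')) ps) = β j j') → False

/-- The colours of the kinds in the final step: colours of the classes to the hubs `u` (at the
index and in the pool), colours between the free vertices and the slots. -/
abbrev ColC (n h N₀ : ℕ) : Type :=
  (Fin h → Bool) × (Fin h → Bool) × (Fin n → Fin n → Fin n → Fin N₀ → Fin n → Bool)

/-- Row ARC: the host is Ramsey for `H`.  Proof: as N49/Arn.lean; the last step: if `z v z v'` has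
colour `!b`, then every blob `(v, v', cp (K 0) ν)` has an edge of colour `b` at `z v` or `z v'`,
to the slot `w ν`; RAR for `g ν` = (`w ν`, end), `f j ν` = colours of the slot
`(v, v', cp (K j) ν, w ν)` to the attached windows of the complex of its type (CPF), `η` = colours
between the slots; RU2. -/
def ArcStatement : Prop :=
  ∀ (n h N q L p N₀ b₀ b₁ LR LQ sp : ℕ) (H : SimpleGraph (Fin n)) (_ : MData H (p + 1) h)
    (x y : Fin n) (W : SimpleGraph (Fin q)) (T : Bool × Fin q → SimpleGraph (Fin L))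
    (K' : Bool × Fin q → Type) (kd : Fin N → Fin q) (cp : Fin q → Fin N₀ → Fin N)
    (I M : Type) [Finite I] [Finite M] (δ : M → SP n N q L → I)
    (TR : Option (Fin p) → SimpleGraph (Fin LR)) (TQ : Fin q → SimpleGraph (Fin LQ))
    (B : SimpleGraph (Fin b₀)) (B₁ : SimpleGraph (Fin b₁)),
    2 ≤ p → 1 ≤ b₀ → 1 ≤ b₁ → 1 ≤ N₀ → n + 1 ≤ sp → (p + 1) * b₁ ≤ sp → H.Adj x y →
    (∀ w a, kd (cp w a) = w) → (∀ w, Function.Injective (cp w)) →
    RamR n N₀ (p + 1) (Fin n × Bool) (Fin p → Bool) →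
    (∀ κ : Fin q → ColC n h N₀, ∃ e : Fin (p + 1) → Fin q,
      (∀ j j', j ≠ j' → W.Adj (e j) (e j')) ∧ ∀ j j', κ (e j) = κ (e j')) →
    Homog B (Bool × Fin q) (QN (p + 1) h) (Fin h → Bool) (KC h q sp) T K' →
    HomC B (Option (Fin p)) ((Fin q → Fin LQ → Bool) × (Fin N → Bool)) TR →
    HomC B₁ (Fin q) Bool TQ →
    (∀ c : Fin b₀ → Fin b₀ → Bool, (∀ x y, c x y = c y x) →
      ∃ A A', p + 2 ≤ A + A' ∧ Blow B c n A true ∧ Blow B c n A' false) →
    (∀ c : Fin b₁ → Fin b₁ → Bool, (∀ x y, c x y = c y x) →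
      ∃ A A', p + 1 ≤ A + A' ∧ Blow B₁ c n A true ∧ Blow B₁ c n A' false) →
    (∀ m, Function.Injective (δ m)) → Sparse (n * n) δ →
    (∀ (lab : I → Fin q → QN (p + 1) h × Fin L) (bad : I → Finset M),
      (∀ i, (bad i).card ≤ q * n) →
      ∃ m, (∀ t t', lab (δ m t) = lab (δ m t')) ∧ ∀ t, m ∉ bad (δ m t)) →
    Arr (FC (h := h) H x y W T kd δ (cx W TR TQ)) H

/-- Row MNC: Theorem C4.  Proof: as N49/Mnn.lean. -/
def MncStatement : Prop :=
  ∀ (n n' p h : ℕ) (H : SimpleGraph (Fin n)) (H' : SimpleGraph (Fin n')) (x y : Fin n)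
    (_ : MData H (p + 1) h), 2 ≤ p → H.Adj x y → CxFree H p x y → Sig H (p + 1) h →
    H.Connected → TwoC (ed H) → H'.Connected → Emb H H' → ¬ Emb H' H →
    ∃ (m : ℕ) (F : SimpleGraph (Fin m)), Arr F H ∧ ¬ Arr F H'

/-- Row CRC: the final form.  Proof: take a proper colouring with `k = χ(H)` colours and a colour
class of least size over all these colourings; CLC and MNC. -/
def CrcStatement : Prop :=
  ∀ (n n' : ℕ) (H : SimpleGraph (Fin n)) (H' : SimpleGraph (Fin n')), 3 ≤ n → NoCut H →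
    ¬ H.Colorable 3 → H'.Connected → Emb H H' → ¬ Emb H' H →
    ∃ (m : ℕ) (F : SimpleGraph (Fin m)), Arr F H ∧ ¬ Arr F H'

end MP3240C
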