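import Pool.Agent.Lib.MP_3240be_co.C4.Defs

/-!
# MP_3240be_co, Theorem C4, row FRC: KEY for the worlds `(plc i (ℓ j), K j)`
-/

set_option autoImplicit false

namespace MP3240C

open Finset MP3240T MP3240W
open MP3240N (Sig BigC CopyB Homog SP plc QN NoCut)
open MP3240M (MData KeyStatement twAdj)
open Pool.Agent.Lib.MP_3240be_co.H36 (LocCol Blow)

/-- A hub `u` is joined to every low. -/
theorem fc_adj_ul {n h N q L : ℕ} {I M C : Type} (H : SimpleGraph (Fin n)) (x y : Fin n)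
    (W : SimpleGraph (Fin q)) (T : Bool × Fin q → SimpleGraph (Fin L)) (kd : Fin N → Fin q)
    (δ : M → SP n N q L → I) (X : Cx q C) (k : Fin h) (p : Option I) (w : Fin q)
    (t : Fin L) :
    (FC (h := h) H x y W T kd δ X).Adj (.u k) (.l p w t) := by
  rw [FC, SimpleGraph.fromRel_adj]
  exact ⟨by simp, Or.inl trivial⟩

/-- The private hubs. -/
theorem fc_adj_cl {n h N q L : ℕ} {I M C : Type} (H : SimpleGraph (Fin n)) (x y : Fin n)
    (W : SimpleGraph (Fin q)) (T : Bool × Fin q → SimpleGraph (Fin L)) (kd : Fin N → Fin q)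
    (δ : M → SP n N q L → I) (X : Cx q C) (k : Fin h) (p p' : Option I) (w w' : Fin q)
    (t : Fin L) (hw : (p = p' ∧ w = w') ∨ W.Adj w w') :
    (FC (h := h) H x y W T kd δ X).Adj (.c p w k) (.l p' w' t) := by
  rw [FC, SimpleGraph.fromRel_adj]
  exact ⟨by simp, Or.inl hw⟩

/-- Two lows of adjacent kinds, or of one world and adjacent positions. -/
theorem fc_adj_ll {n h N q L : ℕ} {I M C : Type} (H : SimpleGraph (Fin n)) (x y : Fin n)
    (W : SimpleGraph (Fin q)) (T : Bool × Fin q → SimpleGraph (Fin L)) (kd : Fin N → Fin q)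
    (δ : M → SP n N q L → I) (X : Cx q C) (p p' : Option I) (w w' : Fin q)
    (t t' : Fin L) (hw : W.Adj w w' ∨ (p = p' ∧ w = w' ∧ (T (p.isNone, w)).Adj t t')) :
    (FC (h := h) H x y W T kd δ X).Adj (.l p w t) (.l p' w' t') := by
  rw [FC, SimpleGraph.fromRel_adj]
  refine ⟨?_, Or.inl (hw.elim Or.inl (fun h => Or.inr (Or.inl h)))⟩
  intro h1
  injection h1 with h1 h2 h3
  rcases hw with hw | ⟨_, _, hw⟩
  · exact hw.ne h2
  · exact hw.ne h3

/-- Two slots of a blob of a gadget. -/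
theorem fc_adj_ss {n h N q L : ℕ} {I M C : Type} (H : SimpleGraph (Fin n)) (x y : Fin n)
    (W : SimpleGraph (Fin q)) (T : Bool × Fin q → SimpleGraph (Fin L)) (kd : Fin N → Fin q)
    (δ : M → SP n N q L → I) (X : Cx q C) (hδ : ∀ m, Function.Injective (δ m)) (m : M)
    (ps : Fin q → Fin L) (s s' : Slot n N) (hs : s ≠ s') (hb : blobAdj H x y s s') :
    (FC (h := h) H x y W T kd δ X).Adj (lowC kd δ m s ps) (lowC kd δ m s' ps) := by
  rw [FC, SimpleGraph.fromRel_adj]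
  refine ⟨?_, Or.inl (Or.inr (Or.inr ⟨m, ps, s, s', rfl, rfl, hb⟩))⟩
  intro h1
  simp only [lowC, VC.l.injEq, Option.some.injEq] at h1
  have h2 := hδ m h1.1
  exact hs (congrArg Prod.fst h2)

/-- The free vertices of a gadget. -/
theorem fc_adj_zz {n h N q L : ℕ} {I M C : Type} (H : SimpleGraph (Fin n)) (x y : Fin n)
    (W : SimpleGraph (Fin q)) (T : Bool × Fin q → SimpleGraph (Fin L)) (kd : Fin N → Fin q)
    (δ : M → SP n N q L → I) (X : Cx q C) (m : M) (ps : Fin q → Fin L) (v v' : Fin n)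
    (hv : H.Adj v v') :
    (FC (h := h) H x y W T kd δ X).Adj (.z m ps v) (.z m ps v') := by
  rw [FC, SimpleGraph.fromRel_adj]
  refine ⟨?_, Or.inl ⟨rfl, rfl, hv⟩⟩
  intro h1
  injection h1 with _ _ h3
  exact hv.ne h3

/-- A free vertex and a slot of its gadget. -/
theorem fc_adj_zl {n h N q L : ℕ} {I M C : Type} (H : SimpleGraph (Fin n)) (x y : Fin n)
    (W : SimpleGraph (Fin q)) (T : Bool × Fin q → SimpleGraph (Fin L)) (kd : Fin N → Fin q)
    (δ : M → SP n N q L → I) (X : Cx q C) (m : M) (ps : Fin q → Fin L) (v : Fin n)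
    (s : Slot n N) (hs : zAdj H x y v s) :
    (FC (h := h) H x y W T kd δ X).Adj (.z m ps v) (lowC kd δ m s ps) := by
  rw [FC, SimpleGraph.fromRel_adj]
  refine ⟨by simp [lowC], Or.inl ?_⟩
  exact ⟨s, rfl, hs⟩

/-- An attached vertex of a complex and a slot of its gadget. -/
theorem fc_adj_gl {n h N q L : ℕ} {I M C : Type} (H : SimpleGraph (Fin n)) (x y : Fin n)
    (W : SimpleGraph (Fin q)) (T : Bool × Fin q → SimpleGraph (Fin L)) (kd : Fin N → Fin q)
    (δ : M → SP n N q L → I) (X : Cx q C) (m : M) (ps : Fin q → Fin L)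
    (σ : Ty n) (a : C) (s : Slot n N) (ha : X.att a) (hs : twAdj H x y σ s) :
    (FC (h := h) H x y W T kd δ X).Adj (.g m ps σ a) (lowC kd δ m s ps) := by
  rw [FC, SimpleGraph.fromRel_adj]
  refine ⟨by simp [lowC], Or.inl ?_⟩
  exact Or.inl ⟨ha, s, rfl, hs⟩

/-- A vertex of kind `w'` of a complex and a low of an adjacent kind `w`. -/
theorem fc_adj_gk {n h N q L : ℕ} {I M C : Type} (H : SimpleGraph (Fin n)) (x y : Fin n)
    (W : SimpleGraph (Fin q)) (T : Bool × Fin q → SimpleGraph (Fin L)) (kd : Fin N → Fin q)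
    (δ : M → SP n N q L → I) (X : Cx q C) (m : M) (ps : Fin q → Fin L)
    (σ : Ty n) (a : C) (p : Option I) (w w' : Fin q) (t : Fin L) (ha : X.kd a = some w')
    (hw : W.Adj w' w) :
    (FC (h := h) H x y W T kd δ X).Adj (.g m ps σ a) (.l p w t) := by
  rw [FC, SimpleGraph.fromRel_adj]
  exact ⟨by simp, Or.inl (Or.inr ⟨w', ha, hw⟩)⟩

/-- Two vertices of a complex. -/
theorem fc_adj_gg {n h N q L : ℕ} {I M C : Type} (H : SimpleGraph (Fin n)) (x y : Fin n)
    (W : SimpleGraph (Fin q)) (T : Bool × Fin q → SimpleGraph (Fin L)) (kd : Fin N → Fin q)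
    (δ : M → SP n N q L → I) (X : Cx q C) (m : M) (ps : Fin q → Fin L)
    (σ : Ty n) (a b : C) (hab : X.G.Adj a b) :
    (FC (h := h) H x y W T kd δ X).Adj (.g m ps σ a) (.g m ps σ b) := by
  rw [FC, SimpleGraph.fromRel_adj]
  refine ⟨?_, Or.inl ⟨rfl, rfl, rfl, hab⟩⟩
  intro h1
  injection h1 with _ _ _ h4
  exact hab.ne h4

theorem frc_proof (hK : KeyStatement) : FrcStatement := by
  classical
  intro n h N q L r b₀ sp H D x y W T K' kd I M C δ X B c hr hc hno Cs i S Z K ℓ hadj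
  set E : Fin r → Fin b₀ → VC n h q L I M C :=
    fun j a => .l (plc i (ℓ j)) (K j) (Z.e (ℓ j) (K j) a) with hE
  have hKi : Function.Injective K := by
    intro j j' hj
    by_contra hne
    exact (hadj j j' hne).ne hj
  have h1 : ∀ j, Function.Injective (E j) := by
    intro j a a' haa
    injection haa with _ _ h3
    exact (Z.cop (ℓ j) (K j)).1.1 h3
  have h2 : ∀ j j' a a', j ≠ j' →
      (FC (h := h) H x y W T kd δ X).Adj (E j a) (E j' a') :=
    fun j j' a a' hj => fc_adj_ll H x y W T kd δ X _ _ _ _ _ _ (Or.inl (hadj j j' hj))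
  have h3 : ∀ j j' a a', j ≠ j' → c (E j a) (E j' a') =
      decide (∃ a₁ a₂, c (E j a₁) (E j' a₂) = true) := by
    intro j j' a a' hj
    by_cases hh : ∃ a₁ a₂, c (E j a₁) (E j' a₂) = true
    · obtain ⟨a₁, a₂, h4⟩ := hh
      rw [decide_eq_true ⟨a₁, a₂, h4⟩, ← h4]
      exact Z.crs (ℓ j) (K j) (ℓ j') (K j') (hadj j j' hj).ne a a₁ a' a₂
    · rw [decide_eq_false hh]
      have h5 : ¬ c (E j a) (E j' a') = true := fun h6 => hh ⟨a, a', h6⟩
      simpa using h5
  have h4 : ∀ j a a', B.Adj a a' →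
      (FC (h := h) H x y W T kd δ X).Adj (E j a) (E j a') :=
    fun j a a' haa => fc_adj_ll H x y W T kd δ X _ _ _ _ _ _
      (Or.inr ⟨rfl, rfl, (Z.cop (ℓ j) (K j)).1.2.1 a a' haa⟩)
  have h5 : ∀ j b, Blow B (fun a a' => c (E j a) (E j a')) n
      ((Cs.s (plc i (ℓ j)) (K j)).2 b) b := fun j b => (Z.cop (ℓ j) (K j)).2.2 b
  have h6 : ∀ j, r + 1 ≤ (((Cs.s (plc i (ℓ j)) (K j)).2 true : Fin (r + 1)) : ℕ) +
      (Cs.s (plc i (ℓ j)) (K j)).2 false := fun j => Cs.two _ _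
  set φ : Fin h ⊕ Fin r × Fin h → VC n h q L I M C :=
    Sum.elim (fun k => .u k) (fun jk => .c (plc i (ℓ jk.1)) (K jk.1) jk.2) with hφ
  set θ : Fin h ⊕ Fin r × Fin h → Fin r → Bool :=
    Sum.elim (fun k j => (Cs.s (plc i (ℓ j)) (K j)).1 k)
      (fun jk j => decide (∃ a, c (.c (plc i (ℓ jk.1)) (K jk.1) jk.2) (E j a) = true)) with hθ
  have h7 : Function.Injective φ := by
    rintro (k | ⟨j, k⟩) (k' | ⟨j', k'⟩) hkk
    · simp only [hφ, Sum.elim_inl, VC.u.injEq] at hkk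
      rw [hkk]
    · simp [hφ] at hkk
    · simp [hφ] at hkk
    · simp only [hφ, Sum.elim_inr, VC.c.injEq] at hkk
      obtain ⟨_, h8, h9⟩ := hkk
      rw [hKi h8, h9]
  have h8 : ∀ a j t, (FC (h := h) H x y W T kd δ X).Adj (φ a) (E j t) := by
    rintro (k | ⟨j', k⟩) j t
    · exact fc_adj_ul H x y W T kd δ X _ _ _ _
    · refine fc_adj_cl H x y W T kd δ X _ _ _ _ _ _ ?_
      by_cases hj : j' = j
      · subst hj; exact Or.inl ⟨rfl, rfl⟩
      · exact Or.inr (hadj _ _ hj)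
  have h9 : ∀ a j t, c (φ a) (E j t) = θ a j := by
    rintro (k | ⟨j', k⟩) j t
    · exact (Z.cop (ℓ j) (K j)).2.1 t k
    · simp only [hφ, hθ, Sum.elim_inr]
      by_cases hh : ∃ a, c (.c (plc i (ℓ j')) (K j') k) (E j a) = true
      · rw [decide_eq_true hh]
        obtain ⟨a, ha⟩ := hh
        rw [← ha]
        exact Z.hub (ℓ j) (K j) (ℓ j') (K j') k t a
      · rw [decide_eq_false hh]
        have h5 : ¬ c (.c (plc i (ℓ j')) (K j') k) (E j t) = true := fun h6 => hh ⟨t, h6⟩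
        simpa using h5
  have h10 : (r + 1) * h ≤ Fintype.card (Fin h ⊕ Fin r × Fin h) := by
    simp [Fintype.card_sum, Fintype.card_prod]
    ring_nf
    omega
  obtain ⟨b, g1, g2, g3, g4⟩ := hK n r h b₀ H D B _ (FC (h := h) H x y W T kd δ X) c E
    (fun j j' => decide (∃ a₁ a₂, c (E j a₁) (E j' a₂) = true))
    (fun j b => ((Cs.s (plc i (ℓ j)) (K j)).2 b : ℕ)) _ φ θ hr hc hno h1 h2 h3 h4 h5 h6 h7 h8 h9
    h10
  refine ⟨b, ?_, ?_, ?_, ?_⟩
  · intro j j' hj a a'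
    rw [← g1 j j' hj]
    exact h3 j j' a a' hj
  · exact g2
  · intro k j j' hj hj'
    exact g3 (Sum.inl k) j j' hj hj'
  · intro s j hs1 hs2 hs3 hs4
    obtain ⟨a, ha⟩ := g4 s j hs3 hs4
    rcases a with k | ⟨j', k⟩
    · exact hs1 k ha
    · exact hs2 _ _ k ha

end MP3240C
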