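import Pool.Agent.Lib.MP_3240be_co.C4.Defs

/-!
# Board c4_modules, row GAC: no blue copy of `H` in the gadgets of one hyperedge
-/

set_option autoImplicit false

namespace MP3240C

open Finset MP3240T MP3240W MP3240W.Bvh
open MP3240N (SP)
open MP3240M (twAdj)
open Pool.Agent.Lib.MP_3240be_co.H36.Chrom (Sparse Leaf)

namespace Gac

variable {n h N q L : ℕ} {I M C : Type}

/-- The vertex of the gadget with complexes. -/
def AtC (kd : Fin N → Fin q) (δ : M → SP n N q L → I) (m : M) (ps : Fin q → Fin L) :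
    VC n h q L I M C → GC n N C → Prop
  | a, .inl (.inl v) => a = .z m ps v
  | a, .inl (.inr t) => a = lowC kd δ m t ps
  | a, .inr c => a = .g m ps c.1 c.2

theorem low_inj {kd : Fin N → Fin q} {δ : M → SP n N q L → I} {m m' : M}
    {t t' : Slot n N} {ps ps' : Fin q → Fin L}
    (h1 : (lowC kd δ m t ps : VC n h q L I M C) = lowC kd δ m' t' ps') :
    δ m (t, ps) = δ m' (t', ps') := by
  unfold lowC at h1
  injection h1 with h2 _ _
  injection h2

theorem cg_symm (H : SimpleGraph (Fin n)) (x y : Fin n) {R : C → C → Prop} {A : C → Prop}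
    (hR : ∀ a b, R a b → R b a) {p p' : GC n N C}
    (h1 : cg H x y R A p p') : cg H x y R A p' p := by
  rcases p with p | c <;> rcases p' with p' | c'
  · exact gg_symm (show gg H x y p p' from h1)
  · rcases p with v | t
    · exact h1
    · exact h1
  · rcases p' with v | t
    · exact h1
    · exact h1
  · exact ⟨h1.1.symm, hR _ _ h1.2⟩

/-- A directed blue edge of the gadgets of `m`. -/
theorem edge (H : SimpleGraph (Fin n)) (x y : Fin n) (W : SimpleGraph (Fin q))
    (T : Bool × Fin q → SimpleGraph (Fin L)) (kd : Fin N → Fin q)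
    (δ : M → SP n N q L → I) (X : Cx q C) (hn : 2 ≤ n)
    (hδ : ∀ m, Function.Injective (δ m))
    (hsp : Sparse (n * n) δ) (m : M) (ps ps' : Fin q → Fin L) (a b : VC n h q L I M C)
    (p p' : GC n N C) (ha : AtC kd δ m ps a p) (hb : AtC kd δ m ps' b p')
    (hr : relC H x y W T kd δ X a b) (hab : a ≠ b) (hn1 : ¬ redC W X a b) :
    ps = ps' ∧ cg H x y (fun a b => X.G.Adj a b ∧ ¬ X.red a b) X.att p p' := by
  have hnn : 2 ≤ n * n := by nlinarith
  rcases p with (v | t) | c <;> rcases p' with (v' | t') | c'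
  · have ha' : a = .z m ps v := ha
    have hb' : b = .z m ps' v' := hb
    subst ha' hb'
    exact absurd trivial hn1
  · have ha' : a = .z m ps v := ha
    have hb' : b = lowC kd δ m t' ps' := hb
    subst ha' hb'
    obtain ⟨s, h1, h2⟩ := (hr : ∃ s, (lowC kd δ m t' ps' : VC n h q L I M C) =
      lowC kd δ m s ps ∧ zAdj H x y v s)
    have h3 := hδ m (low_inj h1)
    have h4 : t' = s := congrArg Prod.fst h3
    have h5 : ps' = ps := congrArg Prod.snd h3
    exact ⟨h5.symm, by rw [h4]; exact h2⟩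
  · have ha' : a = .z m ps v := ha
    have hb' : b = .g m ps' c'.1 c'.2 := hb
    subst ha' hb'
    exact (hr : False).elim
  · have ha' : a = lowC kd δ m t ps := ha
    have hb' : b = .z m ps' v' := hb
    subst ha' hb'
    exact (hr : False).elim
  · have ha' : a = lowC kd δ m t ps := ha
    have hb' : b = lowC kd δ m t' ps' := hb
    rw [ha', hb'] at hr hn1 hab
    have hr' : W.Adj (kd t.2.2.1) (kd t'.2.2.1) ∨
        (some (δ m (t, ps)) = some (δ m (t', ps')) ∧ kd t.2.2.1 = kd t'.2.2.1 ∧
          (T ((some (δ m (t, ps))).isNone, kd t.2.2.1)).Adj (ps (kd t.2.2.1))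
            (ps' (kd t'.2.2.1))) ∨
        ∃ m1 ps1 s s', (lowC kd δ m t ps : VC n h q L I M C) = lowC kd δ m1 s ps1 ∧
          (lowC kd δ m t' ps' : VC n h q L I M C) = lowC kd δ m1 s' ps1 ∧
            blobAdj H x y s s' := hr
    rcases hr' with h1 | ⟨h1, -, -⟩ | ⟨m1, ps1, s, s', h1, h2, h3⟩
    · exact absurd
        (show redC W X (lowC kd δ m t ps : VC n h q L I M C) (lowC kd δ m t' ps') from h1) hn1
    · exfalso
      apply hab
      have h2 := hδ m (Option.some_injective _ h1)
      have h4 : t = t' := congrArg Prod.fst h2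
      have h5 : ps = ps' := congrArg Prod.snd h2
      rw [h4, h5]
    · have e1 := low_inj h1
      have e2 := low_inj h2
      by_cases hm : m1 = m
      · subst hm
        have h4 := hδ m1 e1
        have h5 := hδ m1 e2
        have a1 : t = s := congrArg Prod.fst h4
        have a2 : ps = ps1 := congrArg Prod.snd h4
        have b1 : t' = s' := congrArg Prod.fst h5
        have b2 : ps' = ps1 := congrArg Prod.snd h5
        refine ⟨a2.trans b2.symm, ?_⟩
        rw [a1, b1]
        exact h3
      · exfalso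
        apply hab
        have h4 := lin hnn hsp hm e1.symm e2.symm
        have h5 := hδ m1 h4
        have h6 : s = s' := congrArg Prod.fst h5
        rw [h1, h2, h6]
  · have ha' : a = lowC kd δ m t ps := ha
    have hb' : b = .g m ps' c'.1 c'.2 := hb
    subst ha' hb'
    exact (hr : False).elim
  · have ha' : a = .g m ps c.1 c.2 := ha
    have hb' : b = .z m ps' v' := hb
    subst ha' hb'
    exact (hr : False).elim
  · have ha' : a = .g m ps c.1 c.2 := ha
    have hb' : b = lowC kd δ m t' ps' := hb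
    subst ha' hb'
    have hr' : (X.att c.2 ∧ ∃ s, (lowC kd δ m t' ps' : VC n h q L I M C) =
        lowC kd δ m s ps ∧ twAdj H x y c.1 s) ∨
        ∃ w', X.kd c.2 = some w' ∧ W.Adj w' (kd t'.2.2.1) := hr
    rcases hr' with ⟨h0, s, h1, h2⟩ | h1
    · have h3 := hδ m (low_inj h1)
      have h4 : t' = s := congrArg Prod.fst h3
      have h5 : ps' = ps := congrArg Prod.snd h3
      refine ⟨h5.symm, ?_, h0⟩
      rw [h4]
      exact h2
    · exact absurd (show redC W X (.g m ps c.1 c.2 : VC n h q L I M C)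
        (lowC kd δ m t' ps') from h1) hn1
  · have ha' : a = .g m ps c.1 c.2 := ha
    have hb' : b = .g m ps' c'.1 c'.2 := hb
    subst ha' hb'
    have hr' : m = m ∧ ps = ps' ∧ c.1 = c'.1 ∧ X.G.Adj c.2 c'.2 := hr
    exact ⟨hr'.2.1, hr'.2.2.1, hr'.2.2.2, fun e => hn1 e⟩

end Gac

open Gac in
/-- Row GAC. -/
theorem gac_proof : GacStatement := by
  classical
  intro n h N q L p H x y W T kd I M C δ X hn hxy htc hcon hcx hX hδ hsp f m hf hadj hall
  have hblue : ∀ i k, H.Adj i k → f i ≠ f k ∧ (relC H x y W T kd δ X (f i) (f k) ∨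
      relC H x y W T kd δ X (f k) (f i)) ∧ ¬ redC W X (f i) (f k) ∧
        ¬ redC W X (f k) (f i) := by
    intro i k hik
    have hab := hadj i k hik
    have e1 := (SimpleGraph.fromRel_adj _ _ _).1 hab.1
    have e2 : ¬ (redC W X (f i) (f k) ∨ redC W X (f k) (f i)) := by
      have e3 := hab.2.1
      unfold cC at e3
      exact of_decide_eq_false e3
    exact ⟨e1.1, e1.2, fun e => e2 (Or.inl e), fun e => e2 (Or.inr e)⟩
  have hF : ∀ i, ∃ (ps : Fin q → Fin L) (p : GC n N C), AtC kd δ m ps (f i) p := by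
    intro i
    rcases hall i with ⟨ps, v, h1⟩ | ⟨t, ps, h1⟩ | ⟨ps, s, k, h1⟩
    · exact ⟨ps, .inl (.inl v), h1⟩
    · exact ⟨ps, .inl (.inr t), h1⟩
    · exact ⟨ps, .inr (s, k), h1⟩
  choose P F hF using hF
  have hRs : ∀ a b, (X.G.Adj a b ∧ ¬ X.red a b) → (X.G.Adj b a ∧ ¬ X.red b a) :=
    fun a b e => ⟨e.1.symm, fun e' => e.2 (hX.sym _ _ e')⟩
  have hPe : ∀ i k, H.Adj i k → P i = P k := by
    intro i k hik
    obtain ⟨e0, e1, e2, e3⟩ := hblue i k hik
    rcases e1 with e1 | e1
    · exact (edge H x y W T kd δ X hn hδ hsp m _ _ _ _ _ _ (hF i) (hF k) e1 e0 e2).1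
    · exact (edge H x y W T kd δ X hn hδ hsp m _ _ _ _ _ _ (hF k) (hF i) e1 e0.symm e3).1.symm
  have hPc : ∀ i k, P i = P k := by
    intro i k
    obtain ⟨p⟩ := hcon.preconnected i k
    induction p with
    | nil => rfl
    | cons hac p ih => exact (hPe _ _ hac).trans ih
  have hFi : Function.Injective F := by
    intro i k hik
    apply hf
    have h1 := hF i
    have h2 := hF k
    rw [← hik, ← hPc i k] at h2
    rcases hp : F i with (v | t) | c
    · rw [hp] at h1 h2
      exact Eq.trans h1 (Eq.symm h2)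
    · rw [hp] at h1 h2
      exact Eq.trans h1 (Eq.symm h2)
    · rw [hp] at h1 h2
      exact Eq.trans h1 (Eq.symm h2)
  refine hcx N C (fun a b => X.G.Adj a b ∧ ¬ X.red a b) X.att hRs hX.bc F hFi ?_
  intro i k hik
  obtain ⟨e0, e1, e2, e3⟩ := hblue i k hik
  rcases e1 with e1 | e1
  · exact (edge H x y W T kd δ X hn hδ hsp m _ _ _ _ _ _ (hF i) (hF k) e1 e0 e2).2
  · exact cg_symm H x y hRs
      (edge H x y W T kd δ X hn hδ hsp m _ _ _ _ _ _ (hF k) (hF i) e1 e0.symm e3).2

end MP3240C
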