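import Pool.Agent.Lib.MP_3240be_co.C4.Defs

set_option autoImplicit false

namespace MP3240C

open Finset MP3240T MP3240W
open MP3240N (Sig BigC CopyB Homog SP plc QN NoCut)
open Pool.Agent.Lib.MP_3240be_co.H36 (LocCol Blow)

theorem hmc_proof (hG : MP3240N.GrpStatement) : HmcStatement := by
  intro b g p B hp hB Γ K _ _ _
  obtain ⟨L, T, K', h1, h2⟩ := hG b g p B hp hB Γ Unit Unit K
  refine ⟨L, T, h1, ?_⟩
  intro ψ χ
  have hbig : ∀ a, BigC (fun e => CopyB B (T a) e) (K' a) := by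
    intro a
    obtain ⟨s, hs⟩ := h2.sel a (fun _ => ()) (fun _ => ())
    intro κ
    obtain ⟨e, he, hκ⟩ := hs κ
    exact ⟨e, he.1, hκ⟩
  obtain ⟨e, he⟩ := h2.hom (fun a e => CopyB B (T a) e) (fun a e h => h) hbig ψ χ
  exact ⟨e, fun a => ⟨(he a).1.1, (he a).1.2.1, (he a).2.1, (he a).2.2⟩⟩

end MP3240C
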