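import Pool.Agent.Lib.MP_3240be_co.C4.Defs
import Pool.Agent.Lib.MP_3240be_co.M3.Key

/-!
# MP_3240be_co, board c4_modules, row KWM (helper30)
-/

set_option autoImplicit false

namespace MP3240C

open Finset MP3240T MP3240W
open MP3240M (MData)
open Pool.Agent.Lib.MP_3240be_co.H36 (LocCol Blow)

/-- **Row KWM.** -/
theorem kwm_proof : KwmStatement := by
  intro n r h b₀ H D B V G c E η ρ hr hc hH hE hadj hη hB hBl hρ
  exact MP3240M.key_kew D hr hc hH hE hadj hη hB hBl hρ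

/-- `r + 1` or more parts, completely joined in colour `b`, contain `H`. -/
theorem parts_emb {n r h : ℕ} {H : SimpleGraph (Fin n)} (D : MData H r h) {V : Type}
    {G : SimpleGraph V} {c : V → V → Bool} {b : Bool} (hc : ∀ x y, c x y = c y x)
    (ι : Type) [Fintype ι] (hι : r + 1 ≤ Fintype.card ι) (Q : ι → Fin n → V)
    (hQ : ∀ i, Function.Injective (Q i))
    (hQQ : ∀ i i', i ≠ i' → ∀ u w, G.Adj (Q i u) (Q i' w) ∧ c (Q i u) (Q i' w) = b) :
    Emb H (cls G c b) := by
  classical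
  have h1 : Fintype.card (Option (Fin r)) ≤ Fintype.card ι := by
    rw [Fintype.card_option, Fintype.card_fin]
    exact hι
  obtain ⟨e⟩ := Function.Embedding.nonempty_of_card_le h1
  have hne : ∀ x y, D.κ x ≠ D.κ y → e (D.κ x) ≠ e (D.κ y) := fun x y hxy hh => hxy (e.injective hh)
  refine ⟨fun x => Q (e (D.κ x)) x, ?_, ?_⟩
  · intro x y hxy
    by_cases hκ : D.κ x = D.κ y
    · have hxy' : Q (e (D.κ x)) x = Q (e (D.κ y)) y := hxy
      rw [hκ] at hxy'
      exact hQ _ hxy'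
    · exact absurd hxy (hQQ _ _ (hne x y hκ) x y).1.ne
  · intro x y hxy
    obtain ⟨h2, h3⟩ := hQQ _ _ (hne x y (D.prop x y hxy)) x y
    exact ⟨h2, h3, (hc _ _).trans h3⟩

/-- Two completely joined blow-ups with `a + a' ≥ r + 1` parts in one colour contain `H`. -/
theorem two_blow {n r h : ℕ} {H : SimpleGraph (Fin n)} (D : MData H r h) {V : Type}
    {G : SimpleGraph V} {c : V → V → Bool} {b : Bool} (hc : ∀ x y, c x y = c y x)
    {ι ι' : Type} [Fintype ι] [Fintype ι'] (hι : r + 1 ≤ Fintype.card ι + Fintype.card ι')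
    (X : ι → Fin n → V) (Y : ι' → Fin n → V)
    (hX : ∀ i, Function.Injective (X i)) (hY : ∀ i, Function.Injective (Y i))
    (hXX : ∀ i i', i ≠ i' → ∀ u w, G.Adj (X i u) (X i' w) ∧ c (X i u) (X i' w) = b)
    (hYY : ∀ i i', i ≠ i' → ∀ u w, G.Adj (Y i u) (Y i' w) ∧ c (Y i u) (Y i' w) = b)
    (hXY : ∀ i i' u w, G.Adj (X i u) (Y i' w) ∧ c (X i u) (Y i' w) = b) :
    Emb H (cls G c b) := by
  refine parts_emb D hc (ι ⊕ ι') (by rw [Fintype.card_sum]; exact hι) (Sum.elim X Y) ?_ ?_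
  · rintro (i | i)
    · exact hX i
    · exact hY i
  · rintro (i | i) (i' | i') hii u w
    · exact hXX i i' (fun h0 => hii (congrArg Sum.inl h0)) u w
    · exact hXY i i' u w
    · obtain ⟨h1, h2⟩ := hXY i' i w u
      exact ⟨h1.symm, (hc _ _).trans h2⟩
    · exact hYY i i' (fun h0 => hii (congrArg Sum.inr h0)) u w

end MP3240C
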