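import Pool.Agent.Lib.MP_3240be_co.C4.Kwm

/-!
# MP_3240be_co, board c4_modules, row LNK (helper30): the links of a complex
-/

set_option autoImplicit false

namespace MP3240C

open Finset MP3240T MP3240W
open MP3240M (MData)
open Pool.Agent.Lib.MP_3240be_co.H36 (LocCol Blow)

/-- The first `a` parts of a blow-up, inside a host. -/
theorem lnk_blow {n b₀ a a' : ℕ} {B : SimpleGraph (Fin b₀)} {V : Type} {G : SimpleGraph V}
    {c : V → V → Bool} {b : Bool} {E : Fin b₀ → V} (hE : Function.Injective E)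
    (hB : ∀ x y, B.Adj x y → G.Adj (E x) (E y))
    (hBl : Blow B (fun x y => c (E x) (E y)) n a' b) (ha : a ≤ a') :
    ∃ X : Fin a → Fin n → Fin b₀, (∀ i, Function.Injective (fun u => E (X i u))) ∧
      ∀ i i', i ≠ i' → ∀ u w, G.Adj (E (X i u)) (E (X i' w)) ∧ c (E (X i u)) (E (X i' w)) = b := by
  obtain ⟨F, hF1, hF2⟩ := hBl
  refine ⟨fun i => F (Fin.castLE ha i), fun i => hE.comp (hF1 _), fun i i' hii u w => ?_⟩
  obtain ⟨h1, h2⟩ := hF2 (Fin.castLE ha i) (Fin.castLE ha i')
    (fun h0 => hii (Fin.castLE_injective ha h0)) u w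
  exact ⟨hB _ _ h1, h2⟩

/-- **Row LNK.** -/
theorem lnk_proof : LnkStatement := by
  intro n p h b₀ b₁ H D B B₁ V G c b E η ρ F ηF ρF ζ P hp hc hH hE hEadj hη hB hBl hρ hF hFadj hηF
    hB₁ hBlF hρF hEFadj hζ hP hPP hFP
  -- (F1)
  have e : Fin (p + 1) ≃ Option (Fin p) := finSuccEquiv p
  obtain ⟨b', hb1, hb2⟩ := kwm_proof n (p + 1) h b₀ H D B V G c (fun j => E (e j))
    (fun j j' => η (e j) (e j')) (fun j => ρ (e j)) (by omega) hc hH (fun j => hE _)
    (fun j j' x y hjj => hEadj _ _ x y (fun h0 => hjj (e.injective h0)))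
    (fun j j' x y hjj => hη _ _ x y (fun h0 => hjj (e.injective h0)))
    (fun j => hB _) (fun j => hBl _) (fun j => hρ _)
  have hη' : ∀ j j', j ≠ j' → η j j' = b' := by
    intro j j' hjj
    have h1 := hb1 (e.symm j) (e.symm j') (fun h0 => hjj (e.symm.injective h0))
    simpa using h1
  have hρ' : ∀ j, ρ j b' = 1 ∧ ρ j (!b') = p + 1 := by
    intro j
    have h1 := hb2 (e.symm j)
    simpa using h1
  by_cases hbb : b' = b
  · exfalso
    subst hbb
    -- (i)
    have h1 : ∀ j, ρF j b' ≤ 1 := by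
      intro j
      by_contra hlt
      push Not at hlt
      obtain ⟨X, hX1, hX2⟩ := lnk_blow (hF j) (hB₁ j) (hBlF j b') (a := 2) hlt
      refine hH b' (two_blow D hc (ι := Fin 2) (ι' := {j' : Fin (p + 1) // j' ≠ j}) ?_
        (fun i u => F j (X i u)) (fun j' => P j'.1) hX1 (fun j' => hP _) hX2
        (fun j' j'' hjj u w => hPP _ _ u w (fun h0 => hjj (Subtype.ext h0)))
        (fun i j' u w => hFP j j'.1 _ _ (Ne.symm j'.2)))
      rw [Fintype.card_fin, Fintype.card_subtype_compl, Fintype.card_fin,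
        Fintype.card_subtype_eq]
      omega
    have h2 : ∀ j, p ≤ ρF j (!b') := by
      intro j
      have h3 := h1 j
      have h4 := hρF j
      cases b' with
      | true =>
        simp only [Bool.not_true]
        omega
      | false =>
        simp only [Bool.not_false]
        omega
    have hXF : ∀ j, ∃ X : Fin p → Fin n → Fin b₁,
        (∀ i, Function.Injective (fun u => F j (X i u))) ∧ ∀ i i', i ≠ i' → ∀ u w,
          G.Adj (F j (X i u)) (F j (X i' w)) ∧ c (F j (X i u)) (F j (X i' w)) = !b' :=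
      fun j => lnk_blow (hF j) (hB₁ j) (hBlF j (!b')) (h2 j)
    choose X hX1 hX2 using hXF
    -- (ii)
    have h3 : ∀ j j', j ≠ j' → ηF j j' = b' := by
      intro j j' hjj
      by_contra hne
      have hne' : ηF j j' = !b' := by
        revert hne
        cases ηF j j' <;> cases b' <;> simp
      refine hH (!b') (two_blow D hc (ι := Fin p) (ι' := Fin p) ?_ (fun i u => F j (X j i u))
        (fun i u => F j' (X j' i u)) (hX1 j) (hX1 j') (hX2 j) (hX2 j')
        (fun i i' u w => ⟨hFadj j j' _ _ hjj, (hηF j j' _ _ hjj).trans hne'⟩))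
      rw [Fintype.card_fin]
      omega
    -- the window `none`
    obtain ⟨Y, hY1, hY2⟩ := lnk_blow (hE none) (hB none) (hBl none (!b')) (a := p + 1)
      (by rw [(hρ' none).2])
    -- (iii)
    have h4 : ∀ j, ζ j = b' := by
      intro j
      by_contra hne
      have hne' : ζ j = !b' := by
        revert hne
        cases ζ j <;> cases b' <;> simp
      refine hH (!b') (two_blow D hc (ι := Fin (p + 1)) (ι' := Fin p) ?_
        (fun i u => E none (Y i u)) (fun i u => F j (X j i u)) hY1 (hX1 j) hY2 (hX2 j)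
        (fun i i' u w => ⟨hEFadj j _ _, (hζ j _ _).trans hne'⟩))
      rw [Fintype.card_fin, Fintype.card_fin]
      omega
    -- (iv)
    refine hH b' (two_blow D hc (ι := Unit) (ι' := Fin (p + 1)) ?_
      (fun _ u => E none (Y 0 u)) (fun j u => F j (X j ⟨0, by omega⟩ u)) (fun _ => hY1 0)
      (fun j => hX1 j _) (fun i i' hii => absurd (Subsingleton.elim i i') hii)
      (fun j j' hjj u w => ⟨hFadj j j' _ _ hjj, (hηF j j' _ _ hjj).trans (h3 j j' hjj)⟩)
      (fun _ j u w => ⟨hEFadj j _ _, (hζ j _ _).trans (h4 j)⟩))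
    rw [Fintype.card_unit, Fintype.card_fin]
    omega
  · have hbb' : b' = !b := by
      revert hbb
      cases b' <;> cases b <;> simp
    subst hbb'
    refine ⟨hη', fun j => ?_⟩
    have h1 := (hρ' j).2
    rwa [Bool.not_not] at h1

end MP3240C
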