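import Pool.Agent.Lib.MP_3240be_co.C4.Defs
import Pool.Agent.Lib.MP_3240be_co.H30.Cpt

/-!
# MP_3240be_co, Theorem C4, row MNC
-/

set_option autoImplicit false

namespace MP3240C

open Finset MP3240T MP3240W
open MP3240N (Sig BigC CopyB Homog SP plc QN NoCut)
open MP3240M (MData twAdj)
open Pool.Agent.Lib.MP_3240be_co.H36 (LocCol Blow)
open Pool.Agent.Lib.MP_3240be_co.H36.Chrom (Sparse)

/-- A graph with two blow-ups has a vertex. -/
theorem mnc_pos {n b r : ℕ} (x : Fin n) (B : SimpleGraph (Fin b))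
    (hBc : ∀ c : Fin b → Fin b → Bool, (∀ x y, c x y = c y x) →
      ∃ A A', r + 1 ≤ A + A' ∧ Blow B c n A true ∧ Blow B c n A' false) : 1 ≤ b := by
  obtain ⟨A, A', h1, h3, h4⟩ := hBc (fun _ _ => true) (fun _ _ => rfl)
  have : 0 < A ∨ 0 < A' := by omega
  rcases this with hA0 | hA0
  · obtain ⟨F, _⟩ := h3
    have := (F ⟨0, hA0⟩ x).isLt
    omega
  · obtain ⟨F, _⟩ := h4
    have := (F ⟨0, hA0⟩ x).isLt
    omega

theorem mnc_proof (hA : ArcStatement) (hN : NfcStatement) (hG : MP3240N.GrpStatement)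
    (hB : MP3240N.HbStatement) (hK : MP3240N.KwStatement) (hM : HmcStatement)
    (hR : RarStatement) (hC : CxgStatement) (hH : HypStatement) : MncStatement := by
  classical
  intro n n' p h H H' x y D hp hxy hcx hsig hconn h2 hconn' hemb hnemb
  have hn2 : 2 ≤ n := by
    have h1 := x.isLt
    have h2 := y.isLt
    have h3 : x.val ≠ y.val := fun e => hxy.ne (Fin.ext e)
    omega
  -- the graphs of the special worlds, of the worlds and of the windows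
  obtain ⟨b₁, B₁, hB₁l, hB₁c⟩ := hB n p (2 * n ^ 2) (by omega)
  have hb₁ : 1 ≤ b₁ := mnc_pos x B₁ hB₁c
  obtain ⟨b₀, B, hBl, hBc⟩ := hB n (p + 1) (2 * n ^ 2) (by omega)
  have hb₀ : 1 ≤ b₀ := mnc_pos x B hBc
  -- the Ramsey number
  obtain ⟨N₀, hN₀, hRam⟩ := hR n (p + 1) (Fin n × Bool) (Fin p → Bool)
  -- the kinds
  haveI : Finite (ColC n h N₀) := by
    unfold ColC
    infer_instance
  haveI : Nonempty (ColC n h N₀) :=
    ⟨(fun _ => true, fun _ => true, fun _ _ _ _ _ => true)⟩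
  obtain ⟨q, W, hWl, hWc⟩ := hK (p + 1) n (ColC n h N₀) (by omega)
  have hq : 0 < q := by
    obtain ⟨e, _⟩ := hWc (fun _ => (fun _ => true, fun _ => true, fun _ _ _ _ _ => true))
    have := (e ⟨0, by omega⟩).isLt
    omega
  -- the special worlds and the windows
  obtain ⟨LQ, TQ, hTQl, hTQc⟩ := hM b₁ n p B₁ hp hB₁l (Fin q) Bool
  obtain ⟨LR, TR, hTRl, hTRc⟩ := hM b₀ n (p + 1) B (by omega) hBl (Option (Fin p))
    ((Fin q → Fin LQ → Bool) × (Fin (q * N₀) → Bool))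
  have hX : CxGood (cx W TR TQ) W n p := hC n p q LR LQ W TR TQ hTRl hTQl
  -- the graphs of the worlds
  obtain ⟨sp, hsp1, hsp2⟩ : ∃ sp, n + 1 ≤ sp ∧ (p + 1) * b₁ ≤ sp :=
    ⟨(p + 1) * b₁ + n + 1, by omega, by omega⟩
  obtain ⟨L, T, K', hTl, hHo⟩ := hG b₀ n (p + 1) B (by omega) hBl (Bool × Fin q) (QN (p + 1) h)
    (Fin h → Bool) (KC h q sp)
  have hL : 0 < L := by
    obtain ⟨s, hs⟩ := hHo.sel (true, ⟨0, hq⟩) (fun _ _ => true)
      (fun _ => (fun _ => true, fun _ => 0))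
    obtain ⟨k₀⟩ := hHo.ne (true, ⟨0, hq⟩)
    obtain ⟨e, _⟩ := hs (fun _ => k₀)
    have := (e ⟨0, by omega⟩).isLt
    omega
  have hN0 : 0 < q * N₀ := Nat.mul_pos hq (by omega)
  haveI : Nonempty (Fin L) := ⟨⟨0, hL⟩⟩
  obtain ⟨I, M, hI, hMf, δ, hδ, hspa, hbad⟩ := hH (n * n) (q * n)
    (SP n (q * N₀) q L) (Fin q → QN (p + 1) h × Fin L)
    ((x, x, ⟨0, hN0⟩, x), fun _ => ⟨0, hL⟩) ((y, x, ⟨0, hN0⟩, x), fun _ => ⟨0, hL⟩)
    (fun e => hxy.ne (congrArg (fun t : SP n (q * N₀) q L => t.1.1) e))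
  exact cpt_proof _ (FC (h := h) H x y W T
      (fun ν : Fin (q * N₀) => (finProdFinEquiv.symm ν).1) δ (cx W TR TQ)) n n' H H'
    (hA n h (q * N₀) q L p N₀ b₀ b₁ LR LQ sp H D x y W T K'
      (fun ν => (finProdFinEquiv.symm ν).1) (fun w a => finProdFinEquiv (w, a)) I M δ TR TQ B B₁
      hp hb₀ hb₁ hN₀ hsp1 hsp2 hxy (fun w a => by simp) (fun w a a' haa => by simpa using haa)
      hRam hWc hHo hTRc hTQc hBc hB₁c hδ hspa hbad)
    (hN n n' h (q * N₀) q L p H H' x y W T _ I M _ δ (cx W TR TQ) hsig hn2 hxy h2 hconn hcx hWl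
      hX hTl hδ hspa hconn' hemb hnemb)

end MP3240C
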