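import Pool.Agent.Lib.MP_3240be_co.C4.Defs

/-!
# MP_3240be_co, board c4_modules, row NFC: the host is not Ramsey for `H'`
-/

set_option autoImplicit false

namespace MP3240C

open Finset MP3240T MP3240W
open MP3240N (Sig BigC CopyB Homog SP plc QN NoCut)
open MP3240M (MData twAdj)
open Pool.Agent.Lib.MP_3240be_co.H36 (LocCol Blow)
open Pool.Agent.Lib.MP_3240be_co.H36.Chrom (Sparse)

variable {n h N q L : ℕ} {I M C : Type}

theorem nfc_cC_symm (W : SimpleGraph (Fin q)) (X : Cx q C) (a b : VC n h q L I M C) :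
    cC W X a b = cC W X b a := by
  unfold cC
  exact decide_eq_decide.2 or_comm

/-- The red neighbours of the vertices of `z m ps` lie in `z m ps`, and they are neighbours in
`H`. -/
theorem nfc_red_z {H : SimpleGraph (Fin n)} {x y : Fin n} {W : SimpleGraph (Fin q)}
    {T : Bool × Fin q → SimpleGraph (Fin L)} {kd : Fin N → Fin q} {δ : M → SP n N q L → I}
    {X : Cx q C} {m : M} {ps : Fin q → Fin L} {v : Fin n} {w : VC n h q L I M C}
    (hw : (cls (FC H x y W T kd δ X) (cC W X) true).Adj (.z m ps v) w) :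
    ∃ v', w = .z m ps v' ∧ H.Adj v v' := by
  classical
  obtain ⟨h1, h2, -⟩ := hw
  unfold cC at h2
  rw [decide_eq_true_eq] at h2
  have h3 : ∃ m' ps' v', w = .z m' ps' v' := by
    rcases h2 with h2 | h2 <;> cases w <;> simp only [redC] at h2 <;>
      first | exact h2.elim | exact ⟨_, _, _, rfl⟩
  obtain ⟨m', ps', v', rfl⟩ := h3
  unfold FC at h1
  rw [SimpleGraph.fromRel_adj] at h1
  rcases h1.2 with ⟨e, e', h4⟩ | ⟨e, e', h4⟩
  · subst e
    subst e'
    exact ⟨v', rfl, h4⟩
  · subst e
    subst e'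
    exact ⟨v', rfl, h4.symm⟩

/-- Row NFM. -/
theorem nfc_proof (hR : RdcStatement) (hB : BlcStatement) : NfcStatement := by
  intro n n' h N q L p H H' x y W T kd I M C δ X hS hn hxy hT hH hCF hW hX hTa hδ hsp hH'
    hHH' hH'H hArr
  obtain ⟨b, f, hf, hf'⟩ := hArr (cC W X) (nfc_cC_symm W X)
  obtain ⟨e, he, he'⟩ := hHH'
  cases b with
  | false =>
    exact hB n h N q L p H x y W T kd I M C δ X hS hn hxy hT hH hCF hX hTa hδ hsp
      ⟨fun i => f (e i), fun i j hij => he (hf hij), fun i j hij => hf' _ _ (he' _ _ hij)⟩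
  | true =>
    obtain ⟨m, ps, hm⟩ := hR n h N q L p H x y W T kd I M C δ X hS hH hW hX
      (fun i => f (e i)) (fun i j hij => he (hf hij)) (fun i j hij => hf' _ _ (he' _ _ hij))
    have key : ∀ u u' : Fin n', H'.Walk u u' → (∃ v, f u = .z m ps v) → ∃ v, f u' = .z m ps v := by
      intro u u' p
      induction p with
      | nil => exact id
      | cons hadj _ ih =>
        rintro ⟨v, hv⟩
        apply ih
        have h1 := hf' _ _ hadj
        rw [hv] at h1
        obtain ⟨v', h2, -⟩ := nfc_red_z h1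
        exact ⟨v', h2⟩
    have hall : ∀ u, ∃ v, f u = .z m ps v := by
      intro u
      obtain ⟨p⟩ := hH'.preconnected (e x) u
      exact key _ _ p (hm x)
    choose v hv using hall
    refine hH'H ⟨v, ?_, ?_⟩
    · intro u u' huu
      apply hf
      rw [hv u, hv u', huu]
    · intro u u' huu
      have h1 := hf' _ _ huu
      rw [hv u, hv u'] at h1
      obtain ⟨v', h2, h3⟩ := nfc_red_z h1
      injection h2 with _ _ h4
      rw [h4]
      exact h3

end MP3240C
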