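import Pool.Agent.Lib.MP_3240be_co.C4.Defs
import Pool.Agent.Lib.MP_3240be_co.M3.Ram

/-!
# Board c4_modules, row RAR: pigeon hole and the bipartite Ramsey theorem for all pairs of copies
-/

set_option autoImplicit false

namespace MP3240C

namespace Rar

/-- The bipartite Ramsey theorem. -/
theorem bip (n : ℕ) : ∃ N, n ≤ N ∧ ∀ η : Fin N → Fin N → Bool,
    ∃ (e e' : Fin n → Fin N) (β : Bool), Function.Injective e ∧ Function.Injective e' ∧
      ∀ a a', η (e a) (e' a') = β := by
  obtain ⟨N, -, hN⟩ := MP3240M.ram_proof n Unit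
  have key : ∀ η : Fin N → Fin N → Bool, ∃ (e e' : Fin n → Fin N) (β : Bool),
      Function.Injective e ∧ Function.Injective e' ∧ ∀ a a', η (e a) (e' a') = β := by
    intro η
    obtain ⟨e, e', k, β, h1, h2, -, -, h3⟩ := hN (fun _ => ()) η
    exact ⟨e, e', β, h1, h2, h3⟩
  refine ⟨N, ?_, key⟩
  obtain ⟨e, -, -, he, -, -⟩ := key fun _ _ => true
  have h1 := Fintype.card_le_of_injective e he
  rwa [Fintype.card_fin, Fintype.card_fin] at h1

/-- All pairs of copies of the set `P`. -/
theorem pairs (n r : ℕ) (P : Finset (Fin r × Fin r)) : ∃ N, n ≤ N ∧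
    ∀ η : Fin r → Fin r → Fin N → Fin N → Bool,
      ∃ (e : Fin r → Fin n → Fin N) (β : Fin r → Fin r → Bool),
        (∀ j, Function.Injective (e j)) ∧ ∀ p ∈ P, p.1 ≠ p.2 → ∀ a a',
          η p.1 p.2 (e p.1 a) (e p.2 a') = β p.1 p.2 := by
  classical
  induction P using Finset.induction_on with
  | empty =>
    exact ⟨n, le_rfl, fun η => ⟨fun _ a => a, fun _ _ => true, fun _ => Function.injective_id,
      fun p hp => absurd hp (Finset.notMem_empty p)⟩⟩
  | insert p P hp ih =>
    obtain ⟨N0, hN0, h0⟩ := ih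
    obtain ⟨N1, hN1, h1⟩ := bip N0
    refine ⟨N1, hN0.trans hN1, ?_⟩
    intro η
    obtain ⟨d, d', β0, hd, hd', hβ0⟩ := h1 (η p.1 p.2)
    let D : Fin r → Fin N0 → Fin N1 := fun j =>
      if j = p.1 then d else if j = p.2 then d' else Fin.castLE hN1
    have hD : ∀ j, Function.Injective (D j) := by
      intro j
      show Function.Injective (if j = p.1 then d else if j = p.2 then d' else Fin.castLE hN1)
      split_ifs
      · exact hd
      · exact hd'
      · exact Fin.castLE_injective hN1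
    obtain ⟨e, β, he, hβ⟩ := h0 (fun j j' a a' => η j j' (D j a) (D j' a'))
    refine ⟨fun j a => D j (e j a), fun j j' => if (j, j') = p then β0 else β j j',
      fun j => (hD j).comp (he j), ?_⟩
    intro p' hp' hne a a'
    by_cases hpp : p' = p
    · subst hpp
      show η p'.1 p'.2 (D p'.1 (e p'.1 a)) (D p'.2 (e p'.2 a')) = if (p'.1, p'.2) = p' then β0
        else β p'.1 p'.2
      have e1 : D p'.1 = d := if_pos rfl
      have e2 : D p'.2 = d' := by
        show (if p'.2 = p'.1 then d else if p'.2 = p'.2 then d' else Fin.castLE hN1) = d'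
        rw [if_neg (Ne.symm hne), if_pos rfl]
      rw [if_pos (Prod.mk.eta), e1, e2]
      exact hβ0 _ _
    · show η p'.1 p'.2 (D p'.1 (e p'.1 a)) (D p'.2 (e p'.2 a')) = if (p'.1, p'.2) = p then β0
        else β p'.1 p'.2
      rw [if_neg (fun h2 => hpp ((Prod.mk.eta (p := p')).symm.trans h2))]
      exact hβ p' ((Finset.mem_insert.1 hp').resolve_left hpp) hne a a'

end Rar

/-- Row RAR. -/
theorem rar_proof : RarStatement := by
  intro n r K₁ K hK₁ hK
  classical
  haveI : Fintype K₁ := Fintype.ofFinite K₁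
  haveI : Fintype K := Fintype.ofFinite K
  obtain ⟨N2, -, h2⟩ := Rar.pairs n r Finset.univ
  refine ⟨Fintype.card (K₁ × (Fin r → K)) * N2 + 1, Nat.le_add_left 1 _, ?_⟩
  intro g f η
  haveI : Nonempty (K₁ × (Fin r → K)) :=
    ⟨(g ⟨0, Nat.succ_pos _⟩, fun j => f j ⟨0, Nat.succ_pos _⟩)⟩
  obtain ⟨y, e0, he0, hy⟩ := MP3240M.Ram.pig (A := Fin (Fintype.card (K₁ × (Fin r → K)) * N2 + 1))
    (B := K₁ × (Fin r → K)) N2 (fun x => (g x, fun j => f j x)) (by
      rw [Fintype.card_fin]
      exact Nat.le_succ _)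
  obtain ⟨e, β, he, hβ⟩ := h2 (fun j j' a a' => η j j' (e0 a) (e0 a'))
  refine ⟨fun j a => e0 (e j a), y.1, y.2, β, fun j => he0.comp (he j), fun j a => ?_,
    fun j a => ?_, fun j j' hjj a a' => ?_⟩
  · exact congrArg Prod.fst (hy (e j a))
  · exact congrFun (congrArg Prod.snd (hy (e j a))) j
  · exact hβ (j, j') (Finset.mem_univ _) hjj a a'

end MP3240C
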