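import Pool.Agent.Lib.MP_3240be_co.C4.Defs

/-!
# Board c4_modules, row RDC: the red copies of `H` are the sets `z m ps` (helper60)
-/

set_option autoImplicit false

namespace MP3240C

open Finset MP3240T MP3240W
open MP3240N (Sig SP)
open Pool.Agent.Lib.MP_3240be_co.H36 (LocCol)

namespace Rdc

/-- Labels of the red components. -/
inductive Lb (n q L : ℕ) (M : Type) : Type
  | w0 : Lb n q L M
  | zz : M → (Fin q → Fin L) → Lb n q L M
  | gg : M → (Fin q → Fin L) → Ty n → Lb n q L M

/-- The label of a vertex. -/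
def lbl {n h q L : ℕ} {I M C : Type} (X : Cx q C) : VC n h q L I M C → Lb n q L M
  | .u _ => .w0
  | .c _ _ _ => .w0
  | .l _ _ _ => .w0
  | .z m ps _ => .zz m ps
  | .g m ps σ a => match X.kd a with
    | some _ => .w0
    | none => .gg m ps σ

/-- The kind of a vertex. -/
def knd {n h q L : ℕ} {I M C : Type} (X : Cx q C) : VC n h q L I M C → Option (Fin q)
  | .u _ => none
  | .c _ w _ => some w
  | .l _ w _ => some w
  | .z _ _ _ => none
  | .g _ _ _ a => X.kd a

theorem lbl_g_none {n h q L : ℕ} {I M C : Type} {X : Cx q C} {m : M} {ps : Fin q → Fin L}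
    {σ : Ty n} {a : C} (ha : X.kd a = none) :
    lbl (h := h) (I := I) X (.g m ps σ a) = .gg m ps σ := by
  show (match X.kd a with
    | some _ => Lb.w0
    | none => .gg m ps σ) = .gg m ps σ
  rw [ha]

theorem lbl_g_some {n h q L : ℕ} {I M C : Type} {X : Cx q C} {m : M} {ps : Fin q → Fin L}
    {σ : Ty n} {a : C} {w : Fin q} (ha : X.kd a = some w) :
    lbl (h := h) (I := I) X (.g m ps σ a) = .w0 := by
  show (match X.kd a with
    | some _ => Lb.w0
    | none => .gg m ps σ) = .w0
  rw [ha]

theorem kd_of_w0 {n h q L : ℕ} {I M C : Type} {X : Cx q C} {m : M} {ps : Fin q → Fin L}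
    {σ : Ty n} {a : C} (ha : lbl (h := h) (I := I) X (.g m ps σ a) = .w0) :
    ∃ w, X.kd a = some w := by
  cases hk : X.kd a with
  | none => rw [lbl_g_none hk] at ha; cases ha
  | some w => exact ⟨w, rfl⟩

theorem lbl_red {n h N q L p : ℕ} {I M C : Type} {H : SimpleGraph (Fin n)} {x y : Fin n}
    {W : SimpleGraph (Fin q)} {T : Bool × Fin q → SimpleGraph (Fin L)} {kd : Fin N → Fin q}
    {δ : M → SP n N q L → I} {X : Cx q C} (hX : CxGood X W n p) (a b : VC n h q L I M C)
    (h1 : redC W X a b)
    (h2 : relC H x y W T kd δ X a b ∨ relC H x y W T kd δ X b a) : lbl X a = lbl X b := by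
  rcases a with _ | _ | _ | ⟨m, ps, v⟩ | ⟨m, ps, σ, a⟩ <;>
    rcases b with _ | _ | _ | ⟨m', ps', v'⟩ | ⟨m', ps', σ', a'⟩ <;>
    first
    | rfl
    | exact h1.elim
    | (obtain ⟨h3, h4, -⟩ | ⟨h3, h4, -⟩ := h2
       · show Lb.zz m ps = Lb.zz m' ps'
         rw [h3, h4]
       · show Lb.zz m ps = Lb.zz m' ps'
         rw [h3, h4])
    | (obtain ⟨w', h3, -⟩ := h1
       exact lbl_g_some h3)
    | skip
  have h3 : m = m' ∧ ps = ps' ∧ σ = σ' ∧ X.G.Adj a a' := by
    obtain ⟨h3, h4, h5, h6⟩ | ⟨h3, h4, h5, h6⟩ := h2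
    · exact ⟨h3, h4, h5, h6⟩
    · exact ⟨h3.symm, h4.symm, h5.symm, h6.symm⟩
  obtain ⟨rfl, rfl, rfl, h6⟩ := h3
  have hr : X.red a a' := h1
  cases hk : X.kd a with
  | none =>
    cases hk' : X.kd a' with
    | none => rw [lbl_g_none hk, lbl_g_none hk']
    | some w => exact absurd (hX.sym _ _ hr) (hX.kn _ _ _ hk' hk h6.symm)
  | some w =>
    cases hk' : X.kd a' with
    | none => exact absurd hr (hX.kn _ _ _ hk hk' h6)
    | some w' => rw [lbl_g_some hk, lbl_g_some hk']

theorem red_of {n h N q L : ℕ} {I M C : Type} {H : SimpleGraph (Fin n)} {x y : Fin n}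
    {W : SimpleGraph (Fin q)} {T : Bool × Fin q → SimpleGraph (Fin L)} {kd : Fin N → Fin q}
    {δ : M → SP n N q L → I} {X : Cx q C} {a b : VC n h q L I M C}
    (hab : (cls (FC H x y W T kd δ X) (cC W X) true).Adj a b) :
    (redC W X a b ∨ redC W X b a) ∧
      (relC H x y W T kd δ X a b ∨ relC H x y W T kd δ X b a) := by
  obtain ⟨h1, h2, -⟩ := hab
  refine ⟨?_, ?_⟩
  · unfold cC at h2
    simpa using h2
  · unfold FC at h1
    rw [SimpleGraph.fromRel_adj] at h1
    exact h1.2

theorem lbl_adj {n h N q L p : ℕ} {I M C : Type} {H : SimpleGraph (Fin n)} {x y : Fin n}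
    {W : SimpleGraph (Fin q)} {T : Bool × Fin q → SimpleGraph (Fin L)} {kd : Fin N → Fin q}
    {δ : M → SP n N q L → I} {X : Cx q C} (hX : CxGood X W n p) {a b : VC n h q L I M C}
    (hab : (cls (FC H x y W T kd δ X) (cC W X) true).Adj a b) : lbl X a = lbl X b := by
  obtain ⟨h1 | h1, h2⟩ := red_of hab
  · exact lbl_red hX a b h1 h2
  · exact (lbl_red hX b a h1 h2.symm).symm

theorem knd_red {n h N q L p : ℕ} {I M C : Type} {H : SimpleGraph (Fin n)} {x y : Fin n}
    {W : SimpleGraph (Fin q)} {T : Bool × Fin q → SimpleGraph (Fin L)} {kd : Fin N → Fin q}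
    {δ : M → SP n N q L → I} {X : Cx q C} (hX : CxGood X W n p) (a b : VC n h q L I M C)
    (ha : lbl X a = .w0) (hb : lbl X b = .w0) (h1 : redC W X a b)
    (h2 : relC H x y W T kd δ X a b ∨ relC H x y W T kd δ X b a) :
    (knd X a = none ∧ ∃ w, knd X b = some w) ∨
      ∃ w w', knd X a = some w ∧ knd X b = some w' ∧ W.Adj w w' := by
  rcases a with _ | ⟨i, w, k⟩ | ⟨i, w, k⟩ | ⟨m, ps, v⟩ | ⟨m, ps, σ, a⟩ <;>
    rcases b with _ | ⟨i', w', k'⟩ | ⟨i', w', k'⟩ | ⟨m', ps', v'⟩ | ⟨m', ps', σ', a'⟩ <;>
    first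
    | exact h1.elim
    | exact Or.inl ⟨rfl, _, rfl⟩
    | exact Or.inr ⟨_, _, rfl, rfl, h1⟩
    | (obtain ⟨w'', h3, h4⟩ := h1
       exact Or.inr ⟨_, _, h3, rfl, h4⟩)
    | (cases ha)
    | skip
  obtain ⟨i, hi⟩ := kd_of_w0 ha
  obtain ⟨j, hj⟩ := kd_of_w0 hb
  have h3 : X.G.Adj a a' := by
    obtain ⟨-, -, -, h6⟩ | ⟨-, -, -, h6⟩ := h2
    · exact h6
    · exact h6.symm
  exact Or.inr ⟨i, j, hi, hj, hX.kk _ _ _ _ hi hj h3 h1⟩

theorem knd_none {n h q L : ℕ} {I M C : Type} {X : Cx q C} (a : VC n h q L I M C)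
    (ha : lbl X a = .w0) (h1 : knd X a = none) : ∃ i, a = .u i := by
  rcases a with i | ⟨i, w, k⟩ | ⟨i, w, k⟩ | ⟨m, ps, v⟩ | ⟨m, ps, σ, a⟩
  · exact ⟨i, rfl⟩
  · exact absurd h1 (by simp [knd])
  · exact absurd h1 (by simp [knd])
  · exact absurd ha (by simp [lbl])
  · obtain ⟨w, hw⟩ := kd_of_w0 ha
    have h2 : X.kd a = none := h1
    rw [hw] at h2
    cases h2

/-- A function that is constant along the edges of a connected graph is constant. -/
theorem const_of {n : ℕ} {H : SimpleGraph (Fin n)} (hc : H.Connected) {L : Type} (g : Fin n → L)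
    (hg : ∀ i j, H.Adj i j → g i = g j) (i j : Fin n) : g i = g j := by
  obtain ⟨p⟩ := hc.preconnected i j
  induction p with
  | nil => rfl
  | cons hadj _ ih => exact (hg _ _ hadj).trans ih

/-- At most `h` vertices are mapped to common hubs. -/
theorem card_u {n h q L : ℕ} {I M C : Type} (f : Fin n → VC n h q L I M C)
    (hf : Function.Injective f) (S : Finset (Fin n)) (hS : ∀ i ∈ S, ∃ k, f i = .u k) :
    S.card ≤ h := by
  classical
  by_cases hh : h = 0
  · subst hh
    rw [Nat.le_zero, Finset.card_eq_zero, Finset.eq_empty_iff_forall_notMem]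
    intro i hi
    obtain ⟨k, -⟩ := hS i hi
    exact k.elim0
  · have h0 : 0 < h := Nat.pos_of_ne_zero hh
    let φ : VC n h q L I M C → Fin h := fun a => match a with
      | .u i => i
      | _ => ⟨0, h0⟩
    calc S.card ≤ (univ : Finset (Fin h)).card := by
          refine Finset.card_le_card_of_injOn (fun i => φ (f i)) (fun _ _ => Finset.mem_univ _) ?_
          intro i hi j hj hij
          obtain ⟨k, hk⟩ := hS i hi
          obtain ⟨k', hk'⟩ := hS j hj
          apply hf
          have h5 : φ (f i) = φ (f j) := hij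
          rw [hk, hk'] at h5
          have h6 : k = k' := h5
          rw [hk, hk', h6]
      _ = h := by rw [Finset.card_univ, Fintype.card_fin]

end Rdc

open Rdc in
/-- Row RDC. -/
theorem rdc_proof : RdcStatement := by
  classical
  intro n h N q L p H x y W T kd I M C δ X hsig hc hW hX f hinj hf
  obtain ⟨i0⟩ := hc.nonempty
  have hconst : ∀ i j, lbl X (f i) = lbl X (f j) :=
    const_of hc (fun i => lbl X (f i)) (fun i j hij => lbl_adj hX (hf i j hij))
  cases hl : lbl X (f i0) with
  | w0 =>
    exfalso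
    have hl' : ∀ i, lbl X (f i) = .w0 := fun i => (hconst i i0).trans hl
    -- the kinds that occur
    let Y : Finset (Fin q) := univ.filter (fun w => ∃ i, knd X (f i) = some w)
    have hY : ∀ i w, knd X (f i) = some w → w ∈ Y := fun i w hi =>
      Finset.mem_filter.2 ⟨Finset.mem_univ _, i, hi⟩
    have hY' : ∀ w ∈ Y, ∃ i, knd X (f i) = some w := fun w hw => (Finset.mem_filter.1 hw).2
    have hYcard : Y.card ≤ n := by
      have : Nonempty (Fin n) := ⟨i0⟩
      choose! ix hix using hY'
      calc Y.card ≤ (univ : Finset (Fin n)).card := by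
            refine Finset.card_le_card_of_injOn ix (fun _ _ => Finset.mem_univ _) ?_
            intro w hw w' hw' e
            have h1 := hix w hw
            have h2 := hix w' hw'
            have e' : ix w = ix w' := e
            rw [e', h2] at h1
            exact (Option.some.inj h1).symm
        _ = n := by rw [Finset.card_univ, Fintype.card_fin]
    obtain ⟨g, hg, hgX⟩ := hW Y hYcard
    let κ : Fin n → Option (Fin (p + 1)) := fun i => (knd X (f i)).map (fun w => ⟨g w, hg w⟩)
    have hκ : ∀ i j, H.Adj i j → κ i ≠ κ j := by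
      have key : ∀ i j, redC W X (f i) (f j) → (relC H x y W T kd δ X (f i) (f j) ∨
          relC H x y W T kd δ X (f j) (f i)) → κ i ≠ κ j := by
        intro i j hr hr'
        obtain ⟨h1, w, h2⟩ | ⟨w, w', h1, h2, h3⟩ := knd_red hX (f i) (f j) (hl' i) (hl' j) hr hr'
        · show (knd X (f i)).map _ ≠ (knd X (f j)).map _
          rw [h1, h2]
          simp
        · show (knd X (f i)).map _ ≠ (knd X (f j)).map _
          rw [h1, h2]
          intro h4
          have h5 : g w = g w' := by simpa using h4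
          exact hgX w (hY i w h1) w' (hY j w' h2) h3 h5
      intro i j hij
      obtain ⟨h1 | h1, h2⟩ := red_of (hf i j hij)
      · exact key i j h1 h2
      · exact (key j i h1 h2.symm).symm
    have h1 := hsig κ hκ
    have h2 : (univ.filter (fun x => κ x = none)).card ≤ h := by
      refine card_u f hinj _ ?_
      intro i hi
      have h3 : κ i = none := (Finset.mem_filter.1 hi).2
      have h4 : knd X (f i) = none := by
        have h5 : (knd X (f i)).map (fun w => (⟨g w, hg w⟩ : Fin (p + 1))) = none := h3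
        simpa using h5
      exact knd_none (f i) (hl' i) h4
    omega
  | zz m ps =>
    refine ⟨m, ps, fun i => ?_⟩
    have hi : lbl X (f i) = .zz m ps := (hconst i i0).trans hl
    generalize f i = a at hi
    rcases a with _ | _ | _ | ⟨m', ps', v'⟩ | ⟨m', ps', σ', a'⟩
    · cases hi
    · cases hi
    · cases hi
    · cases hi
      exact ⟨v', rfl⟩
    · cases hk : X.kd a' with
      | none => rw [lbl_g_none hk] at hi; cases hi
      | some w => rw [lbl_g_some hk] at hi; cases hi
  | gg m ps σ =>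
    exfalso
    have hg : ∀ i, ∃ a, f i = .g m ps σ a ∧ X.kd a = none := by
      intro i
      have hi : lbl X (f i) = .gg m ps σ := (hconst i i0).trans hl
      generalize f i = a at hi
      rcases a with _ | _ | _ | ⟨m', ps', v'⟩ | ⟨m', ps', σ', a'⟩
      · cases hi
      · cases hi
      · cases hi
      · cases hi
      · cases hk : X.kd a' with
        | none =>
          rw [lbl_g_none hk] at hi
          cases hi
          exact ⟨a', rfl, hk⟩
        | some w => rw [lbl_g_some hk] at hi; cases hi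
    choose a ha hka using hg
    obtain ⟨κ, hκ⟩ := hX.rc (univ.image a) (Finset.card_image_le.trans (by simp))
    have h1 := hsig (fun i => some (κ (a i))) (by
      intro i j hij h2
      obtain ⟨h3, h4⟩ := red_of (hf i j hij)
      rw [ha i, ha j] at h3 h4
      have h5 : X.red (a i) (a j) := by
        obtain h3 | h3 := h3
        · exact h3
        · exact hX.sym _ _ h3
      have h6 : X.G.Adj (a i) (a j) := by
        obtain ⟨-, -, -, h6⟩ | ⟨-, -, -, h6⟩ := h4
        · exact h6
        · exact h6.symm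
      exact hκ (a i) (Finset.mem_image_of_mem _ (Finset.mem_univ _)) (a j)
        (Finset.mem_image_of_mem _ (Finset.mem_univ _)) (hka i) (hka j) h6 h5
        (Option.some.inj h2))
    have h2 : (univ.filter (fun i : Fin n => (some (κ (a i)) : Option (Fin (p + 1))) = none))
        = ∅ := by
      rw [Finset.eq_empty_iff_forall_notMem]
      intro i hi
      have h3 := (Finset.mem_filter.1 hi).2
      cases h3
    rw [h2] at h1
    simp at h1

end MP3240C
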