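import Pool.Agent.Lib.MP_3240be_co.C4.Defs

/-!
# MP_3240be_co, Theorem C4, row RU1 (RULE 1)
-/

set_option autoImplicit false

namespace MP3240C

open Finset MP3240T MP3240W
open MP3240N (Sig BigC CopyB Homog SP plc QN NoCut)
open MP3240M (MData Em1Statement)
open Pool.Agent.Lib.MP_3240be_co.H36 (LocCol Blow)

/-- A nonempty finite set with at most `m` elements is the image of `Fin m`. -/
theorem ru1_enum {α : Type} [DecidableEq α] (T : Finset α) (m : ℕ) (hT : T.Nonempty)
    (hc : T.card ≤ m) : ∃ f : Fin m → α, ∀ s ∈ T, ∃ k, f k = s := by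
  obtain ⟨d, hd⟩ := hT
  refine ⟨fun k => if hk : (k : ℕ) < T.card then (T.equivFin.symm ⟨k, hk⟩).1 else d, ?_⟩
  intro s hs
  refine ⟨⟨T.equivFin ⟨s, hs⟩, lt_of_lt_of_le (T.equivFin ⟨s, hs⟩).2 hc⟩, ?_⟩
  have h1 : ((T.equivFin ⟨s, hs⟩ : Fin T.card) : ℕ) < T.card := (T.equivFin ⟨s, hs⟩).2
  simp only
  rw [dif_pos h1]
  simp

theorem ru1_adj_ul {n h N q L : ℕ} {I M C : Type} (H : SimpleGraph (Fin n)) (x y : Fin n)
    (W : SimpleGraph (Fin q)) (T : Bool × Fin q → SimpleGraph (Fin L)) (kd : Fin N → Fin q)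
    (δ : M → SP n N q L → I) (X : Cx q C) (k : Fin h) (p : Option I) (w : Fin q)
    (t : Fin L) :
    (FC (h := h) H x y W T kd δ X).Adj (.u k) (.l p w t) := by
  rw [FC, SimpleGraph.fromRel_adj]
  exact ⟨by simp, Or.inl trivial⟩

theorem ru1_adj_ll {n h N q L : ℕ} {I M C : Type} (H : SimpleGraph (Fin n)) (x y : Fin n)
    (W : SimpleGraph (Fin q)) (T : Bool × Fin q → SimpleGraph (Fin L)) (kd : Fin N → Fin q)
    (δ : M → SP n N q L → I) (X : Cx q C) (p p' : Option I) (w w' : Fin q) (t t' : Fin L)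
    (hw : W.Adj w w') :
    (FC (h := h) H x y W T kd δ X).Adj (.l p w t) (.l p' w' t') := by
  rw [FC, SimpleGraph.fromRel_adj]
  refine ⟨?_, Or.inl (Or.inl hw)⟩
  intro h1
  injection h1 with h1 h2 h3
  exact hw.ne h2

theorem ru1_proof (hF : FrcStatement) (hE : Em1Statement) : Ru1Statement := by
  classical
  intro n h N q L r b₀ sp H D x y W T K' kd I M C δ X B c hr hsn hc hno Cs hhst i K b hfine i' w t
    j₀ A hw hA hAu hAv hAn
  have hKi : ∀ j j', j ≠ j' → K j ≠ K j' := fun j j' hj h1 => (hfine.adj j j' hj).ne h1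
  obtain ⟨S, hSA, hSc⟩ := exists_subset_card_eq hAn
  set v : VC n h q L I M C := .l (some i') w t with hv
  -- the special vertices
  have hsp : ∃ f : Fin sp → VC n h q L I M C, ∀ s ∈ insert v S, ∃ k, f k = s := by
    refine ru1_enum _ _ ⟨v, mem_insert_self _ _⟩ ?_
    refine (card_insert_le _ _).trans ?_
    rw [hSc]
    exact hsn
  obtain ⟨sf, hsf⟩ := hsp
  obtain ⟨Z⟩ := hhst i sf
  obtain ⟨b', hcross, hρ, -, hlast⟩ := hF n h N q L r b₀ sp H D x y W T K' kd I M C δ X B c hr hc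
    hno Cs i sf Z K (fun _ => true) hfine.adj
  have hr0 : 0 < r := by omega
  -- `b' = b`
  have hbb : b' = b := by
    by_contra hne
    have h1 : b = !b' := by
      cases b <;> cases b' <;> simp_all
    have h2 := (hρ ⟨0, hr0⟩).2
    have h3 := hfine.one ⟨0, hr0⟩
    rw [← h1] at h2
    have h4 : ((Cs.s none (K ⟨0, hr0⟩)).2 b : ℕ) = r := h2
    omega
  subst hbb
  -- the blow-ups with one part
  have hblow : ∀ j : Fin r, ∃ g : Fin n → Fin b₀, Function.Injective g := by
    intro j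
    obtain ⟨F, hF1, _⟩ := (Z.cop true (K j)).2.2 b'
    have h1 : ((Cs.s (plc i true) (K j)).2 b' : ℕ) = 1 := (hρ j).1
    exact ⟨F ⟨0, by omega⟩, hF1 _⟩
  choose g hg using hblow
  set E : Fin r → Fin n → VC n h q L I M C := fun j a => .l none (K j) (Z.e true (K j) (g j a))
    with hEdef
  -- the colour of a special vertex to a world
  have hspec : ∀ (s : VC n h q L I M C) (j : Fin r), s ∈ insert v S →
      (∀ k, s ≠ .u k) → (∀ p w k, s ≠ .c p w k) →
      (∀ a, (FC H x y W T kd δ X).Adj s (.l none (K j) a)) →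
      ∀ a, (cls (FC H x y W T kd δ X) c b').Adj s (E j a) := by
    intro s j hs hsu hsc hadj a
    have h1 := hlast s j hsu (fun _ _ => hsc _ _) (fun a => hadj _)
    push Not at h1
    obtain ⟨a', ha'⟩ := h1
    obtain ⟨k, hk⟩ := hsf s hs
    have h2 := Z.spe true (K j) k a' (g j a)
    rw [hk] at h2
    have h3 : c s (E j a) = b' := by
      have h4 : c s (E j a) = c s (.l (plc i true) (K j) (Z.e true (K j) a')) := h2.symm
      rw [h4]
      have h5 : c s (.l (plc i true) (K j) (Z.e true (K j) a')) ≠ !b' := ha'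
      cases h6 : c s (.l (plc i true) (K j) (Z.e true (K j) a')) <;> cases b' <;> simp_all
    exact ⟨hadj _, h3, by rw [hc]; exact h3⟩
  refine hno b' (hE n r h H D (VC n h q L I M C) (cls (FC H x y W T kd δ X) c b') E
    (fun k => .u k) v j₀ S ?_ ?_ ?_ ?_ ?_ ?_ hSc.ge ?_ ?_ ?_ ?_ ?_)
  · intro j a a' haa
    injection haa with _ _ h3
    exact hg j ((Z.cop true (K j)).1.1 h3)
  · intro k k' hkk
    injection hkk
  · intro j j' a a' hj
    refine ⟨ru1_adj_ll H x y W T kd δ X _ _ _ _ _ _ (hfine.adj j j' hj), ?_, ?_⟩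
    · exact hcross j j' hj _ _
    · exact hcross j' j hj.symm _ _
  · intro k j a
    have h1 : c (.u k) (E j a) = b' := by
      have h2 := (Z.cop true (K j)).2.1 (g j a) k
      have h3 := hfine.up j k
      exact h2.trans h3
    exact ⟨ru1_adj_ul H x y W T kd δ X k _ _ _, h1, by rw [hc]; exact h1⟩
  · intro j a hj
    refine hspec v j (mem_insert_self _ _) ?_ ?_ ?_ a
    · intro k hk; rw [hv] at hk; cases hk
    · intro p w' k hk; rw [hv] at hk; cases hk
    · intro a'
      exact ru1_adj_ll H x y W T kd δ X _ _ _ _ _ _ (hw j hj)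
  · intro a ha
    obtain ⟨h1, h2⟩ := hAv a (hSA ha)
    exact ⟨h1, h2, by rw [hc]; exact h2⟩
  · intro a ha k
    have h1 := hAu a (hSA ha) k
    obtain ⟨i'', t', rfl⟩ := hA a (hSA ha)
    exact ⟨ru1_adj_ul H x y W T kd δ X k _ _ _, h1, by rw [hc]; exact h1⟩
  · intro a ha j a' hj
    obtain ⟨i'', t', hat⟩ := hA a (hSA ha)
    refine hspec a j ?_ ?_ ?_ ?_ a'
    · exact mem_insert_of_mem ha
    · intro k hk; rw [hat] at hk; cases hk
    · intro p w' k hk; rw [hat] at hk; cases hk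
    · intro a''
      rw [hat]
      exact ru1_adj_ll H x y W T kd δ X _ _ _ _ _ _ (hfine.adj j₀ j hj.symm)
  · intro a ha j a' heq
    obtain ⟨i'', t', hat⟩ := hA a (hSA ha)
    rw [hat] at heq
    injection heq with h1 _ _
    cases h1
  · intro j a heq
    rw [hv] at heq
    injection heq with h1 _ _
    cases h1
  · intro k heq
    rw [hv] at heq
    cases heq

end MP3240C
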