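import Pool.Agent.Lib.MP_3240be_co.C4.Defs

/-!
# MP_3240be_co, board c4_modules: row RU2 (RULE 2)

Three applications of JOI: the parts of the blow-up in an attached window and the slots of one
kind (colour `b`) give `θ i j = !b`; the attached windows, the slots of one kind and those of
another kind (colour `!b`) give `β j j' = b`; the slots of all kinds, the free vertex and the hubs
`u` (colour `b`) give the contradiction.
-/

set_option autoImplicit false

namespace MP3240C

open Finset MP3240T MP3240W
open MP3240N (Sig BigC CopyB Homog SP plc QN NoCut)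
open MP3240M (MData twAdj)
open Pool.Agent.Lib.MP_3240be_co.H36 (LocCol Blow)

namespace Ru2

theorem bne1 : ∀ e b : Bool, e ≠ (!b) → e = b := by decide

theorem bne2 : ∀ e b : Bool, e ≠ b → e = !b := by decide

end Ru2

open Ru2

theorem ru2_proof (hJ : MP3240M.JoiStatement) : Ru2Statement := by
  classical
  intro n h N q L p b₀ LR LQ H D x y W T kd I M δ TR TQ B c hp hδ hc hno b m ps σ E hE K v ν θ β
    hK hν hkd hz hcu hcz hθ hβ
  have hcls : ∀ (e : Bool) (s t : VC n h q L I M (CV p q LR LQ)),
      (FC H x y W T kd δ (cx W TR TQ)).Adj s t → c s t = e →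
      (cls (FC H x y W T kd δ (cx W TR TQ)) c e).Adj s t :=
    fun e s t h1 h2 => ⟨h1, h2, by rw [hc]; exact h2⟩
  have hcls' : ∀ (e : Bool) (s t : VC n h q L I M (CV p q LR LQ)),
      (cls (FC H x y W T kd δ (cx W TR TQ)) c e).Adj s t →
      (cls (FC H x y W T kd δ (cx W TR TQ)) c e).Adj t s :=
    fun e s t h1 => h1.symm
  -- the class `none` has at most `n` elements
  have hhn : h + 1 ≤ n := by
    have h1 := card_le_univ (univ.filter (fun x => D.κ x = none))
    rw [D.cardA, Fintype.card_fin] at h1
    exact h1
  have hn0 : 0 < n := by omega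
  -- the slots
  let Lw : Fin (p + 1) → Fin n → VC n h q L I M (CV p q LR LQ) := fun j a =>
    lowC kd δ m (slt σ (ν j a)) ps
  have hLi : ∀ j, Function.Injective (Lw j) := by
    intro j a a' haa
    have h1 : (some (δ m ((slt σ (ν j a) : Slot n N), ps)) : Option I) =
        some (δ m ((slt σ (ν j a') : Slot n N), ps)) := by
      injection haa
    have h2 := hδ m (Option.some.inj h1)
    have h3 : (slt σ (ν j a) : Slot n N) = slt σ (ν j a') := congrArg Prod.fst h2
    have h4 : ν j a = ν j a' := congrArg (fun t : Slot n N => t.2.2.1) h3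
    exact hν j h4
  have hne : ∀ j j' a a', j ≠ j' → Lw j a ≠ Lw j' a' := by
    intro j j' a a' hj he
    have h1 : kd (ν j a) = kd (ν j' a') := by
      injection he
    rw [hkd, hkd] at h1
    exact (hK j j' hj).ne h1
  have hLL : ∀ j j', j ≠ j' → ∀ a a',
      (cls (FC H x y W T kd δ (cx W TR TQ)) c (β j j')).Adj (Lw j a) (Lw j' a') := by
    intro j j' hj a a'
    refine hcls _ _ _ ?_ (hβ j j' hj a a')
    refine (SimpleGraph.fromRel_adj _ _ _).2 ⟨hne j j' a a' hj, Or.inl (Or.inl ?_)⟩
    have h1 := hK j j' hj
    rw [← hkd j a, ← hkd j' a'] at h1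
    exact h1
  -- the windows and the slots
  have hWL : ∀ (i : Fin p) (t : Fin LR) (j : Fin (p + 1)) (a : Fin n),
      (FC H x y W T kd δ (cx W TR TQ)).Adj (win m ps σ (some i) t) (Lw j a) := by
    intro i t j a
    refine (SimpleGraph.fromRel_adj _ _ _).2 ⟨(by intro he; cases he), Or.inl (Or.inl ⟨?_, ?_⟩)⟩
    · change (some i : Option (Fin p)) ≠ none
      exact Option.some_ne_none i
    · exact ⟨slt σ (ν j a), rfl, rfl, rfl, rfl, v, hz j a⟩
  -- step 1
  have hθb : ∀ i j, θ i j = !b := by
    intro i j
    by_contra hne1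
    have hθ1 : θ i j = b := bne1 _ _ hne1
    obtain ⟨F, hF1, hF2⟩ := hE.blo (some i)
    refine hno b (hJ n (p + 1) h H D _ _ (fun k u => win m ps σ (some i) (E (some i) (F k u)))
      (univ.image (Lw j)) ?_ ?_ ?_ ?_)
    · intro k u u' huu
      have h1 : (Sum.inl (some i, E (some i) (F k u)) : CV p q LR LQ) =
          Sum.inl (some i, E (some i) (F k u')) := by
        injection huu
      have h2 := congrArg Prod.snd (Sum.inl.inj h1)
      exact hF1 k (hE.inj _ h2)
    · intro k k' hk u u'
      have h1 := hF2 k k' hk u u'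
      have h2 := hE.hom (some i) _ _ h1.1
      refine hcls _ _ _ ?_ h1.2
      refine (SimpleGraph.fromRel_adj _ _ _).2 ⟨?_, Or.inl ⟨rfl, rfl, rfl, ?_⟩⟩
      · intro he
        have h3 : (Sum.inl (some i, E (some i) (F k u)) : CV p q LR LQ) =
            Sum.inl (some i, E (some i) (F k' u')) := by
          injection he
        have h4 := congrArg Prod.snd (Sum.inl.inj h3)
        exact h2.ne h4
      · refine (SimpleGraph.fromRel_adj _ _ _).2 ⟨?_, Or.inl (Or.inr h2)⟩
        intro h3
        have h4 := congrArg Prod.snd (Sum.inl.inj h3)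
        exact h2.ne h4
    · rw [card_image_of_injective _ (hLi j), card_univ, Fintype.card_fin]
      omega
    · intro s hs k u
      obtain ⟨a, _, rfl⟩ := mem_image.1 hs
      exact hcls' _ _ _ (hcls _ _ _ (hWL i _ j a) ((hθ i j a _).trans hθ1))
  -- step 2
  have hβb : ∀ j j', j ≠ j' → β j j' = b := by
    intro j j' hj
    by_contra hne1
    have hβ1 : β j j' = !b := bne2 _ _ hne1
    have hpt : ∀ i : Fin p, ∃ g : Fin n → Fin b₀, Function.Injective g := by
      intro i
      obtain ⟨F, hF1, _⟩ := hE.blo (some i)
      exact ⟨F 0, hF1 0⟩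
    choose g hg using hpt
    let F : Fin (p + 1) → Fin n → VC n h q L I M (CV p q LR LQ) := fun k =>
      Fin.cases (Lw j) (fun i u => win m ps σ (some i) (E (some i) (g i u))) k
    have hWi : ∀ i : Fin p, Function.Injective (F i.succ) := by
      intro i u u' huu
      have h1 : (Sum.inl (some i, E (some i) (g i u)) : CV p q LR LQ) =
          Sum.inl (some i, E (some i) (g i u')) := by
        change (win m ps σ (some i) (E (some i) (g i u)) : VC n h q L I M (CV p q LR LQ)) =
          win m ps σ (some i) (E (some i) (g i u')) at huu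
        injection huu
      have h2 := congrArg Prod.snd (Sum.inl.inj h1)
      exact hg i (hE.inj _ h2)
    have hWLc : ∀ (i : Fin p) (u : Fin n) (j₁ : Fin (p + 1)) (a : Fin n),
        (cls (FC H x y W T kd δ (cx W TR TQ)) c (!b)).Adj
          (win m ps σ (some i) (E (some i) (g i u))) (Lw j₁ a) := by
      intro i u j₁ a
      exact hcls _ _ _ (hWL i _ j₁ a) ((hθ i j₁ a _).trans (hθb i j₁))
    refine hno (!b) (hJ n (p + 1) h H D _ _ F (univ.image (Lw j')) ?_ ?_ ?_ ?_)
    · intro k
      refine Fin.cases ?_ (fun i => ?_) k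
      · exact hLi j
      · exact hWi i
    · intro k k'
      refine Fin.cases ?_ (fun i => ?_) k
      · refine Fin.cases ?_ (fun i' => ?_) k'
        · intro h0
          exact absurd rfl h0
        · intro _ u u'
          exact hcls' _ _ _ (hWLc i' u' j u)
      · refine Fin.cases ?_ (fun i' => ?_) k'
        · intro _ u u'
          exact hWLc i u j u'
        · intro hii u u'
          have hii' : i ≠ i' := fun h1 => hii (congrArg Fin.succ h1)
          have hs : (some i : Option (Fin p)) ≠ some i' := fun h1 => hii' (Option.some.inj h1)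
          refine hcls _ _ _ ?_ (hE.crs _ _ hs _ _)
          refine (SimpleGraph.fromRel_adj _ _ _).2 ⟨?_, Or.inl ⟨rfl, rfl, rfl, ?_⟩⟩
          · intro he
            have h3 : (Sum.inl (some i, E (some i) (g i u)) : CV p q LR LQ) =
                Sum.inl (some i', E (some i') (g i' u')) := by
              injection he
            exact hs (congrArg Prod.fst (Sum.inl.inj h3))
          · refine (SimpleGraph.fromRel_adj _ _ _).2 ⟨?_, Or.inl (Or.inl hs)⟩
            intro h3
            exact hs (congrArg Prod.fst (Sum.inl.inj h3))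
    · rw [card_image_of_injective _ (hLi j'), card_univ, Fintype.card_fin]
      omega
    · intro s hs k u
      obtain ⟨a, _, rfl⟩ := mem_image.1 hs
      refine Fin.cases ?_ (fun i => ?_) k
      · have h1 := hLL j j' hj u a
        rw [hβ1] at h1
        exact hcls' _ _ _ h1
      · exact hcls' _ _ _ (hWLc i u j' a)
  -- step 3
  refine hno b (hJ n (p + 1) h H D _ _ Lw
    (insert (.z m ps v) (univ.image (fun k : Fin h => (.u k : VC n h q L I M (CV p q LR LQ)))))
    hLi ?_ ?_ ?_)
  · intro j j' hj a a'
    have h1 := hLL j j' hj a a'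
    rw [hβb j j' hj] at h1
    exact h1
  · rw [card_insert_of_notMem, card_image_of_injective, card_univ, Fintype.card_fin]
    · omega
    · intro k k' hkk
      injection hkk
    · intro hm
      obtain ⟨k, _, hk⟩ := mem_image.1 hm
      cases hk
  · intro s hs j a
    rcases mem_insert.1 hs with rfl | hs
    · refine hcls _ _ _ ?_ (hcz j a)
      exact (SimpleGraph.fromRel_adj _ _ _).2
        ⟨(by intro he; cases he), Or.inl ⟨slt σ (ν j a), rfl, hz j a⟩⟩
    · obtain ⟨k, _, rfl⟩ := mem_image.1 hs
      refine hcls _ _ _ ?_ (hcu j a k)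
      exact (SimpleGraph.fromRel_adj _ _ _).2 ⟨(by intro he; cases he), Or.inl trivial⟩

end MP3240C
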