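import Pool.Agent.Lib.MP_3240be_co.C4.Arc
import Pool.Agent.Lib.MP_3240be_co.C4.Blc
import Pool.Agent.Lib.MP_3240be_co.C4.Cla
import Pool.Agent.Lib.MP_3240be_co.C4.Clc
import Pool.Agent.Lib.MP_3240be_co.C4.Cpf
import Pool.Agent.Lib.MP_3240be_co.C4.Crc
import Pool.Agent.Lib.MP_3240be_co.C4.Cxg
import Pool.Agent.Lib.MP_3240be_co.C4.Fin
import Pool.Agent.Lib.MP_3240be_co.C4.Frc
import Pool.Agent.Lib.MP_3240be_co.C4.Gac
import Pool.Agent.Lib.MP_3240be_co.C4.Hmc
import Pool.Agent.Lib.MP_3240be_co.C4.Hst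
import Pool.Agent.Lib.MP_3240be_co.C4.Kwm
import Pool.Agent.Lib.MP_3240be_co.C4.Lnk
import Pool.Agent.Lib.MP_3240be_co.C4.Mnc
import Pool.Agent.Lib.MP_3240be_co.C4.Nfc
import Pool.Agent.Lib.MP_3240be_co.C4.Rar
import Pool.Agent.Lib.MP_3240be_co.C4.Rdc
import Pool.Agent.Lib.MP_3240be_co.C4.Ru1
import Pool.Agent.Lib.MP_3240be_co.C4.Ru2
import Pool.Agent.Lib.MP_3240be_co.M3.Final

/-!
# MP_3240be_co: Theorem C4 (2-connected graphs of chromatic number at least 4), assembled
-/

set_option autoImplicit false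

namespace MP3240C

open Finset MP3240T MP3240W MP3240WC
open Pool.Agent.Lib.MP_3240be_co.H36.Chrom (ArrowsT iso_of_le)

theorem mnc_main : MncStatement :=
  mnc_proof
    (arc_proof cla_proof hst_proof (fine_proof (frc_proof MP3240M.key_proof))
      (ru1_proof (frc_proof MP3240M.key_proof) MP3240M.em1_proof)
      (cpf_proof (frc_proof MP3240M.key_proof) lnk_proof)
      (ru2_proof MP3240M.joi_proof))
    (nfc_proof rdc_proof (blc_proof pc2_proof gac_proof))
    MP3240N.grp_proof MP3240N.hb_proof MP3240N.kw_proof (hmc_proof MP3240N.grp_proof) rar_proof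
    cxg_proof hyp_proof

/-- **Theorem C4.** A 2-connected graph which is not 3-colourable is separated (a graph which is
Ramsey for the one and not for the other) from every larger connected graph which contains it. -/
theorem crc_main : CrcStatement :=
  crc_proof mnc_main clc_proof two_proof

end MP3240C
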